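import Mathlib

set_option autoImplicit false

namespace Pool.Agent.Helper96.Tau

open scoped Classical

noncomputable section

/-- The join of a setoid `r` with the pair `(u,v)` (contract the edge `uv`). -/
def join {V : Type} (r : Setoid V) (u v : V) : Setoid V where
  r x y := r x y ∨ (r x u ∧ r v y) ∨ (r x v ∧ r u y)
  iseqv := by
    refine ⟨fun x => Or.inl (r.refl x), ?_, ?_⟩
    · rintro x y (h | ⟨h1, h2⟩ | ⟨h1, h2⟩)
      · exact Or.inl (r.symm h)
      · exact Or.inr (Or.inr ⟨r.symm h2, r.symm h1⟩)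
      · exact Or.inr (Or.inl ⟨r.symm h2, r.symm h1⟩)
    · rintro x y z (h | ⟨h1, h2⟩ | ⟨h1, h2⟩) (h' | ⟨h1', h2'⟩ | ⟨h1', h2'⟩)
      · exact Or.inl (r.trans h h')
      · exact Or.inr (Or.inl ⟨r.trans h h1', h2'⟩)
      · exact Or.inr (Or.inr ⟨r.trans h h1', h2'⟩)
      · exact Or.inr (Or.inl ⟨h1, r.trans h2 h'⟩)
      · exact Or.inr (Or.inl ⟨h1, h2'⟩)
      · exact Or.inl (r.trans h1 h2')
      · exact Or.inr (Or.inr ⟨h1, r.trans h2 h'⟩)
      · exact Or.inl (r.trans h1 h2')
      · exact Or.inr (Or.inr ⟨h1, h2'⟩)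

/-- Number of classes. -/
def kk {V : Type} (r : Setoid V) : ℕ := Nat.card (Quotient r)

/-- `Pb m L r = (-1)^(#classes) * (chromatic polynomial of the multigraph (V/r, L))(-m)`,
by deletion and contraction. -/
def Pb {V : Type} (m : ℝ) : List (V × V) → Setoid V → ℝ
  | [], r => m ^ kk r
  | e :: L, r => if r e.1 e.2 then 0 else Pb m L r + Pb m L (join r e.1 e.2)

/-- The setoid generated by a set `A` of edges of the multigraph `ends : ι → V × V`. -/
def sp {V ι : Type} (ends : ι → V × V) (A : Set ι) : Setoid V :=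
  Relation.EqvGen.setoid (fun x y => ∃ i ∈ A, ends i = (x, y))

/-- `A` is a forest. -/
def Indep {V ι : Type} (ends : ι → V × V) (A : Finset ι) : Prop :=
  ∀ a ∈ A, ¬ sp ends {b | b ∈ A ∧ b ≠ a} (ends a).1 (ends a).2

/-- Large girth certificate: for each edge `i` there is a potential `D`, 0 at one end, at least `g` at the
other one, and `1`-Lipschitz along all other edges. -/
def HasGirth {V ι : Type} (ends : ι → V × V) (g : ℕ) : Prop :=
  ∀ i, ∃ D : V → ℕ, D (ends i).2 = 0 ∧ g ≤ D (ends i).1 ∧
    ∀ j, j ≠ i → D (ends j).1 ≤ D (ends j).2 + 1 ∧ D (ends j).2 ≤ D (ends j).1 + 1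

/-- All degrees are at most `d`. -/
def DegLE {V ι : Type} (ends : ι → V × V) (d : ℕ) : Prop :=
  ∀ v, Nat.card {i : ι // (ends i).1 = v ∨ (ends i).2 = v} ≤ d

/-- The list of all edges. -/
def el {V ι : Type} [Fintype ι] (ends : ι → V × V) : List (V × V) :=
  (Finset.univ : Finset ι).toList.map ends

/-- `(-1)^|V| P_G(-m)` for the multigraph `ends`. -/
def PbG {V ι : Type} [Fintype ι] (m : ℝ) (ends : ι → V × V) : ℝ := Pb m (el ends) ⊥

/-- weight used in the exploration lemma -/
def wt {V : Type} (θ : ℝ) (D : V → ℕ) (r : Setoid V) (u : V) (f : V × V) : ℝ :=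
  (if r u f.1 then θ ^ D f.2 else 0) + (if r u f.2 then θ ^ D f.1 else 0)

/-- `A` survives the deletion-contraction process along the list `l` (contract the elements of `A`, delete the
others, never meeting a loop): an nbc condition. -/
def Good {V ι : Type} (ends : ι → V × V) : List ι → Setoid V → Set ι → Prop
  | [], _, _ => True
  | i :: l, r, A => ¬ r (ends i).1 (ends i).2 ∧
      (if i ∈ A then Good ends l (join r (ends i).1 (ends i).2) A else Good ends l r A)

/-- The labelling `x` is good for the forest `A`. -/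
def GoodLab {V ι : Type} (ends : ι → V × V) (k : ℕ) (A : Finset ι) (x : ι → Fin (k + 2)) : Prop :=
  (∀ i ∈ A, x i ≠ 0) ∧
  (∀ i, i ∉ A → x i ≠ Fin.last (k + 1) ∧
    (x i ≠ 0 → ¬ sp ends {a | a ∈ A ∧ x a ≠ Fin.last (k + 1)} (ends i).1 (ends i).2))

/-- Pointer structures: each vertex is isolated (`none`) or points along an incident edge `i` to a non isolated
vertex which does not point back along `i`. -/
def PS {V ι : Type} (ends : ι → V × V) (q : V → Option ι) : Prop :=
  ∀ v i, q v = some i →
    ((ends i).1 = v ∧ q (ends i).2 ≠ none ∧ q (ends i).2 ≠ some i) ∨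
    ((ends i).2 = v ∧ q (ends i).1 ≠ none ∧ q (ends i).1 ≠ some i)

/-- The vertex pointed to. -/
def nx {V ι : Type} (ends : ι → V × V) (q : V → Option ι) (v : V) : V :=
  match q v with
  | none => v
  | some i => if (ends i).1 = v then (ends i).2 else (ends i).1

/-- The `N`-fold lift (parameters `π`) of the bipartite double cover of the Cayley graph of `Γ` with respect to the
involutions `s c`. -/
def lift {Γ : Type} [Group Γ] {d N : ℕ} (s : Fin d → Γ) (π : Γ × Fin d → Equiv.Perm (Fin N))
    (e : Γ × Fin d × Fin N) : (Bool × Γ × Fin N) × (Bool × Γ × Fin N) :=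
  ((false, e.1, e.2.2), (true, e.1 * s e.2.1, π (e.1, e.2.1) e.2.2))

/-- The expected number (per group element) of balanced pointer structures in a random lift. -/
def Qn (d z a : ℕ) : ℝ :=
  (((z + d * a).factorial : ℝ) / ((z.factorial : ℝ) * ((a.factorial : ℝ)) ^ d)) ^ 2 *
    (((((d - 1) * a).factorial : ℝ) / (((d - 2) * a).factorial : ℝ)) ^ 2 *
      (((z + d * a - 2 * a).factorial : ℝ) / ((z + d * a).factorial : ℝ))) ^ d

/-- Compatibility of a colour assignment `f` (pointer colours) with the lift parameters `π`. -/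
def Compat {Γ : Type} [Group Γ] {d N : ℕ} (s : Fin d → Γ) (π : Γ × Fin d → Equiv.Perm (Fin N))
    (f : Bool × Γ × Fin N → Option (Fin d)) : Prop :=
  ∀ (x : Γ) (c : Fin d) (j : Fin N),
    (f (false, x, j) = some c →
      f (true, x * s c, π (x, c) j) ≠ none ∧ f (true, x * s c, π (x, c) j) ≠ some c) ∧
    (f (true, x * s c, π (x, c) j) = some c → f (false, x, j) ≠ none ∧ f (false, x, j) ≠ some c)

/-- Balanced colour assignments: in each fibre `z` isolated vertices and `a` pointers of each colour. -/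
def Bal {Γ : Type} {d N : ℕ} (z a : ℕ) (f : Bool × Γ × Fin N → Option (Fin d)) : Prop :=
  ∀ b x, Nat.card {j : Fin N // f (b, x, j) = none} = z ∧
    ∀ c : Fin d, Nat.card {j : Fin N // f (b, x, j) = some c} = a

end

end Pool.Agent.Helper96.Tau
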