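import Pool.Agent.Helper96.Tau.Defs

set_option autoImplicit false


namespace Pool.Agent.Helper96.Tau.P_Pb_nonneg

open Pool.Agent.Helper96.Tau
open scoped Classical

noncomputable section






theorem Pb_nonneg {V : Type} (m : ℝ) (hm : 0 ≤ m) (L : List (V × V)) (r : Setoid V) :
    0 ≤ Pb m L r := by
  induction L generalizing r with
  | nil =>
    unfold Pb
    exact pow_nonneg hm _
  | cons e L ih =>
    unfold Pb
    split_ifs
    · exact le_refl _
    · exact add_nonneg (ih _) (ih _)


end

end Pool.Agent.Helper96.Tau.P_Pb_nonneg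

namespace Pool.Agent.Helper96.Tau

alias Pb_nonneg := P_Pb_nonneg.Pb_nonneg

end Pool.Agent.Helper96.Tau
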