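import Pool.Agent.Helper96.Tau.Defs

set_option autoImplicit false

namespace Pool.Agent.Helper96.Tau.P_join_comm

open Pool.Agent.Helper96.Tau
open scoped Classical

theorem join_le_iff {V : Type} (r t : Setoid V) (u v : V) : join r u v ≤ t ↔ r ≤ t ∧ t u v := by
  constructor
  · intro h
    refine ⟨fun {x y} hxy => h (Or.inl hxy), h (Or.inr (Or.inl ⟨r.refl u, r.refl v⟩))⟩
  · rintro ⟨h1, h2⟩ x y (h | ⟨ha, hb⟩ | ⟨ha, hb⟩)
    · exact h1 h
    · exact t.trans (h1 ha) (t.trans h2 (h1 hb))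
    · exact t.trans (h1 ha) (t.trans (t.symm h2) (h1 hb))

theorem join_comm {V : Type} (r : Setoid V) (a b c d : V) :
    join (join r a b) c d = join (join r c d) a b := by
  apply le_antisymm
  · rw [join_le_iff, join_le_iff]
    obtain ⟨h1, h2⟩ := (join_le_iff _ _ a b).1 (le_refl (join (join r c d) a b))
    obtain ⟨h3, h4⟩ := (join_le_iff _ _ c d).1 h1
    exact ⟨⟨h3, h2⟩, h4⟩
  · rw [join_le_iff, join_le_iff]
    obtain ⟨h1, h2⟩ := (join_le_iff _ _ c d).1 (le_refl (join (join r a b) c d))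
    obtain ⟨h3, h4⟩ := (join_le_iff _ _ a b).1 h1
    exact ⟨⟨h3, h2⟩, h4⟩

end Pool.Agent.Helper96.Tau.P_join_comm

namespace Pool.Agent.Helper96.Tau

alias join_comm := P_join_comm.join_comm

end Pool.Agent.Helper96.Tau
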