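import Pool.Agent.Helper96.Tau.Defs

set_option autoImplicit false


namespace Pool.Agent.Helper96.Tau.P_join_exch

open Pool.Agent.Helper96.Tau
open scoped Classical

noncomputable section






theorem join_exch_le {V : Type} (r t : Setoid V) (a b : V) (h1 : ∀ x y, r x y → t x y)
    (h2 : t a b) (x y : V) (h : (join r a b) x y) : t x y := by
  rcases h with h | ⟨h3, h4⟩ | ⟨h3, h4⟩
  · exact h1 _ _ h
  · exact t.trans (t.trans (h1 _ _ h3) h2) (h1 _ _ h4)
  · exact t.trans (t.trans (h1 _ _ h3) (t.symm h2)) (h1 _ _ h4)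

theorem join_exch {V : Type} (r : Setoid V) (a b c d : V) (h : (join r a b) c d) (h' : ¬ r c d) :
    join r a b = join r c d := by
  have h2 : (join r c d) a b := by
    rcases h with h | ⟨h3, h4⟩ | ⟨h3, h4⟩
    · exact absurd h h'
    · exact Or.inr (Or.inl ⟨r.symm h3, r.symm h4⟩)
    · exact Or.inr (Or.inr ⟨h4, h3⟩)
  refine Setoid.ext fun x y => ⟨fun hxy => ?_, fun hxy => ?_⟩
  · exact join_exch_le r (join r c d) a b (fun x y hr => Or.inl hr) h2 x y hxy
  · exact join_exch_le r (join r a b) c d (fun x y hr => Or.inl hr) h x y hxy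


end

end Pool.Agent.Helper96.Tau.P_join_exch

namespace Pool.Agent.Helper96.Tau

alias join_exch := P_join_exch.join_exch

end Pool.Agent.Helper96.Tau
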