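import Pool.Agent.Helper96.Tau.Defs

set_option autoImplicit false


namespace Pool.Agent.Helper96.Tau.P_join_of_rel

open Pool.Agent.Helper96.Tau
open scoped Classical

noncomputable section






theorem join_of_rel {V : Type} (r : Setoid V) (u v : V) (h : r u v) : join r u v = r := by
  apply Setoid.ext
  intro x y
  constructor
  · intro hxy
    change r x y ∨ (r x u ∧ r v y) ∨ (r x v ∧ r u y) at hxy
    rcases hxy with h1 | ⟨h1, h2⟩ | ⟨h1, h2⟩
    · exact h1
    · exact r.trans h1 (r.trans h h2)
    · exact r.trans h1 (r.trans (r.symm h) h2)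
  · intro hxy
    exact Or.inl hxy


end

end Pool.Agent.Helper96.Tau.P_join_of_rel

namespace Pool.Agent.Helper96.Tau

alias join_of_rel := P_join_of_rel.join_of_rel

end Pool.Agent.Helper96.Tau
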