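import Pool.Agent.Helper96.Tau.Defs

set_option autoImplicit false


namespace Pool.Agent.Helper96.Tau.P_kk_join

open Pool.Agent.Helper96.Tau
open scoped Classical

noncomputable section






theorem kk_join {V : Type} [Finite V] (r : Setoid V) (u v : V) (h : ¬ r u v) :
    kk (join r u v) + 1 = kk r := by
  unfold kk
  set a : Quotient r := Quotient.mk r v with ha
  have h1 : Nat.card (Quotient r) = Nat.card {c : Quotient r // c ≠ a} + 1 := by
    rw [← Finite.card_option, Nat.card_congr (Equiv.optionSubtypeNe a)]
  have hmap : ∀ x y : V, r x y → (join r u v) x y := fun x y hxy => Or.inl hxy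
  set F : Quotient r → Quotient (join r u v) :=
    Quotient.map' (s₁ := r) (s₂ := join r u v) id hmap with hF
  have h2 : Function.Bijective (fun c : {c : Quotient r // c ≠ a} => F c.1) := by
    constructor
    · rintro ⟨c, hc⟩ ⟨d, hd⟩ hcd
      apply Subtype.ext
      induction c using Quotient.inductionOn with
      | _ x =>
      induction d using Quotient.inductionOn with
      | _ y =>
      have h3 : (join r u v) x y := Quotient.exact hcd
      have hx : ¬ r x v := fun hh => hc (Quotient.sound hh)
      have hy : ¬ r y v := fun hh => hd (Quotient.sound hh)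
      rcases h3 with h3 | ⟨_, h4⟩ | ⟨h4, _⟩
      · exact Quotient.sound h3
      · exact absurd (r.symm h4) hy
      · exact absurd h4 hx
    · intro q
      induction q using Quotient.inductionOn with
      | _ x =>
      by_cases hx : r x v
      · refine ⟨⟨Quotient.mk r u, fun hh => h (Quotient.exact hh)⟩, ?_⟩
        apply Quotient.sound
        exact Or.inr (Or.inl ⟨r.refl u, r.symm hx⟩)
      · exact ⟨⟨Quotient.mk r x, fun hh => hx (Quotient.exact hh)⟩, rfl⟩
  rw [h1, Nat.card_congr (Equiv.ofBijective _ h2)]



end

end Pool.Agent.Helper96.Tau.P_kk_join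

namespace Pool.Agent.Helper96.Tau

alias kk_join := P_kk_join.kk_join

end Pool.Agent.Helper96.Tau
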