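import Pool.Agent.Helper96.Tau.Defs
import Pool.Agent.Helper96.Tau.P_kk_join
import Pool.Agent.Helper96.Tau.P_join_of_rel
import Pool.Agent.Helper96.Tau.P_join_comm
import Pool.Agent.Helper96.Tau.P_join_exch
import Pool.Agent.Helper96.Tau.P_Pb_nonneg

set_option autoImplicit false


namespace Pool.Agent.Helper96.Tau.P_Pb_corr

open Pool.Agent.Helper96.Tau
open scoped Classical

noncomputable section























theorem Pb_corr {V : Type} [Finite V] (m : ℝ) (hm : 0 < m) (L : List (V × V)) (r : Setoid V) (u v : V)
    (h : ¬ r u v) : m * Pb m L (join r u v) ≤ Pb m L r := by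
  induction L generalizing r with
  | nil =>
    show m * m ^ kk (join r u v) ≤ m ^ kk r
    rw [← kk_join r u v h, pow_succ, mul_comm]
  | cons f L ih =>
    show m * (if (join r u v) f.1 f.2 then 0 else
      Pb m L (join r u v) + Pb m L (join (join r u v) f.1 f.2)) ≤
        if r f.1 f.2 then 0 else Pb m L r + Pb m L (join r f.1 f.2)
    by_cases h1 : r f.1 f.2
    · have h2 : (join r u v) f.1 f.2 := Or.inl h1
      rw [if_pos h1, if_pos h2, mul_zero]
    · rw [if_neg h1]
      by_cases h2 : (join r u v) f.1 f.2
      · rw [if_pos h2, mul_zero]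
        exact add_nonneg (Pb_nonneg m hm.le L r) (Pb_nonneg m hm.le L _)
      · rw [if_neg h2, mul_add]
        have h3 : ¬ (join r f.1 f.2) u v := by
          intro h4
          have h5 := join_exch r f.1 f.2 u v h4 h
          apply h2
          rw [← h5]
          exact Or.inr (Or.inl ⟨r.refl _, r.refl _⟩)
        have h6 := ih (join r f.1 f.2) h3
        rw [← join_comm r u v f.1 f.2] at h6
        exact add_le_add (ih r h) h6


end

end Pool.Agent.Helper96.Tau.P_Pb_corr

namespace Pool.Agent.Helper96.Tau

alias Pb_corr := P_Pb_corr.Pb_corr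

end Pool.Agent.Helper96.Tau
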