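import Pool.Agent.Helper96.Tau.Defs
import Pool.Agent.Helper96.Tau.P_kk_join
import Pool.Agent.Helper96.Tau.P_join_comm
import Pool.Agent.Helper96.Tau.P_join_of_rel

set_option autoImplicit false


namespace Pool.Agent.Helper96.Tau.P_Pb_isolated

open Pool.Agent.Helper96.Tau
open scoped Classical

noncomputable section

















theorem Pb_isolated {V : Type} [Finite V] (m : ℝ) (L : List (V × V)) (r : Setoid V) (u v : V)
    (huv : ¬ r u v) (h : ∀ f ∈ L, ¬ r u f.1 ∧ ¬ r u f.2) :
    Pb m L r = m * Pb m L (join r u v) := by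
  induction L generalizing r with
  | nil =>
    change m ^ kk r = m * m ^ kk (join r u v)
    rw [← kk_join r u v huv, pow_succ, mul_comm]
  | cons f L ih =>
    have hf := h f List.mem_cons_self
    have hL : ∀ g ∈ L, ¬ r u g.1 ∧ ¬ r u g.2 := fun g hg => h g (List.mem_cons_of_mem _ hg)
    have hiff : (join r u v) f.1 f.2 ↔ r f.1 f.2 := by
      constructor
      · rintro (h1 | ⟨h1, -⟩ | ⟨-, h1⟩)
        · exact h1
        · exact absurd (r.symm h1) hf.1
        · exact absurd h1 hf.2
      · intro h1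
        exact Or.inl h1
    have hj : ∀ y, ¬ r u y → ¬ (join r f.1 f.2) u y := by
      rintro y hy (h1 | ⟨h1, -⟩ | ⟨h1, -⟩)
      · exact hy h1
      · exact hf.1 h1
      · exact hf.2 h1
    change (if r f.1 f.2 then 0 else Pb m L r + Pb m L (join r f.1 f.2)) =
      m * (if (join r u v) f.1 f.2 then 0 else
        Pb m L (join r u v) + Pb m L (join (join r u v) f.1 f.2))
    by_cases hr : r f.1 f.2
    · rw [if_pos hr, if_pos (hiff.2 hr), mul_zero]
    · rw [if_neg hr, if_neg (fun hh => hr (hiff.1 hh)), ih r huv hL,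
        ih (join r f.1 f.2) (hj v huv) (fun g hg => ⟨hj _ (hL g hg).1, hj _ (hL g hg).2⟩),
        join_comm r u v f.1 f.2, mul_add]


end

end Pool.Agent.Helper96.Tau.P_Pb_isolated

namespace Pool.Agent.Helper96.Tau

alias Pb_isolated := P_Pb_isolated.Pb_isolated

end Pool.Agent.Helper96.Tau
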