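import Pool.Agent.Helper96.Tau.Defs
import Pool.Agent.Helper96.Tau.P_join_of_rel
import Pool.Agent.Helper96.Tau.P_join_comm
import Pool.Agent.Helper96.Tau.P_join_exch

set_option autoImplicit false


namespace Pool.Agent.Helper96.Tau.P_Pb_perm

open Pool.Agent.Helper96.Tau
open scoped Classical

noncomputable section

















theorem Pb_perm_self {V : Type} (r : Setoid V) (a b : V) : (join r a b) a b :=
  Or.inr (Or.inl ⟨r.refl a, r.refl b⟩)

theorem Pb_perm_cons {V : Type} (m : ℝ) (e : V × V) (L : List (V × V)) (r : Setoid V) :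
    Pb m (e :: L) r = if r e.1 e.2 then 0 else Pb m L r + Pb m L (join r e.1 e.2) := rfl

theorem Pb_perm_swap {V : Type} (m : ℝ) (e f : V × V) (L : List (V × V)) (r : Setoid V) :
    Pb m (e :: f :: L) r = Pb m (f :: e :: L) r := by
  rw [Pb_perm_cons m e, Pb_perm_cons m f, Pb_perm_cons m f L (join r e.1 e.2),
    Pb_perm_cons m f (e :: L), Pb_perm_cons m e L r, Pb_perm_cons m e L (join r f.1 f.2)]
  by_cases he : r e.1 e.2
  · have h1 : (join r f.1 f.2) e.1 e.2 := Or.inl he
    rw [if_pos he, if_pos he, if_pos h1]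
    simp
  · by_cases hf : r f.1 f.2
    · have h1 : (join r e.1 e.2) f.1 f.2 := Or.inl hf
      rw [if_neg he, if_pos hf, if_pos h1, if_pos hf]
      simp
    · rw [if_neg he, if_neg hf, if_neg hf, if_neg he]
      by_cases h1 : (join r e.1 e.2) f.1 f.2
      · have h2 := join_exch r e.1 e.2 f.1 f.2 h1 hf
        have h3 : (join r f.1 f.2) e.1 e.2 := by
          rw [← h2]; exact Pb_perm_self r _ _
        rw [if_pos h1, if_pos h3, h2]
      · have h3 : ¬ (join r f.1 f.2) e.1 e.2 := by
          intro h4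
          have h2 := join_exch r f.1 f.2 e.1 e.2 h4 he
          apply h1
          rw [← h2]; exact Pb_perm_self r _ _
        rw [if_neg h1, if_neg h3, join_comm r f.1 f.2 e.1 e.2]
        ring

theorem Pb_perm {V : Type} (m : ℝ) (L L' : List (V × V)) (h : L.Perm L') (r : Setoid V) :
    Pb m L r = Pb m L' r := by
  induction h generalizing r with
  | nil => rfl
  | cons x _ ih => rw [Pb_perm_cons, Pb_perm_cons, ih, ih]
  | swap x y l => exact Pb_perm_swap m y x l r
  | trans _ _ ih1 ih2 => rw [ih1, ih2]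


end

end Pool.Agent.Helper96.Tau.P_Pb_perm

namespace Pool.Agent.Helper96.Tau

alias Pb_perm := P_Pb_perm.Pb_perm

end Pool.Agent.Helper96.Tau
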