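import Pool.Agent.Helper96.Tau.Defs
import Pool.Agent.Helper96.Tau.P_Pb_nonneg

set_option autoImplicit false


namespace Pool.Agent.Helper96.Tau.P_Pb_pos

open Pool.Agent.Helper96.Tau
open scoped Classical

noncomputable section











theorem Pb_pos {V : Type} (m : ℝ) (hm : 0 < m) (L : List (V × V)) (hL : ∀ f ∈ L, f.1 ≠ f.2) :
    0 < Pb m L (⊥ : Setoid V) := by
  induction L with
  | nil =>
    unfold Pb
    positivity
  | cons e L ih =>
    have he : ¬ (⊥ : Setoid V) e.1 e.2 := fun h => hL e (by simp) h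
    unfold Pb
    rw [if_neg he]
    have h1 := ih fun f hf => hL f (by simp [hf])
    have h2 := Pb_nonneg m hm.le L (join (⊥ : Setoid V) e.1 e.2)
    linarith


end

end Pool.Agent.Helper96.Tau.P_Pb_pos

namespace Pool.Agent.Helper96.Tau

alias Pb_pos := P_Pb_pos.Pb_pos

end Pool.Agent.Helper96.Tau
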