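import Pool.Agent.Helper96.Tau.Defs
import Pool.Agent.Helper96.Tau.P_kk_join
import Pool.Agent.Helper96.Tau.P_join_of_rel
import Pool.Agent.Helper96.Tau.P_join_comm
import Pool.Agent.Helper96.Tau.P_join_exch
import Pool.Agent.Helper96.Tau.P_Pb_nonneg
import Pool.Agent.Helper96.Tau.P_Pb_perm
import Pool.Agent.Helper96.Tau.P_Pb_corr
import Pool.Agent.Helper96.Tau.P_Pb_isolated

set_option autoImplicit false


namespace Pool.Agent.Helper96.Tau.P_explore

open Pool.Agent.Helper96.Tau
open scoped Classical

noncomputable section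
































theorem join_symm' {V : Type} (r : Setoid V) (a b : V) : join r a b = join r b a := by
  apply Setoid.ext
  intro x y
  show (r x y ∨ (r x a ∧ r b y) ∨ (r x b ∧ r a y)) ↔ (r x y ∨ (r x b ∧ r a y) ∨ (r x a ∧ r b y))
  tauto

theorem wt_nonneg' {V : Type} (θ : ℝ) (hθ0 : 0 ≤ θ) (D : V → ℕ) (r : Setoid V) (u : V) (f : V × V) :
    0 ≤ wt θ D r u f := by
  unfold wt
  refine add_nonneg ?_ ?_
  · split_ifs
    · positivity
    · exact le_rfl
  · split_ifs
    · positivity
    · exact le_rfl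

theorem sum_wt_nonneg' {V : Type} (θ : ℝ) (hθ0 : 0 ≤ θ) (D : V → ℕ) (r : Setoid V) (u : V)
    (L : List (V × V)) : 0 ≤ (L.map (wt θ D r u)).sum := by
  apply List.sum_nonneg
  intro x hx
  rw [List.mem_map] at hx
  obtain ⟨f, _, rfl⟩ := hx
  exact wt_nonneg' θ hθ0 D r u f

theorem X_key' {V : Type} (θ : ℝ) (D : V → ℕ) (hθ0 : 0 ≤ θ) (hθ1 : θ ≤ 1) (u y : V) (r r' : Setoid V)
    (hr' : ∀ z, r' u z → r u z ∨ z = y) (f : V × V) (h1 : f.1 ≠ f.2)
    (h2 : D f.1 ≤ D f.2 + 1 ∧ D f.2 ≤ D f.1 + 1) :
    wt θ D r' u f ≤ wt θ D r u f + (if (f.1 = y ∨ f.2 = y) then θ ^ (D y - 1) else 0) := by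
  have hA : f.1 ≠ y → (if r' u f.1 then θ ^ D f.2 else 0) ≤ (if r u f.1 then θ ^ D f.2 else 0) := by
    intro hne
    by_cases h : r' u f.1
    · have h' : r u f.1 := by
        rcases hr' _ h with h'' | h''
        · exact h''
        · exact absurd h'' hne
      rw [if_pos h, if_pos h']
    · rw [if_neg h]
      split_ifs
      · positivity
      · exact le_rfl
  have hB : f.2 ≠ y → (if r' u f.2 then θ ^ D f.1 else 0) ≤ (if r u f.2 then θ ^ D f.1 else 0) := by
    intro hne
    by_cases h : r' u f.2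
    · have h' : r u f.2 := by
        rcases hr' _ h with h'' | h''
        · exact h''
        · exact absurd h'' hne
      rw [if_pos h, if_pos h']
    · rw [if_neg h]
      split_ifs
      · positivity
      · exact le_rfl
  have hA0 : 0 ≤ (if r u f.1 then θ ^ D f.2 else 0) := by
    split_ifs
    · positivity
    · exact le_rfl
  have hB0 : 0 ≤ (if r u f.2 then θ ^ D f.1 else 0) := by
    split_ifs
    · positivity
    · exact le_rfl
  unfold wt
  by_cases hy1 : f.1 = y
  · have hy2 : f.2 ≠ y := fun h => h1 (hy1.trans h.symm)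
    rw [if_pos (Or.inl hy1)]
    have hA' : (if r' u f.1 then θ ^ D f.2 else 0) ≤ θ ^ (D y - 1) := by
      have hle : θ ^ D f.2 ≤ θ ^ (D y - 1) := by
        apply pow_le_pow_of_le_one hθ0 hθ1
        rw [← hy1]
        omega
      split_ifs
      · exact hle
      · positivity
    have := hB hy2
    linarith
  · by_cases hy2 : f.2 = y
    · rw [if_pos (Or.inr hy2)]
      have hB' : (if r' u f.2 then θ ^ D f.1 else 0) ≤ θ ^ (D y - 1) := by
        have hle : θ ^ D f.1 ≤ θ ^ (D y - 1) := by
          apply pow_le_pow_of_le_one hθ0 hθ1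
          rw [← hy2]
          omega
        split_ifs
        · exact hle
        · positivity
      have := hA hy1
      linarith
    · rw [if_neg (show ¬ (f.1 = y ∨ f.2 = y) from fun h => h.elim hy1 hy2)]
      have := hA hy1
      have := hB hy2
      linarith

theorem X_bound' {V : Type} (θ : ℝ) (D : V → ℕ) (hθ0 : 0 ≤ θ) (hθ1 : θ ≤ 1) (u y : V)
    (r r' : Setoid V) (hr' : ∀ z, r' u z → r u z ∨ z = y)
    (L' : List (V × V)) (hL1 : ∀ f ∈ L', f.1 ≠ f.2)
    (hL2 : ∀ f ∈ L', D f.1 ≤ D f.2 + 1 ∧ D f.2 ≤ D f.1 + 1) :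
    (L'.map (wt θ D r' u)).sum ≤ (L'.map (wt θ D r u)).sum +
      ((L'.filter (fun f => decide (f.1 = y ∨ f.2 = y))).length : ℝ) * θ ^ (D y - 1) := by
  induction L' with
  | nil => simp
  | cons f L' ih =>
    have ih' := ih (fun g hg => hL1 g (List.mem_cons_of_mem _ hg))
      (fun g hg => hL2 g (List.mem_cons_of_mem _ hg))
    have key := X_key' θ D hθ0 hθ1 u y r r' hr' f (hL1 f List.mem_cons_self)
      (hL2 f List.mem_cons_self)
    rw [List.map_cons, List.map_cons, List.sum_cons, List.sum_cons]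
    by_cases h : f.1 = y ∨ f.2 = y
    · rw [if_pos h] at key
      rw [List.filter_cons_of_pos (by simpa using h), List.length_cons]
      push_cast
      linarith
    · rw [if_neg h] at key
      rw [List.filter_cons_of_neg (by simpa using h)]
      linarith

theorem explore_step' {V : Type} [Finite V] (m θ : ℝ) (d : ℕ) (D : V → ℕ) (u v : V) (hm : 0 < m)
    (hθ0 : 0 ≤ θ) (hθ1 : θ ≤ 1) (hd : (d : ℝ) - 1 ≤ (m + 1) * θ) (hDv : D v = 0)
    (L' : List (V × V)) (x y : V)
    (hL1 : ∀ f ∈ L', f.1 ≠ f.2)
    (hL2 : ∀ f ∈ L', D f.1 ≤ D f.2 + 1 ∧ D f.2 ≤ D f.1 + 1)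
    (hcount : (L'.filter (fun f => decide (f.1 = y ∨ f.2 = y))).length + 1 ≤ d)
    (r : Setoid V) (hr : ∀ x y, r x y → x = y ∨ (r u x ∧ r u y)) (huv : ¬ r u v)
    (hux : r u x) (huy : ¬ r u y)
    (IH : ∀ r : Setoid V, (∀ x y, r x y → x = y ∨ (r u x ∧ r u y)) → ¬ r u v →
      (1 - (L'.map (wt θ D r u)).sum) * Pb m L' r ≤ m * Pb m L' (join r u v)) :
    (1 - (θ ^ D y + (L'.map (wt θ D r u)).sum)) * (Pb m L' r + Pb m L' (join r x y)) ≤
      m * (if (join r u v) x y then 0 else
        Pb m L' (join r u v) + Pb m L' (join (join r u v) x y)) := by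
  have hP1 := Pb_nonneg m hm.le L' r
  have hP2 := Pb_nonneg m hm.le L' (join r x y)
  have hS1 := sum_wt_nonneg' θ hθ0 D r u L'
  have hxy : ¬ r x y := fun h => huy (r.trans hux h)
  by_cases hyv : y = v
  · subst hyv
    rw [hDv, pow_zero]
    have h1 : (1 - (1 + (L'.map (wt θ D r u)).sum)) * (Pb m L' r + Pb m L' (join r x y)) ≤ 0 := by
      nlinarith
    refine h1.trans ?_
    apply mul_nonneg hm.le
    split_ifs
    · exact le_rfl
    · exact add_nonneg (Pb_nonneg m hm.le _ _) (Pb_nonneg m hm.le _ _)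
  · have hnj : ¬ (join r u v) x y := by
      rintro (h | ⟨_, h⟩ | ⟨_, h⟩)
      · exact hxy h
      · rcases hr _ _ h with h' | ⟨h', _⟩
        · exact hyv h'.symm
        · exact huv h'
      · exact huy h
    rw [if_neg hnj, join_comm r u v x y]
    have hr'u : ∀ z, (join r x y) u z → r u z ∨ z = y := by
      rintro z (h | ⟨_, h⟩ | ⟨h, _⟩)
      · exact Or.inl h
      · rcases hr _ _ h with h' | ⟨h', _⟩
        · exact Or.inr h'.symm
        · exact absurd h' huy
      · exact absurd h huy
    have hsub : ∀ a b, r a b → (join r x y) a b := fun a b h => Or.inl h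
    have huy' : (join r x y) u y := Or.inr (Or.inl ⟨hux, r.refl y⟩)
    have hr' : ∀ a b, (join r x y) a b → a = b ∨ ((join r x y) u a ∧ (join r x y) u b) := by
      rintro a b (h | ⟨h1, h2⟩ | ⟨h1, h2⟩)
      · rcases hr _ _ h with h' | ⟨h', h''⟩
        · exact Or.inl h'
        · exact Or.inr ⟨hsub _ _ h', hsub _ _ h''⟩
      · exact Or.inr ⟨hsub _ _ (r.trans hux (r.symm h1)),
          (join r x y).trans huy' (hsub _ _ h2)⟩
      · exact Or.inr ⟨(join r x y).trans huy' (hsub _ _ (r.symm h1)),
          hsub _ _ (r.trans hux h2)⟩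
    have huv' : ¬ (join r x y) u v := by
      intro h
      rcases hr'u v h with h' | h'
      · exact huv h'
      · exact hyv h'.symm
    have ih1 := IH r hr huv
    have ih2 := IH (join r x y) hr' huv'
    have hX := X_bound' θ D hθ0 hθ1 u y r (join r x y) hr'u L' hL1 hL2
    have hcorr := Pb_corr m hm L' r x y hxy
    have hcount' : ((L'.filter (fun f => decide (f.1 = y ∨ f.2 = y))).length : ℝ) ≤ (d : ℝ) - 1 := by
      have : (((L'.filter (fun f => decide (f.1 = y ∨ f.2 = y))).length + 1 : ℕ) : ℝ) ≤ (d : ℝ) := by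
        exact_mod_cast hcount
      push_cast at this
      linarith
    set c : ℝ := ((L'.filter (fun f => decide (f.1 = y ∨ f.2 = y))).length : ℝ) with hc
    have hc0 : 0 ≤ c := by rw [hc]; positivity
    have hXb : c * θ ^ (D y - 1) ≤ (m + 1) * θ ^ (D y) := by
      rcases Nat.eq_zero_or_pos (D y) with h0 | h0
      · rw [h0]
        simp only [Nat.zero_sub, pow_zero, mul_one]
        nlinarith
      · have h3 : θ ^ (D y) = θ * θ ^ (D y - 1) := by
          rw [← pow_succ']
          congr 1
          omega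
        have h4 : 0 ≤ θ ^ (D y - 1) := pow_nonneg hθ0 _
        rw [h3]
        have h5 : c ≤ (m + 1) * θ := by linarith
        nlinarith [mul_le_mul_of_nonneg_right h5 h4]
    set S1 : ℝ := (L'.map (wt θ D r u)).sum
    set S2 : ℝ := (L'.map (wt θ D (join r x y) u)).sum
    set P1 := Pb m L' r
    set P2 := Pb m L' (join r x y)
    set t := θ ^ D y
    have ht0 : 0 ≤ t := pow_nonneg hθ0 _
    have hS2 : S2 ≤ S1 + (m + 1) * t := by linarith
    have e1 : (1 - S2) * P2 ≥ (1 - S1 - (m + 1) * t) * P2 := by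
      have : 1 - S1 - (m + 1) * t ≤ 1 - S2 := by linarith
      exact mul_le_mul_of_nonneg_right this hP2
    have e2 : t * (m * P2) ≤ t * P1 := mul_le_mul_of_nonneg_left hcorr ht0
    rw [mul_add]
    nlinarith

theorem explore {V : Type} [Finite V] (m θ : ℝ) (d : ℕ) (D : V → ℕ) (u v : V) (hm : 0 < m)
    (hθ0 : 0 ≤ θ) (hθ1 : θ ≤ 1) (hd : (d : ℝ) - 1 ≤ (m + 1) * θ) (hDv : D v = 0)
    (L : List (V × V)) (hL1 : ∀ f ∈ L, f.1 ≠ f.2)
    (hL2 : ∀ f ∈ L, D f.1 ≤ D f.2 + 1 ∧ D f.2 ≤ D f.1 + 1)
    (hL3 : ∀ y, (L.filter (fun f => decide (f.1 = y ∨ f.2 = y))).length ≤ d)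
    (r : Setoid V) (hr : ∀ x y, r x y → x = y ∨ (r u x ∧ r u y)) (huv : ¬ r u v) :
    (1 - (L.map (wt θ D r u)).sum) * Pb m L r ≤ m * Pb m L (join r u v) := by
  induction hn : L.length generalizing L r with
  | zero =>
    have hL : L = [] := List.length_eq_zero_iff.mp hn
    subst hL
    have := Pb_isolated m ([] : List (V × V)) r u v huv (by simp)
    rw [← this]
    simp
  | succ n ih =>
    by_cases htouch : ∀ f ∈ L, ¬ r u f.1 ∧ ¬ r u f.2
    · rw [← Pb_isolated m L r u v huv htouch]
      have h1 := sum_wt_nonneg' θ hθ0 D r u L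
      have h2 := Pb_nonneg m hm.le L r
      nlinarith
    · push Not at htouch
      obtain ⟨f, hf, hft⟩ := htouch
      have hperm : L.Perm (f :: L.erase f) := List.perm_cons_erase hf
      have hlen : (L.erase f).length = n := by
        have := hperm.length_eq
        rw [List.length_cons] at this
        omega
      have hsub : ∀ g ∈ L.erase f, g ∈ L := fun g hg => List.mem_of_mem_erase hg
      have hcnt : ∀ y, ((f :: L.erase f).filter (fun f => decide (f.1 = y ∨ f.2 = y))).length ≤ d := by
        intro y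
        rw [← (hperm.filter (fun f => decide (f.1 = y ∨ f.2 = y))).length_eq]
        exact hL3 y
      have hcnt' : ∀ y, ((L.erase f).filter (fun f => decide (f.1 = y ∨ f.2 = y))).length ≤ d := by
        intro y
        refine le_trans ?_ (hcnt y)
        exact ((List.sublist_cons_self f (L.erase f)).filter _).length_le
      have hcnt1 : ∀ y, (f.1 = y ∨ f.2 = y) →
          ((L.erase f).filter (fun f => decide (f.1 = y ∨ f.2 = y))).length + 1 ≤ d := by
        intro y hy
        have := hcnt y
        rw [List.filter_cons_of_pos (by simpa using hy), List.length_cons] at this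
        exact this
      have IH : ∀ r : Setoid V, (∀ x y, r x y → x = y ∨ (r u x ∧ r u y)) → ¬ r u v →
          (1 - ((L.erase f).map (wt θ D r u)).sum) * Pb m (L.erase f) r ≤
            m * Pb m (L.erase f) (join r u v) := by
        intro r' h1 h2
        exact ih (L.erase f) (fun g hg => hL1 g (hsub g hg)) (fun g hg => hL2 g (hsub g hg))
          hcnt' r' h1 h2 hlen
      rw [Pb_perm m L _ hperm r, Pb_perm m L _ hperm (join r u v),
        (hperm.map (wt θ D r u)).sum_eq, List.map_cons, List.sum_cons]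
      by_cases h1 : r u f.1
      · by_cases h2 : r u f.2
        · have h3 : r f.1 f.2 := r.trans (r.symm h1) h2
          have h4 : Pb m (f :: L.erase f) r = 0 := by
            show (if r f.1 f.2 then 0 else _) = _
            rw [if_pos h3]
          rw [h4, mul_zero]
          exact mul_nonneg hm.le (Pb_nonneg m hm.le _ _)
        · have h3 : ¬ r f.1 f.2 := fun h => h2 (r.trans h1 h)
          have h4 : Pb m (f :: L.erase f) r = Pb m (L.erase f) r + Pb m (L.erase f) (join r f.1 f.2) := by
            show (if r f.1 f.2 then 0 else _) = _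
            rw [if_neg h3]
          have h5 : wt θ D r u f = θ ^ D f.2 := by
            unfold wt
            rw [if_pos h1, if_neg h2, add_zero]
          rw [h4, h5]
          exact explore_step' m θ d D u v hm hθ0 hθ1 hd hDv (L.erase f) f.1 f.2
            (fun g hg => hL1 g (hsub g hg)) (fun g hg => hL2 g (hsub g hg))
            (hcnt1 f.2 (Or.inr rfl)) r hr huv h1 h2 IH
      · have h2 : r u f.2 := hft h1
        have h3 : ¬ r f.1 f.2 := fun h => h1 (r.trans h2 (r.symm h))
        have h4 : Pb m (f :: L.erase f) r = Pb m (L.erase f) r + Pb m (L.erase f) (join r f.2 f.1) := by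
          show (if r f.1 f.2 then 0 else _) = _
          rw [if_neg h3, join_symm' r f.1 f.2]
        have h5 : wt θ D r u f = θ ^ D f.1 := by
          unfold wt
          rw [if_pos h2, if_neg h1, zero_add]
        have h6 : Pb m (f :: L.erase f) (join r u v) = (if (join r u v) f.2 f.1 then 0 else
            Pb m (L.erase f) (join r u v) + Pb m (L.erase f) (join (join r u v) f.2 f.1)) := by
          show (if (join r u v) f.1 f.2 then 0 else _) = _
          rw [join_symm' (join r u v) f.1 f.2]
          by_cases h7 : (join r u v) f.1 f.2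
          · rw [if_pos h7, if_pos ((join r u v).symm h7)]
          · rw [if_neg h7, if_neg (fun h => h7 ((join r u v).symm h))]
        rw [h4, h5, h6]
        exact explore_step' m θ d D u v hm hθ0 hθ1 hd hDv (L.erase f) f.2 f.1
          (fun g hg => hL1 g (hsub g hg)) (fun g hg => hL2 g (hsub g hg))
          (hcnt1 f.1 (Or.inl rfl)) r hr huv h2 h1 IH


end

end Pool.Agent.Helper96.Tau.P_explore

namespace Pool.Agent.Helper96.Tau

alias explore := P_explore.explore

end Pool.Agent.Helper96.Tau
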