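import Pool.Agent.Helper96.Tau.Defs

set_option autoImplicit false


namespace Pool.Agent.Helper96.Tau.P_kk_bot

open Pool.Agent.Helper96.Tau
open scoped Classical

noncomputable section






theorem kk_bot {V : Type} [Fintype V] : kk (⊥ : Setoid V) = Fintype.card V := by
  have hbij : Function.Bijective (Quotient.mk (⊥ : Setoid V)) := by
    constructor
    · intro x y h
      exact Quotient.exact h
    · exact Quotient.mk_surjective
  unfold kk
  rw [← Nat.card_congr (Equiv.ofBijective _ hbij), Nat.card_eq_fintype_card]



end

end Pool.Agent.Helper96.Tau.P_kk_bot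

namespace Pool.Agent.Helper96.Tau

alias kk_bot := P_kk_bot.kk_bot

end Pool.Agent.Helper96.Tau
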