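import Pool.Agent.Helper96.Tau.Defs
import Pool.Agent.Helper96.Tau.P_explore
import Pool.Agent.Helper96.Tau.P_kk_bot
import Pool.Agent.Helper96.Tau.P_Pb_nonneg
import Pool.Agent.Helper96.Tau.P_Pb_pos
import Pool.Agent.Helper96.Tau.P_Pb_perm

set_option autoImplicit false


namespace Pool.Agent.Helper96.Tau.P_Pb_lower

open Pool.Agent.Helper96.Tau
open scoped Classical

noncomputable section























theorem Pb_lower_touch {V ι : Type} [Fintype ι] (ends : ι → V × V) (d : ℕ)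
    (hdeg : DegLE ends d) (l : List ι) (hl : l.Nodup) (y : V) :
    ((l.map ends).filter (fun f => decide (f.1 = y ∨ f.2 = y))).length ≤ d := by
  rw [List.filter_map, List.length_map]
  refine le_trans ?_ (hdeg y)
  have hnd : (l.filter ((fun f => decide (f.1 = y ∨ f.2 = y)) ∘ ends)).Nodup := hl.filter _
  rw [← List.toFinset_card_of_nodup hnd, Nat.card_eq_fintype_card, Fintype.card_subtype]
  apply Finset.card_le_card
  intro i hi
  rw [List.mem_toFinset, List.mem_filter] at hi
  rw [Finset.mem_filter]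
  exact ⟨Finset.mem_univ _, by simpa using hi.2⟩

theorem Pb_lower_sum {V : Type} (L : List (V × V)) (w : V × V → ℝ) (p : V × V → Bool) (t : ℝ)
    (h : ∀ f ∈ L, w f ≤ if p f then t else 0) :
    (L.map w).sum ≤ ((L.filter p).length : ℝ) * t := by
  induction L with
  | nil => simp
  | cons f L ih =>
    have h1 := ih fun f hf => h f (List.mem_cons_of_mem _ hf)
    have h2 := h f List.mem_cons_self
    rw [List.map_cons, List.sum_cons]
    by_cases hp : p f = true
    · rw [if_pos hp] at h2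
      rw [List.filter_cons_of_pos hp, List.length_cons]
      push_cast
      linarith
    · rw [if_neg hp] at h2
      rw [List.filter_cons_of_neg hp]
      linarith

theorem Pb_lower_ne {V ι : Type} (ends : ι → V × V) (g : ℕ) (hg : HasGirth ends g) (hg1 : 1 ≤ g)
    (i : ι) : (ends i).1 ≠ (ends i).2 := by
  obtain ⟨D, h1, h2, -⟩ := hg i
  intro h
  rw [h, h1] at h2
  omega

theorem Pb_lower_list {V ι : Type} [Fintype V] [Fintype ι] (ends : ι → V × V) (d g : ℕ) (m θ : ℝ)
    (hm : 0 < m) (hθ0 : 0 ≤ θ) (hθ1 : θ ≤ 1) (hd : (d : ℝ) - 1 ≤ (m + 1) * θ)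
    (hg : HasGirth ends g) (hg1 : 1 ≤ g) (hdeg : DegLE ends d) (hε : (d : ℝ) * θ ^ (g - 1) ≤ 1)
    (l : List ι) (hl : l.Nodup) :
    m ^ Fintype.card V * (1 + (1 - (d : ℝ) * θ ^ (g - 1)) / m) ^ l.length ≤
      Pb m (l.map ends) (⊥ : Setoid V) := by
  induction l with
  | nil =>
    rw [List.length_nil, pow_zero, mul_one, List.map_nil]
    show m ^ Fintype.card V ≤ m ^ kk (⊥ : Setoid V)
    rw [kk_bot]
  | cons i l ih =>
    rw [List.nodup_cons] at hl
    have ih' := ih hl.2
    obtain ⟨D, hD1, hD2, hD3⟩ := hg i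
    have hne : ¬ (⊥ : Setoid V) (ends i).1 (ends i).2 := fun h => Pb_lower_ne ends g hg hg1 i h
    have hLip : ∀ f ∈ l.map ends, D f.1 ≤ D f.2 + 1 ∧ D f.2 ≤ D f.1 + 1 := by
      intro f hf
      obtain ⟨j, hj, rfl⟩ := List.mem_map.mp hf
      exact hD3 j fun h => hl.1 (h ▸ hj)
    have hloop : ∀ f ∈ l.map ends, f.1 ≠ f.2 := by
      intro f hf
      obtain ⟨j, hj, rfl⟩ := List.mem_map.mp hf
      exact Pb_lower_ne ends g hg hg1 j
    have hex := explore m θ d D (ends i).1 (ends i).2 hm hθ0 hθ1 hd hD1 (l.map ends) hloop hLip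
      (fun y => Pb_lower_touch ends d hdeg l hl.2 y) (⊥ : Setoid V)
      (fun x y h => Or.inl h) hne
    have ht0 : 0 ≤ θ ^ (g - 1) := pow_nonneg hθ0 _
    have hS : ((l.map ends).map (wt θ D (⊥ : Setoid V) (ends i).1)).sum ≤ (d : ℝ) * θ ^ (g - 1) := by
      refine (Pb_lower_sum (l.map ends) (wt θ D (⊥ : Setoid V) (ends i).1)
        (fun f => decide (f.1 = (ends i).1 ∨ f.2 = (ends i).1)) (θ ^ (g - 1)) ?_).trans ?_
      · intro f hf
        have h1 := hLip f hf
        have h2 := hloop f hf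
        have e1 : ((⊥ : Setoid V) (ends i).1 f.1) ↔ f.1 = (ends i).1 := ⟨fun h => h.symm, fun h => h.symm⟩
        have e2 : ((⊥ : Setoid V) (ends i).1 f.2) ↔ f.2 = (ends i).1 := ⟨fun h => h.symm, fun h => h.symm⟩
        unfold wt
        by_cases ha : f.1 = (ends i).1
        · have hb : f.2 ≠ (ends i).1 := fun h => h2 (ha.trans h.symm)
          rw [if_pos (e1.mpr ha), if_neg (fun h => hb (e2.mp h)), add_zero,
            if_pos (by simp [ha])]
          apply pow_le_pow_of_le_one hθ0 hθ1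
          rw [ha] at h1
          omega
        · rw [if_neg (fun h => ha (e1.mp h)), zero_add]
          by_cases hb : f.2 = (ends i).1
          · rw [if_pos (e2.mpr hb), if_pos (by simp [hb])]
            apply pow_le_pow_of_le_one hθ0 hθ1
            rw [hb] at h1
            omega
          · rw [if_neg (fun h => hb (e2.mp h)), if_neg (by simp [ha, hb])]
      · refine mul_le_mul_of_nonneg_right ?_ ht0
        exact_mod_cast Pb_lower_touch ends d hdeg l hl.2 (ends i).1
    have hP0 := Pb_nonneg m hm.le (l.map ends) (⊥ : Setoid V)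
    have hstep : Pb m ((i :: l).map ends) (⊥ : Setoid V) = Pb m (l.map ends) (⊥ : Setoid V) +
        Pb m (l.map ends) (join (⊥ : Setoid V) (ends i).1 (ends i).2) := by
      rw [List.map_cons, Pb, if_neg hne]
    rw [hstep, List.length_cons, pow_succ, ← mul_assoc]
    have h3 : (1 - (d : ℝ) * θ ^ (g - 1)) / m * Pb m (l.map ends) (⊥ : Setoid V) ≤
        Pb m (l.map ends) (join (⊥ : Setoid V) (ends i).1 (ends i).2) := by
      rw [div_mul_eq_mul_div, div_le_iff₀ hm]
      have h4 : (1 - (d : ℝ) * θ ^ (g - 1)) * Pb m (l.map ends) (⊥ : Setoid V) ≤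
          (1 - ((l.map ends).map (wt θ D (⊥ : Setoid V) (ends i).1)).sum) *
            Pb m (l.map ends) (⊥ : Setoid V) :=
        mul_le_mul_of_nonneg_right (by linarith) hP0
      linarith
    have h5 : 0 ≤ (1 - (d : ℝ) * θ ^ (g - 1)) / m := div_nonneg (by linarith) hm.le
    calc m ^ Fintype.card V * (1 + (1 - (d : ℝ) * θ ^ (g - 1)) / m) ^ l.length *
          (1 + (1 - (d : ℝ) * θ ^ (g - 1)) / m)
        ≤ Pb m (l.map ends) (⊥ : Setoid V) * (1 + (1 - (d : ℝ) * θ ^ (g - 1)) / m) :=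
          mul_le_mul_of_nonneg_right ih' (by linarith)
      _ ≤ _ := by linarith

theorem Pb_lower {V ι : Type} [Fintype V] [Fintype ι] (ends : ι → V × V) (d g : ℕ) (m θ : ℝ)
    (hm : 0 < m) (hθ0 : 0 ≤ θ) (hθ1 : θ ≤ 1) (hd : (d : ℝ) - 1 ≤ (m + 1) * θ)
    (hg : HasGirth ends g) (hg1 : 1 ≤ g) (hdeg : DegLE ends d) (hε : (d : ℝ) * θ ^ (g - 1) ≤ 1) :
    m ^ Fintype.card V * (1 + (1 - (d : ℝ) * θ ^ (g - 1)) / m) ^ Fintype.card ι ≤ PbG m ends := by
  have h := Pb_lower_list ends d g m θ hm hθ0 hθ1 hd hg hg1 hdeg hε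
    (Finset.univ : Finset ι).toList (Finset.nodup_toList _)
  rw [Finset.length_toList, Finset.card_univ] at h
  exact h


end

end Pool.Agent.Helper96.Tau.P_Pb_lower

namespace Pool.Agent.Helper96.Tau

alias Pb_lower := P_Pb_lower.Pb_lower

end Pool.Agent.Helper96.Tau
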