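import Pool.Agent.Helper96.Tau.Defs

set_option autoImplicit false


namespace Pool.Agent.Helper96.Tau.P_asc_basis

open Pool.Agent.Helper96.Tau
open scoped Classical

noncomputable section






theorem j24655_basis (p : ℕ) : ∀ (P : Polynomial ℤ), P.natDegree ≤ p → ∃ c : ℕ → ℤ,
    P = ∑ i ∈ Finset.range (p + 1), Polynomial.C (c i) * ascPochhammer ℤ i := by
  induction p with
  | zero =>
    intro P hP
    refine ⟨fun _ => P.coeff 0, ?_⟩
    rw [zero_add, Finset.sum_range_one, ascPochhammer_zero, mul_one]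
    exact Polynomial.eq_C_of_natDegree_le_zero hP
  | succ p ih =>
    intro P hP
    have hdeg : (ascPochhammer ℤ (p + 1)).natDegree = p + 1 := by
      rw [ascPochhammer_natDegree]
    have hmon : (ascPochhammer ℤ (p + 1)).coeff (p + 1) = 1 := by
      have := (monic_ascPochhammer ℤ (p + 1)).coeff_natDegree
      rwa [hdeg] at this
    have hQ : (P - Polynomial.C (P.coeff (p + 1)) * ascPochhammer ℤ (p + 1)).natDegree ≤ p := by
      rw [Polynomial.natDegree_le_iff_coeff_eq_zero]
      intro N hN
      rw [Polynomial.coeff_sub, Polynomial.coeff_C_mul]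
      rcases Nat.lt_or_ge (p + 1) N with h | h
      · rw [Polynomial.coeff_eq_zero_of_natDegree_lt (lt_of_le_of_lt hP h),
          Polynomial.coeff_eq_zero_of_natDegree_lt (lt_of_le_of_lt hdeg.le h)]
        simp
      · have hNe : N = p + 1 := by omega
        rw [hNe, hmon]
        simp
    obtain ⟨c, hc⟩ := ih _ hQ
    refine ⟨fun i => if i = p + 1 then P.coeff (p + 1) else c i, ?_⟩
    rw [Finset.sum_range_succ]
    simp only [if_true]
    have h2 : ∑ i ∈ Finset.range (p + 1), Polynomial.C (if i = p + 1 then P.coeff (p + 1) else c i) *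
        ascPochhammer ℤ i = ∑ i ∈ Finset.range (p + 1), Polynomial.C (c i) * ascPochhammer ℤ i := by
      apply Finset.sum_congr rfl
      intro i hi
      rw [Finset.mem_range] at hi
      rw [if_neg (by omega)]
    rw [h2, ← hc]
    abel

theorem asc_basis (p : ℕ) (P : Polynomial ℤ) (hP : P.natDegree ≤ p) : ∃ c : ℕ → ℤ,
    P = ∑ i ∈ Finset.range (p + 1), Polynomial.C ((-1 : ℤ) ^ (p - i) * c i) * ascPochhammer ℤ i := by
  obtain ⟨c, hc⟩ := j24655_basis p P hP
  refine ⟨fun i => (-1) ^ (p - i) * c i, ?_⟩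
  rw [hc]
  apply Finset.sum_congr rfl
  intro i _
  congr 2
  rw [← mul_assoc, ← mul_pow]
  simp


end

end Pool.Agent.Helper96.Tau.P_asc_basis

namespace Pool.Agent.Helper96.Tau

alias asc_basis := P_asc_basis.asc_basis

end Pool.Agent.Helper96.Tau
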