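import Pool.Agent.Helper96.Tau.Defs

set_option autoImplicit false


namespace Pool.Agent.Helper96.Tau.P_asc_neg

open Pool.Agent.Helper96.Tau
open scoped Classical

noncomputable section






theorem asc_neg (m i : ℕ) : (ascPochhammer ℤ i).eval (-(m : ℤ)) = (-1) ^ i * (m.descFactorial i : ℤ) := by
  rw [ascPochhammer_eval_neg_eq_descPochhammer, descPochhammer_eval_eq_descFactorial]


end

end Pool.Agent.Helper96.Tau.P_asc_neg

namespace Pool.Agent.Helper96.Tau

alias asc_neg := P_asc_neg.asc_neg

end Pool.Agent.Helper96.Tau
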