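import Pool.Agent.Helper96.Tau.Defs

set_option autoImplicit false


namespace Pool.Agent.Helper96.Tau.P_fiber_count

open Pool.Agent.Helper96.Tau
open scoped Classical

noncomputable section






def fiber_count_e (d z a : ℕ) : Fin (z + d * a) ≃ Fin z ⊕ (Fin d × Fin a) :=
  finSumFinEquiv.symm.trans (Equiv.sumCongr (Equiv.refl _) finProdFinEquiv.symm)

def fiber_count_g (d z a : ℕ) : Fin z ⊕ (Fin d × Fin a) → Option (Fin d) :=
  Sum.elim (fun _ => none) (fun p => some p.1)

def fiber_count_f0 (d z a : ℕ) : Fin (z + d * a) → Option (Fin d) :=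
  fun j => fiber_count_g d z a (fiber_count_e d z a j)

theorem fiber_count_none (d z a : ℕ) : Nat.card {j // fiber_count_f0 d z a j = none} = z := by
  have e1 : {j // fiber_count_f0 d z a j = none} ≃ {s // fiber_count_g d z a s = none} :=
    (fiber_count_e d z a).subtypeEquiv (fun j => Iff.rfl)
  have e2 : {s // fiber_count_g d z a s = none} ≃ Fin z :=
    { toFun := fun s => match s with
        | ⟨Sum.inl i, _⟩ => i
        | ⟨Sum.inr p, h⟩ => absurd h (by simp [fiber_count_g])
      invFun := fun i => ⟨Sum.inl i, rfl⟩
      left_inv := by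
        rintro ⟨i | p, h⟩
        · rfl
        · exact absurd h (by simp [fiber_count_g])
      right_inv := fun i => rfl }
  rw [Nat.card_congr (e1.trans e2), Nat.card_eq_fintype_card, Fintype.card_fin]

theorem fiber_count_some (d z a : ℕ) (c : Fin d) : Nat.card {j // fiber_count_f0 d z a j = some c} = a := by
  have e1 : {j // fiber_count_f0 d z a j = some c} ≃ {s // fiber_count_g d z a s = some c} :=
    (fiber_count_e d z a).subtypeEquiv (fun j => Iff.rfl)
  have e2 : {s // fiber_count_g d z a s = some c} ≃ Fin a :=
    { toFun := fun s => match s with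
        | ⟨Sum.inl i, h⟩ => absurd h (by simp [fiber_count_g])
        | ⟨Sum.inr p, _⟩ => p.2
      invFun := fun i => ⟨Sum.inr (c, i), rfl⟩
      left_inv := by
        rintro ⟨i | p, h⟩
        · exact absurd h (by simp [fiber_count_g])
        · have : p.1 = c := by simpa [fiber_count_g] using h
          subst this
          rfl
      right_inv := fun i => rfl }
  rw [Nat.card_congr (e1.trans e2), Nat.card_eq_fintype_card, Fintype.card_fin]

theorem fiber_count (d z a : ℕ) :
    (z + d * a).factorial ≤ z.factorial * a.factorial ^ d *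
      Nat.card {f : Fin (z + d * a) → Option (Fin d) // Nat.card {j // f j = none} = z ∧
        ∀ c : Fin d, Nat.card {j // f j = some c} = a} := by
  
  set f0 := fiber_count_f0 d z a with hf0
  set Φ : Equiv.Perm (Fin (z + d * a)) → (Fin (z + d * a) → Option (Fin d)) := fun σ => f0 ∘ σ with hΦ
  have hstab : Fintype.card {g : Equiv.Perm (Fin (z + d * a)) // f0 ∘ g = f0} = z.factorial * a.factorial ^ d := by
    rw [DomMulAct.stabilizer_card, Fintype.prod_option]
    have h1 := fiber_count_none d z a
    rw [Nat.card_eq_fintype_card] at h1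
    have h2 : ∀ c, Fintype.card {j // f0 j = some c} = a := by
      intro c
      have := fiber_count_some d z a c
      rw [Nat.card_eq_fintype_card] at this
      convert this
    have h1' : Fintype.card {j // f0 j = none} = z := by convert h1
    simp only [h1', h2, Finset.prod_const, Finset.card_univ, Fintype.card_fin]
  have hfib : ∀ f ∈ Finset.univ.image Φ,
      (Finset.univ.filter (fun σ => Φ σ = f)).card ≤ z.factorial * a.factorial ^ d := by
    intro f hf
    obtain ⟨τ, -, rfl⟩ := Finset.mem_image.1 hf
    rw [← hstab, Fintype.card_subtype]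
    apply Finset.card_le_card_of_injOn (fun σ => σ * τ⁻¹)
    · intro σ hσ
      have h1 : Φ σ = Φ τ := by simpa using hσ
      simp only [Finset.coe_filter, Finset.mem_univ, true_and, Set.mem_setOf_eq]
      funext j
      have h2 := congrFun h1 (τ⁻¹ j)
      simp only [hΦ, Function.comp] at h2
      simp only [Function.comp, Equiv.Perm.mul_apply]
      rw [h2]
      simp
    · intro σ _ σ' _ h
      exact mul_right_cancel h
  have h1 := Finset.card_le_mul_card_image (Finset.univ : Finset (Equiv.Perm (Fin (z + d * a)))) _ hfib
  rw [Finset.card_univ, Fintype.card_perm, Fintype.card_fin] at h1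
  refine h1.trans (Nat.mul_le_mul_left _ ?_)
  rw [Nat.card_eq_fintype_card, Fintype.card_subtype]
  apply Finset.card_le_card
  intro f hf
  obtain ⟨τ, -, rfl⟩ := Finset.mem_image.1 hf
  rw [Finset.mem_filter]
  refine ⟨Finset.mem_univ _, ?_, ?_⟩
  · have e : {j // Φ τ j = none} ≃ {j // f0 j = none} := τ.subtypeEquiv (fun j => Iff.rfl)
    rw [Nat.card_congr e]
    exact fiber_count_none d z a
  · intro c
    have e : {j // Φ τ j = some c} ≃ {j // f0 j = some c} := τ.subtypeEquiv (fun j => Iff.rfl)
    rw [Nat.card_congr e]
    exact fiber_count_some d z a c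



end

end Pool.Agent.Helper96.Tau.P_fiber_count

namespace Pool.Agent.Helper96.Tau

alias fiber_count := P_fiber_count.fiber_count

end Pool.Agent.Helper96.Tau
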