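import Pool.Agent.Helper96.Tau.Defs
import Pool.Agent.Helper96.Tau.P_fiber_count

set_option autoImplicit false


namespace Pool.Agent.Helper96.Tau.P_bal_count

open Pool.Agent.Helper96.Tau
open scoped Classical

noncomputable section











theorem bal_count (Γ : Type) [Fintype Γ] (d z a : ℕ) :
    ((z + d * a).factorial) ^ (2 * Fintype.card Γ) ≤
      (z.factorial * a.factorial ^ d) ^ (2 * Fintype.card Γ) *
      Nat.card {f : Bool × Γ × Fin (z + d * a) → Option (Fin d) // Bal z a f} := by
  set F := {h : Fin (z + d * a) → Option (Fin d) // Nat.card {j // h j = none} = z ∧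
        ∀ c : Fin d, Nat.card {j // h j = some c} = a} with hF
  have e : {f : Bool × Γ × Fin (z + d * a) → Option (Fin d) // Bal z a f} ≃ ((Bool × Γ) → F) :=
    { toFun := fun f p => ⟨fun j => f.1 (p.1, p.2, j), f.2 p.1 p.2⟩
      invFun := fun g => ⟨fun q => (g (q.1, q.2.1)).1 q.2.2, fun b x => (g (b, x)).2⟩
      left_inv := fun f => rfl
      right_inv := fun g => rfl }
  have hcard : Nat.card {f : Bool × Γ × Fin (z + d * a) → Option (Fin d) // Bal z a f} =
      Nat.card F ^ (2 * Fintype.card Γ) := by
    rw [Nat.card_congr e, Nat.card_fun, Nat.card_eq_fintype_card (α := Bool × Γ), Fintype.card_prod,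
      Fintype.card_bool]
  rw [hcard, ← mul_pow]
  exact Nat.pow_le_pow_left (fiber_count d z a) _


end

end Pool.Agent.Helper96.Tau.P_bal_count

namespace Pool.Agent.Helper96.Tau

alias bal_count := P_bal_count.bal_count

end Pool.Agent.Helper96.Tau
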