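import Pool.Agent.Helper96.Tau.Defs

set_option autoImplicit false


namespace Pool.Agent.Helper96.Tau.P_biggs

open Pool.Agent.Helper96.Tau
open scoped Classical

noncomputable section






def h24651_act (d g : ℕ) (c : Fin d) (l : List (Fin d)) : List (Fin d) :=
  if l.head? = some c then l.tail else if l.length < g then c :: l else l

theorem h24651_mem (d g : ℕ) (c : Fin d) (l : List (Fin d))
    (h : l.IsChain (fun a b => a ≠ b) ∧ l.length ≤ g) :
    (h24651_act d g c l).IsChain (fun a b => a ≠ b) ∧ (h24651_act d g c l).length ≤ g := by
  unfold h24651_act
  split_ifs with h1 h2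
  · refine ⟨h.1.tail, ?_⟩
    rw [List.length_tail]
    omega
  · refine ⟨?_, by simpa using h2⟩
    cases l with
    | nil => exact List.isChain_singleton _
    | cons a t =>
      rw [List.isChain_cons_cons]
      refine ⟨?_, h.1⟩
      intro hca
      apply h1
      rw [hca]
      rfl
  · exact h

theorem h24651_inv (d g : ℕ) (c : Fin d) (l : List (Fin d))
    (h : l.IsChain (fun a b => a ≠ b) ∧ l.length ≤ g) :
    h24651_act d g c (h24651_act d g c l) = l := by
  by_cases h1 : l.head? = some c
  · cases l with
    | nil => simp at h1
    | cons a t =>
      have hac : a = c := by simpa using h1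
      subst hac
      have e1 : h24651_act d g a (a :: t) = t := by
        unfold h24651_act
        rw [if_pos h1]
        rfl
      rw [e1]
      have h2 : t.head? ≠ some a := by
        cases t with
        | nil => simp
        | cons b t' =>
          have := (List.isChain_cons_cons.mp h.1).1
          intro hb
          apply this
          have : b = a := by simpa using hb
          exact this.symm
      have h3 : t.length < g := by
        have := h.2
        simp at this
        omega
      unfold h24651_act
      rw [if_neg h2, if_pos h3]
  · by_cases h2 : l.length < g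
    · have e1 : h24651_act d g c l = c :: l := by
        unfold h24651_act
        rw [if_neg h1, if_pos h2]
      rw [e1]
      have h3 : (c :: l).head? = some c := rfl
      unfold h24651_act
      rw [if_pos h3]
      rfl
    · have e1 : h24651_act d g c l = l := by
        unfold h24651_act
        rw [if_neg h1, if_neg h2]
      rw [e1, e1]

theorem biggs (d g : ℕ) : ∃ (Γ : Type) (_ : Group Γ) (_ : Fintype Γ), ∃ s : Fin d → Γ,
    (∀ c, s c * s c = 1) ∧ ∀ w : List (Fin d), w ≠ [] → w.length ≤ g →
      w.IsChain (fun a b => a ≠ b) → (w.map s).prod ≠ 1 := by
  let B : Type := {l : List (Fin d) // l.IsChain (fun a b => a ≠ b) ∧ l.length ≤ g}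
  have hfin : Finite B := by
    have h1 : Finite {l : List (Fin d) | l.length ≤ g} := (List.finite_length_le (Fin d) g)
    exact Finite.of_injective (fun b : B => (⟨b.1, b.2.2⟩ : {l : List (Fin d) | l.length ≤ g}))
      (fun a b hab => by
        apply Subtype.ext
        exact congrArg (fun z => z.1) hab)
  let s : Fin d → Equiv.Perm B := fun c =>
    { toFun := fun b => ⟨h24651_act d g c b.1, h24651_mem d g c b.1 b.2⟩
      invFun := fun b => ⟨h24651_act d g c b.1, h24651_mem d g c b.1 b.2⟩
      left_inv := fun b => Subtype.ext (h24651_inv d g c b.1 b.2)
      right_inv := fun b => Subtype.ext (h24651_inv d g c b.1 b.2) }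
  refine ⟨Equiv.Perm B, inferInstance, Fintype.ofFinite _, s, ?_, ?_⟩
  · intro c
    apply Equiv.ext
    intro b
    apply Subtype.ext
    exact h24651_inv d g c b.1 b.2
  · intro w hw hlen hch hprod
    have key : ∀ w : List (Fin d), w.length ≤ g → w.IsChain (fun a b => a ≠ b) →
        ((w.map s).prod (⟨[], List.isChain_nil, Nat.zero_le g⟩ : B)).1 = w := by
      intro w
      induction w with
      | nil => intro _ _; rfl
      | cons c t ih =>
        intro h1 h2
        have h3 : t.length < g := by
          simp at h1
          omega
        have h4 := ih h3.le h2.tail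
        rw [List.map_cons, List.prod_cons, Equiv.Perm.mul_apply]
        show h24651_act d g c ((t.map s).prod (⟨[], List.isChain_nil, Nat.zero_le g⟩ : B)).1 = _
        rw [h4]
        unfold h24651_act
        rw [if_neg, if_pos h3]
        cases t with
        | nil => simp
        | cons b t' =>
          intro hb
          apply (List.isChain_cons_cons.mp h2).1
          have : b = c := by simpa using hb
          exact this.symm
    have h5 := key w hlen hch
    rw [hprod] at h5
    exact hw h5.symm


end

end Pool.Agent.Helper96.Tau.P_biggs

namespace Pool.Agent.Helper96.Tau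

alias biggs := P_biggs.biggs

end Pool.Agent.Helper96.Tau
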