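import Pool.Agent.Helper96.Tau.Defs
import Pool.Agent.Helper96.Tau.P_kk_join
import Pool.Agent.Helper96.Tau.P_join_of_rel

set_option autoImplicit false


namespace Pool.Agent.Helper96.Tau.P_chrom_poly

open Pool.Agent.Helper96.Tau
open scoped Classical

noncomputable section















theorem zresp_join {V W : Type} (r : Setoid V) (u v : V) (f : V → W) :
    (∀ x y, join r u v x y → f x = f y) ↔ (∀ x y, r x y → f x = f y) ∧ f u = f v := by
  constructor
  · intro h
    exact ⟨fun x y hxy => h x y (Or.inl hxy),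
      h u v (Or.inr (Or.inl ⟨r.refl u, r.refl v⟩))⟩
  · rintro ⟨h, huv⟩ x y (hxy | ⟨h1, h2⟩ | ⟨h1, h2⟩)
    · exact h x y hxy
    · rw [h x u h1, huv, h v y h2]
    · rw [h x v h1, ← huv, h u y h2]

theorem zcard_quot {V : Type} [Fintype V] (r : Setoid V) (n : ℕ) :
    Nat.card {f : V → Fin n // ∀ x y, r x y → f x = f y} = n ^ kk r := by
  have e : {f : V → Fin n // ∀ x y, r x y → f x = f y} ≃ (Quotient r → Fin n) :=
    { toFun := fun f => Quotient.lift f.1 f.2
      invFun := fun g => ⟨fun x => g (Quotient.mk r x), fun x y h =>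
        congrArg g (Quotient.sound h)⟩
      left_inv := fun f => by
        apply Subtype.ext
        funext x
        rfl
      right_inv := fun g => by
        funext q
        induction q using Quotient.inductionOn with
        | h x => rfl }
  rw [Nat.card_congr e, Nat.card_fun, Nat.card_fin]
  rfl

theorem chrom_poly {V : Type} [Fintype V] (L : List (V × V)) (r : Setoid V) : ∃ P : Polynomial ℤ,
    P.natDegree ≤ kk r ∧
    (∀ n : ℕ, (Nat.card {f : V → Fin n // (∀ x y, r x y → f x = f y) ∧ ∀ e ∈ L, f e.1 ≠ f e.2} : ℤ) =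
      P.eval (n : ℤ)) ∧
    ∀ m : ℝ, Polynomial.aeval (-m) P = (-1) ^ kk r * Pb m L r := by
  induction L generalizing r with
  | nil =>
    refine ⟨Polynomial.X ^ kk r, Polynomial.natDegree_X_pow_le _, fun n => ?_, fun m => ?_⟩
    · have e : {f : V → Fin n // (∀ x y, r x y → f x = f y) ∧
          ∀ e ∈ ([] : List (V × V)), f e.1 ≠ f e.2} ≃
          {f : V → Fin n // ∀ x y, r x y → f x = f y} :=
        Equiv.subtypeEquivRight fun f => by simp
      rw [Nat.card_congr e, zcard_quot]
      simp
    · rw [map_pow, Polynomial.aeval_X]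
      unfold Pb
      rw [neg_pow]
  | cons e L ih =>
    by_cases hr : r e.1 e.2
    · refine ⟨0, by simp, fun n => ?_, fun m => ?_⟩
      · haveI : IsEmpty {f : V → Fin n // (∀ x y, r x y → f x = f y) ∧
            ∀ e' ∈ e :: L, f e'.1 ≠ f e'.2} :=
          ⟨fun f => f.2.2 e List.mem_cons_self (f.2.1 _ _ hr)⟩
        rw [Nat.card_of_isEmpty]
        simp
      · rw [map_zero]
        unfold Pb
        rw [if_pos hr, mul_zero]
    · obtain ⟨P1, d1, c1, v1⟩ := ih r
      obtain ⟨P2, d2, c2, v2⟩ := ih (join r e.1 e.2)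
      have hk := kk_join r e.1 e.2 hr
      refine ⟨P1 - P2, ?_, fun n => ?_, fun m => ?_⟩
      · refine (Polynomial.natDegree_sub_le _ _).trans (max_le d1 (d2.trans (by omega)))
      · rw [Polynomial.eval_sub, ← c1, ← c2]
        have h1 : {f : V → Fin n | (∀ x y, r x y → f x = f y) ∧ ∀ e ∈ L, f e.1 ≠ f e.2}
            = {f : V → Fin n | (∀ x y, r x y → f x = f y) ∧ ∀ e' ∈ e :: L, f e'.1 ≠ f e'.2} ∪
              {f : V → Fin n | (∀ x y, join r e.1 e.2 x y → f x = f y) ∧
                ∀ e ∈ L, f e.1 ≠ f e.2} := by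
          ext f
          simp only [Set.mem_union, Set.mem_ofPred_eq, zresp_join, List.forall_mem_cons]
          by_cases hf : f e.1 = f e.2
          · simp [hf]
          · simp [hf]
        have h2 : Disjoint
            {f : V → Fin n | (∀ x y, r x y → f x = f y) ∧ ∀ e' ∈ e :: L, f e'.1 ≠ f e'.2}
            {f : V → Fin n | (∀ x y, join r e.1 e.2 x y → f x = f y) ∧
                ∀ e ∈ L, f e.1 ≠ f e.2} := by
          rw [Set.disjoint_left]
          rintro f ⟨-, hf⟩ ⟨hf', -⟩
          exact hf e List.mem_cons_self ((zresp_join r e.1 e.2 f).1 hf').2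
        have h3 := Set.ncard_union_eq h2 (Set.toFinite _) (Set.toFinite _)
        rw [← h1] at h3
        have g1 : Nat.card {f : V → Fin n // (∀ x y, r x y → f x = f y) ∧ ∀ e ∈ L, f e.1 ≠ f e.2}
            = {f : V → Fin n | (∀ x y, r x y → f x = f y) ∧ ∀ e ∈ L, f e.1 ≠ f e.2}.ncard := rfl
        have g2 : Nat.card {f : V → Fin n // (∀ x y, r x y → f x = f y) ∧
            ∀ e' ∈ e :: L, f e'.1 ≠ f e'.2}
            = {f : V → Fin n | (∀ x y, r x y → f x = f y) ∧
              ∀ e' ∈ e :: L, f e'.1 ≠ f e'.2}.ncard := rfl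
        have g3 : Nat.card {f : V → Fin n // (∀ x y, join r e.1 e.2 x y → f x = f y) ∧
            ∀ e ∈ L, f e.1 ≠ f e.2}
            = {f : V → Fin n | (∀ x y, join r e.1 e.2 x y → f x = f y) ∧
              ∀ e ∈ L, f e.1 ≠ f e.2}.ncard := rfl
        rw [g1, g2, g3, h3]
        push_cast
        ring
      · rw [map_sub, v1, v2]
        have hu : Pb m (e :: L) r = Pb m L r + Pb m L (join r e.1 e.2) := by
          conv_lhs => unfold Pb
          rw [if_neg hr]
        rw [hu, ← hk, pow_succ]
        ring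



end

end Pool.Agent.Helper96.Tau.P_chrom_poly

namespace Pool.Agent.Helper96.Tau

alias chrom_poly := P_chrom_poly.chrom_poly

end Pool.Agent.Helper96.Tau
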