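import Pool.Agent.Helper96.Tau.Defs

set_option autoImplicit false


namespace Pool.Agent.Helper96.Tau.P_coloring_card

open Pool.Agent.Helper96.Tau
open scoped Classical

noncomputable section






theorem coloring_card {V : Type} (L : List (V × V)) (hL : ∀ e ∈ L, e.1 ≠ e.2) (n : ℕ) :
    Nat.card ((SimpleGraph.fromRel (fun x y => (x, y) ∈ L)).Coloring (Fin n)) =
      Nat.card {f : V → Fin n // ∀ e ∈ L, f e.1 ≠ f e.2} := by
  refine Nat.card_congr
    { toFun := fun C => ⟨fun v => C v, fun e he => ?_⟩
      invFun := fun f => SimpleGraph.Coloring.mk f.1 (fun {x y} h => ?_)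
      left_inv := ?_
      right_inv := ?_ }
  · refine C.valid ?_
    rw [SimpleGraph.fromRel_adj]
    exact ⟨hL e he, Or.inl he⟩
  · rw [SimpleGraph.fromRel_adj] at h
    rcases h.2 with h1 | h1
    · exact f.2 (x, y) h1
    · exact (f.2 (y, x) h1).symm
  · intro C
    apply RelHom.ext
    intro v
    rfl
  · intro f
    rfl


end

end Pool.Agent.Helper96.Tau.P_coloring_card

namespace Pool.Agent.Helper96.Tau

alias coloring_card := P_coloring_card.coloring_card

end Pool.Agent.Helper96.Tau
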