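import Pool.Agent.Helper96.Tau.Defs

set_option autoImplicit false


namespace Pool.Agent.Helper96.Tau.P_perm_count

open Pool.Agent.Helper96.Tau
open scoped Classical

noncomputable section





theorem pc_ext {N m : ℕ} {X : Type} [Fintype X] (hm : Fintype.card X = m) (p q : X → Fin N)
    (hp : Function.Injective p) (hq : Function.Injective q) :
    ∃ G : Equiv.Perm (Fin (N - m)) → Equiv.Perm (Fin N), Function.Injective G ∧
      ∀ τ x, G τ (p x) = q x := by
  have hcard : ∀ r : X → Fin N, Function.Injective r →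
      Fintype.card {x : Fin N // ¬ x ∈ Set.range r} = N - m := by
    intro r hr
    rw [Fintype.card_subtype_compl, Fintype.card_fin]
    congr 1
    rw [← hm]
    exact (Fintype.card_congr (Equiv.ofInjective r hr)).symm
  let cp : {x : Fin N // ¬ x ∈ Set.range p} ≃ Fin (N - m) :=
    Fintype.equivFinOfCardEq (hcard p hp)
  let cq : {x : Fin N // ¬ x ∈ Set.range q} ≃ Fin (N - m) :=
    Fintype.equivFinOfCardEq (hcard q hq)
  let e : {x : Fin N // x ∈ Set.range p} ≃ {x : Fin N // x ∈ Set.range q} :=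
    (Equiv.ofInjective p hp).symm.trans (Equiv.ofInjective q hq)
  let G : Equiv.Perm (Fin (N - m)) → Equiv.Perm (Fin N) := fun τ =>
    Equiv.subtypeCongr e (cp.trans (τ.trans cq.symm))
  have hpos : ∀ τ (x : Fin N) (hx : x ∈ Set.range p), G τ x = (e ⟨x, hx⟩ : Fin N) := by
    intro τ x hx
    simp only [G, Equiv.subtypeCongr, Equiv.trans_apply]
    rw [Equiv.sumCompl_symm_apply_of_pos hx]
    rfl
  have hneg : ∀ τ (x : Fin N) (hx : ¬ x ∈ Set.range p),
      G τ x = (cq.symm (τ (cp ⟨x, hx⟩)) : Fin N) := by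
    intro τ x hx
    simp only [G, Equiv.subtypeCongr, Equiv.trans_apply]
    rw [Equiv.sumCompl_symm_apply_of_neg hx]
    rfl
  refine ⟨G, ?_, ?_⟩
  · intro τ τ' h
    ext i
    have h1 : G τ (cp.symm i) = G τ' (cp.symm i) := by rw [h]
    rw [hneg τ _ (cp.symm i).2, hneg τ' _ (cp.symm i).2] at h1
    have h2 := cq.symm.injective (Subtype.ext h1)
    simp only [Subtype.coe_eta, Equiv.apply_symm_apply] at h2
    rw [h2]
  · intro τ x
    rw [hpos τ (p x) ⟨x, rfl⟩]
    have : (Equiv.ofInjective p hp).symm ⟨p x, ⟨x, rfl⟩⟩ = x := by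
      rw [Equiv.symm_apply_eq]
      rfl
    simp only [e, Equiv.trans_apply]
    rw [this]
    rfl

theorem perm_count (N a z : ℕ) (S S' Z Z' : Finset (Fin N)) (hS : S.card = a) (hS' : S'.card = a)
    (hZ : Z.card = z) (hZ' : Z'.card = z) (h1 : Disjoint S Z) (h2 : Disjoint S' Z')
    (hN : z + 2 * a ≤ N) :
    ((N - z - a).descFactorial a) ^ 2 * (N - 2 * a).factorial ≤
      Nat.card {σ : Equiv.Perm (Fin N) // (∀ j ∈ S, σ j ∉ S' ∧ σ j ∉ Z') ∧
        (∀ j, σ j ∈ S' → j ∉ S ∧ j ∉ Z)} := by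
  let W : Finset (Fin N) := (S ∪ Z)ᶜ
  let W' : Finset (Fin N) := (S' ∪ Z')ᶜ
  have hW : W.card = N - z - a := by
    rw [Finset.card_compl, Finset.card_union_of_disjoint h1, hS, hZ, Fintype.card_fin]
    omega
  have hW' : W'.card = N - z - a := by
    rw [Finset.card_compl, Finset.card_union_of_disjoint h2, hS', hZ', Fintype.card_fin]
    omega
  have hWm : ∀ x, x ∈ W → x ∉ S ∧ x ∉ Z := by
    intro x hx
    simpa [W] using hx
  have hWm' : ∀ x, x ∈ W' → x ∉ S' ∧ x ∉ Z' := by
    intro x hx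
    simpa [W'] using hx
  have hX : Fintype.card ({x // x ∈ S} ⊕ {x // x ∈ S'}) = 2 * a := by
    rw [Fintype.card_sum, Fintype.card_coe, Fintype.card_coe, hS, hS']
    ring
  have hex : ∀ (α : {x // x ∈ S} ↪ {x // x ∈ W'}) (β : {x // x ∈ S'} ↪ {x // x ∈ W}),
      ∃ G : Equiv.Perm (Fin (N - 2 * a)) → Equiv.Perm (Fin N), Function.Injective G ∧
        ∀ τ, (∀ s : {x // x ∈ S}, G τ s = (α s : Fin N)) ∧
          (∀ s : {x // x ∈ S'}, G τ (β s : Fin N) = s) := by
    intro α β
    obtain ⟨G, hG, hGx⟩ := pc_ext hX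
      (Sum.elim (fun s : {x // x ∈ S} => (s : Fin N)) (fun s : {x // x ∈ S'} => (β s : Fin N)))
      (Sum.elim (fun s : {x // x ∈ S} => (α s : Fin N)) (fun s : {x // x ∈ S'} => (s : Fin N)))
      (by
        rintro (s | s) (t | t) h
        · simp only [Sum.elim_inl] at h
          rw [Subtype.ext h]
        · simp only [Sum.elim_inl, Sum.elim_inr] at h
          exact absurd (h ▸ s.2) (hWm _ (β t).2).1
        · simp only [Sum.elim_inl, Sum.elim_inr] at h
          exact absurd (h.symm ▸ t.2) (hWm _ (β s).2).1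
        · simp only [Sum.elim_inr] at h
          rw [β.injective (Subtype.ext h)])
      (by
        rintro (s | s) (t | t) h
        · simp only [Sum.elim_inl] at h
          rw [α.injective (Subtype.ext h)]
        · simp only [Sum.elim_inl, Sum.elim_inr] at h
          exact absurd (h.symm ▸ t.2) (hWm' _ (α s).2).1
        · simp only [Sum.elim_inl, Sum.elim_inr] at h
          exact absurd (h ▸ s.2) (hWm' _ (α t).2).1
        · simp only [Sum.elim_inr] at h
          rw [Subtype.ext h])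
    exact ⟨G, hG, fun τ => ⟨fun s => hGx τ (Sum.inl s), fun s => hGx τ (Sum.inr s)⟩⟩
  choose G hGinj hG using hex
  let F : ({x // x ∈ S} ↪ {x // x ∈ W'}) × ({x // x ∈ S'} ↪ {x // x ∈ W}) ×
      Equiv.Perm (Fin (N - 2 * a)) →
      {σ : Equiv.Perm (Fin N) // (∀ j ∈ S, σ j ∉ S' ∧ σ j ∉ Z') ∧
        (∀ j, σ j ∈ S' → j ∉ S ∧ j ∉ Z)} := fun t =>
    ⟨G t.1 t.2.1 t.2.2, by
      intro j hj
      rw [(hG t.1 t.2.1 t.2.2).1 ⟨j, hj⟩]
      exact hWm' _ (t.1 ⟨j, hj⟩).2, by
      intro j hj
      have h3 := (hG t.1 t.2.1 t.2.2).2 ⟨G t.1 t.2.1 t.2.2 j, hj⟩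
      have h4 := (G t.1 t.2.1 t.2.2).injective h3
      rw [← h4]
      exact hWm _ (t.2.1 _).2⟩
  have hF : Function.Injective F := by
    rintro ⟨α, β, τ⟩ ⟨α', β', τ'⟩ h
    have h3 : G α β τ = G α' β' τ' := congrArg Subtype.val h
    have hα : α = α' := by
      ext s
      have h4 := (hG α β τ).1 s
      have h5 := (hG α' β' τ').1 s
      rw [← h4, ← h5, h3]
    have hβ : β = β' := by
      ext s
      have h4 := (hG α β τ).2 s
      have h5 := (hG α' β' τ').2 s
      rw [← h3] at h5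
      have h6 := (G α β τ).injective (h4.trans h5.symm)
      rw [h6]
    subst hα
    subst hβ
    rw [hGinj α β h3]
  have hle := Nat.card_le_card_of_injective F hF
  refine le_trans (le_of_eq ?_) hle
  rw [Nat.card_prod, Nat.card_prod, Nat.card_eq_fintype_card, Nat.card_eq_fintype_card,
    Nat.card_eq_fintype_card, Fintype.card_embedding_eq, Fintype.card_embedding_eq,
    Fintype.card_perm, Fintype.card_fin, Fintype.card_coe, Fintype.card_coe, Fintype.card_coe,
    Fintype.card_coe, hW, hW', hS, hS']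
  ring


end

end Pool.Agent.Helper96.Tau.P_perm_count

namespace Pool.Agent.Helper96.Tau

alias perm_count := P_perm_count.perm_count

end Pool.Agent.Helper96.Tau
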