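import Pool.Agent.Helper96.Tau.Defs
import Pool.Agent.Helper96.Tau.P_perm_count

set_option autoImplicit false


namespace Pool.Agent.Helper96.Tau.P_compat_pi

open Pool.Agent.Helper96.Tau
open scoped Classical

noncomputable section











theorem compat_pi {Γ : Type} [Group Γ] [Fintype Γ] (d z a : ℕ) (hd : 2 ≤ d) (s : Fin d → Γ)
    (f : Bool × Γ × Fin (z + d * a) → Option (Fin d)) (hf : Bal z a f) :
    ((((d - 1) * a).descFactorial a) ^ 2 * (z + d * a - 2 * a).factorial) ^ (d * Fintype.card Γ) ≤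
      Nat.card {π : Γ × Fin d → Equiv.Perm (Fin (z + d * a)) // Compat s π f} := by
  let Q : Γ × Fin d → Equiv.Perm (Fin (z + d * a)) → Prop := fun p σ => ∀ j : Fin (z + d * a),
    (f (false, p.1, j) = some p.2 →
      f (true, p.1 * s p.2, σ j) ≠ none ∧ f (true, p.1 * s p.2, σ j) ≠ some p.2) ∧
    (f (true, p.1 * s p.2, σ j) = some p.2 → f (false, p.1, j) ≠ none ∧ f (false, p.1, j) ≠ some p.2)
  have e1 : {π : Γ × Fin d → Equiv.Perm (Fin (z + d * a)) // Compat s π f} ≃
      {π : Γ × Fin d → Equiv.Perm (Fin (z + d * a)) // ∀ p, Q p (π p)} :=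
    Equiv.subtypeEquivRight fun π => ⟨fun h p j => h p.1 p.2 j, fun h x c j => h (x, c) j⟩
  have e2 : {π : Γ × Fin d → Equiv.Perm (Fin (z + d * a)) // ∀ p, Q p (π p)} ≃
      ∀ p : Γ × Fin d, {σ : Equiv.Perm (Fin (z + d * a)) // Q p σ} :=
    Equiv.subtypePiEquivPi
  rw [Nat.card_congr (e1.trans e2), Nat.card_pi]
  have hcard : ∀ b x, (Finset.univ.filter fun j : Fin (z + d * a) => f (b, x, j) = none).card = z ∧
      ∀ c : Fin d, (Finset.univ.filter fun j : Fin (z + d * a) => f (b, x, j) = some c).card = a := by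
    intro b x
    obtain ⟨h1, h2⟩ := hf b x
    refine ⟨?_, fun c => ?_⟩
    · refine Eq.trans ?_ h1
      rw [Nat.card_eq_fintype_card, Fintype.card_subtype]
    · refine Eq.trans ?_ (h2 c)
      rw [Nat.card_eq_fintype_card, Fintype.card_subtype]
  have hfac : ∀ p : Γ × Fin d,
      (((d - 1) * a).descFactorial a) ^ 2 * (z + d * a - 2 * a).factorial ≤
      Nat.card {σ : Equiv.Perm (Fin (z + d * a)) // Q p σ} := by
    rintro ⟨x, c⟩
    have hle : 2 * a ≤ d * a := Nat.mul_le_mul_right a hd
    have h := perm_count (z + d * a) a z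
      (Finset.univ.filter fun j => f (false, x, j) = some c)
      (Finset.univ.filter fun j => f (true, x * s c, j) = some c)
      (Finset.univ.filter fun j => f (false, x, j) = none)
      (Finset.univ.filter fun j => f (true, x * s c, j) = none)
      ((hcard false x).2 c) ((hcard true (x * s c)).2 c) (hcard false x).1 (hcard true (x * s c)).1
      (by
        rw [Finset.disjoint_filter]
        intro j _ h1 h2
        rw [h1] at h2
        exact absurd h2 (by simp))
      (by
        rw [Finset.disjoint_filter]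
        intro j _ h1 h2
        rw [h1] at h2
        exact absurd h2 (by simp))
      (by omega)
    have hsub : z + d * a - z - a = (d - 1) * a := by
      rw [Nat.sub_mul, one_mul]
      omega
    rw [hsub] at h
    refine h.trans (le_of_eq (Nat.card_congr (Equiv.subtypeEquivRight fun σ => ?_)))
    simp only [Finset.mem_filter, Finset.mem_univ, true_and, Q]
    constructor
    · rintro ⟨h1, h2⟩ j
      exact ⟨fun hj => ⟨(h1 j hj).2, (h1 j hj).1⟩, fun hj => ⟨(h2 j hj).2, (h2 j hj).1⟩⟩
    · intro h1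
      exact ⟨fun j hj => ⟨((h1 j).1 hj).2, ((h1 j).1 hj).1⟩,
        fun j hj => ⟨((h1 j).2 hj).2, ((h1 j).2 hj).1⟩⟩
  calc ((((d - 1) * a).descFactorial a) ^ 2 * (z + d * a - 2 * a).factorial) ^ (d * Fintype.card Γ)
      = ∏ _p : Γ × Fin d, ((((d - 1) * a).descFactorial a) ^ 2 *
          (z + d * a - 2 * a).factorial) := by
        rw [Finset.prod_const, Finset.card_univ, Fintype.card_prod, Fintype.card_fin,
          mul_comm (Fintype.card Γ) d]
    _ ≤ ∏ p : Γ × Fin d, Nat.card {σ : Equiv.Perm (Fin (z + d * a)) // Q p σ} :=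
        Finset.prod_le_prod (fun _ _ => Nat.zero_le _) fun p _ => hfac p


end

end Pool.Agent.Helper96.Tau.P_compat_pi

namespace Pool.Agent.Helper96.Tau

alias compat_pi := P_compat_pi.compat_pi

end Pool.Agent.Helper96.Tau
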