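import Pool.Agent.Helper96.Tau.Defs

set_option autoImplicit false


namespace Pool.Agent.Helper96.Tau.P_data_count

open Pool.Agent.Helper96.Tau
open scoped Classical

noncomputable section






theorem data_count {V ι : Type} [Fintype V] [Fintype ι] (ends : ι → V × V) (d s : ℕ)
    (hdeg : DegLE ends d) (y : ℝ) (hy0 : 0 < y) (hy1 : y ≤ 1) :
    (Nat.card {φ : V → Option ι // (∀ v i, φ v = some i → ((ends i).1 = v ∨ (ends i).2 = v)) ∧
        (Finset.univ.filter (fun v => φ v ≠ none)).card ≤ s} : ℝ) ≤
      (1 / y) ^ s * (1 + d * y) ^ Fintype.card V := by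
  classical
  set T : V → Finset (Option ι) := fun v =>
    Finset.insertNone (Finset.univ.filter (fun i : ι => (ends i).1 = v ∨ (ends i).2 = v)) with hT
  set w : Option ι → ℝ := fun o => if o ≠ none then y else 1 with hw
  have hsum : ∀ v, ∑ o ∈ T v, w o ≤ 1 + d * y := by
    intro v
    have h1 : ∑ o ∈ T v, w o = 1 + ((Finset.univ.filter (fun i : ι => (ends i).1 = v ∨ (ends i).2 = v)).card : ℝ) * y := by
      rw [hT]
      simp only [Finset.sum_insertNone]
      simp [hw]
    rw [h1]
    have h2 := hdeg v
    rw [Nat.card_eq_fintype_card, Fintype.card_subtype] at h2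
    have h3 : ((Finset.univ.filter (fun i : ι => (ends i).1 = v ∨ (ends i).2 = v)).card : ℝ) ≤ d := by
      exact_mod_cast h2
    nlinarith
  have hpos : ∀ o, 0 < w o := by
    intro o
    rw [hw]
    by_cases h : o ≠ none
    · simp [h, hy0]
    · simp [h]
  have hprod : ∑ x ∈ Fintype.piFinset T, ∏ v, w (x v) ≤ (1 + d * y) ^ Fintype.card V := by
    rw [← Finset.prod_univ_sum T (fun _ o => w o)]
    calc ∏ v, ∑ o ∈ T v, w o ≤ ∏ _v : V, (1 + d * y) :=
          Finset.prod_le_prod (fun v _ => Finset.sum_nonneg (fun o _ => (hpos o).le)) (fun v _ => hsum v)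
      _ = (1 + d * y) ^ Fintype.card V := by simp
  have hcard : (Nat.card {φ : V → Option ι // (∀ v i, φ v = some i → ((ends i).1 = v ∨ (ends i).2 = v)) ∧
        (Finset.univ.filter (fun v => φ v ≠ none)).card ≤ s}) =
      ((Finset.univ : Finset (V → Option ι)).filter (fun φ => (∀ v i, φ v = some i → ((ends i).1 = v ∨ (ends i).2 = v)) ∧
        (Finset.univ.filter (fun v => φ v ≠ none)).card ≤ s)).card := by
    rw [Nat.card_eq_fintype_card, Fintype.card_subtype]
  rw [hcard]
  set S := ((Finset.univ : Finset (V → Option ι)).filter (fun φ => (∀ v i, φ v = some i → ((ends i).1 = v ∨ (ends i).2 = v)) ∧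
        (Finset.univ.filter (fun v => φ v ≠ none)).card ≤ s)) with hS
  have hsub : S ⊆ Fintype.piFinset T := by
    intro φ hφ
    rw [hS, Finset.mem_filter] at hφ
    rw [Fintype.mem_piFinset]
    intro v
    rw [hT]
    simp only [Finset.mem_insertNone, Finset.mem_filter, Finset.mem_univ, true_and, Option.mem_def]
    intro i hi
    exact hφ.2.1 v i hi
  have hlow : (S.card : ℝ) * y ^ s ≤ ∑ x ∈ Fintype.piFinset T, ∏ v, w (x v) := by
    calc (S.card : ℝ) * y ^ s = ∑ _x ∈ S, y ^ s := by simp
      _ ≤ ∑ x ∈ S, ∏ v, w (x v) := by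
          apply Finset.sum_le_sum
          intro φ hφ
          rw [hS, Finset.mem_filter] at hφ
          have h1 : ∏ v, w (φ v) = y ^ (Finset.univ.filter (fun v => φ v ≠ none)).card := by
            rw [hw]
            simp only [Finset.prod_ite, Finset.prod_const, one_pow, mul_one]
          rw [h1]
          exact pow_le_pow_of_le_one hy0.le hy1 hφ.2.2
      _ ≤ ∑ x ∈ Fintype.piFinset T, ∏ v, w (x v) := by
          apply Finset.sum_le_sum_of_subset_of_nonneg hsub
          intro x _ _
          exact Finset.prod_nonneg (fun v _ => (hpos _).le)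
  have hys : 0 < y ^ s := pow_pos hy0 s
  have hfin := hlow.trans hprod
  rw [one_div, inv_pow, ← div_eq_inv_mul, le_div_iff₀ hys]
  exact hfin



end

end Pool.Agent.Helper96.Tau.P_data_count

namespace Pool.Agent.Helper96.Tau

alias data_count := P_data_count.data_count

end Pool.Agent.Helper96.Tau
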