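import Pool.Agent.Helper96.Tau.Defs
import Pool.Agent.Helper96.Tau.P_kk_bot
import Pool.Agent.Helper96.Tau.P_chrom_poly
import Pool.Agent.Helper96.Tau.P_asc_basis
import Pool.Agent.Helper96.Tau.P_asc_neg

set_option autoImplicit false


namespace Pool.Agent.Helper96.Tau.P_exists_coeffs

open Pool.Agent.Helper96.Tau
open scoped Classical

noncomputable section




















theorem exists_coeffs {V : Type} [Fintype V] (L : List (V × V)) : ∃ c : ℕ → ℤ,
    (∀ n : ℕ, (Nat.card {f : V → Fin n // ∀ e ∈ L, f e.1 ≠ f e.2} : ℤ) =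
      ∑ i ∈ Finset.range (Fintype.card V + 1),
        (-1 : ℤ) ^ (Fintype.card V - i) * c i * (ascPochhammer ℤ i).eval (n : ℤ)) ∧
    ∀ m : ℕ, ∑ i ∈ Finset.range (Fintype.card V + 1), (c i : ℝ) * (m.descFactorial i : ℝ) =
      Pb (m : ℝ) L ⊥ := by
  obtain ⟨P, hP, hn, hm⟩ := chrom_poly L (⊥ : Setoid V)
  rw [kk_bot] at hP hm
  obtain ⟨c, hc⟩ := asc_basis (Fintype.card V) P hP
  have heval : ∀ x : ℤ, P.eval x = ∑ i ∈ Finset.range (Fintype.card V + 1),
      (-1 : ℤ) ^ (Fintype.card V - i) * c i * (ascPochhammer ℤ i).eval x := by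
    intro x
    conv_lhs => rw [hc]
    rw [Polynomial.eval_finsetSum]
    exact Finset.sum_congr rfl fun i _ => by rw [Polynomial.eval_mul, Polynomial.eval_C]
  refine ⟨c, fun n => ?_, fun m => ?_⟩
  · rw [← heval, ← hn n]
    congr 1
    exact Nat.card_congr (Equiv.subtypeEquivRight fun f =>
      ⟨fun h => ⟨fun x y hxy => congrArg f hxy, h⟩, fun h => h.2⟩)
  · have h1 := hm (m : ℝ)
    have h2 : Polynomial.aeval (-(m : ℝ)) P = ((P.eval (-(m : ℤ)) : ℤ) : ℝ) := by
      have h3 := Polynomial.aeval_algebraMap_apply_eq_algebraMap_eval (A := ℝ) (-(m : ℤ)) P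
      simpa using h3
    have h4 : P.eval (-(m : ℤ)) = (-1 : ℤ) ^ (Fintype.card V) *
        ∑ i ∈ Finset.range (Fintype.card V + 1), c i * (m.descFactorial i : ℤ) := by
      rw [heval, Finset.mul_sum]
      refine Finset.sum_congr rfl fun i hi => ?_
      rw [Finset.mem_range] at hi
      have h5 : (-1 : ℤ) ^ (Fintype.card V) = (-1 : ℤ) ^ (Fintype.card V - i) * (-1) ^ i := by
        rw [← pow_add]
        congr 1
        omega
      rw [asc_neg, h5]
      ring
    rw [h2, h4] at h1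
    push_cast at h1
    exact mul_left_cancel₀ (pow_ne_zero _ (by norm_num)) h1


end

end Pool.Agent.Helper96.Tau.P_exists_coeffs

namespace Pool.Agent.Helper96.Tau

alias exists_coeffs := P_exists_coeffs.exists_coeffs

end Pool.Agent.Helper96.Tau
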