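import Pool.Agent.Helper96.Tau.Defs

set_option autoImplicit false


namespace Pool.Agent.Helper96.Tau.P_fact_lower

open Pool.Agent.Helper96.Tau
open scoped Classical

noncomputable section






theorem fact_lower (n : ℕ) : (n : ℝ) ^ n * Real.exp (-(n : ℝ)) ≤ (n.factorial : ℝ) := by
  have h1 : (n : ℝ) ^ n / (n.factorial : ℝ) ≤ Real.exp (n : ℝ) :=
    Real.pow_div_factorial_le_exp _ (Nat.cast_nonneg n) n
  have h2 : (0:ℝ) < (n.factorial : ℝ) := by exact_mod_cast Nat.factorial_pos n
  rw [div_le_iff₀ h2] at h1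
  rw [Real.exp_neg, ← div_eq_mul_inv, div_le_iff₀ (Real.exp_pos _)]
  linarith [mul_comm (Real.exp (n : ℝ)) (n.factorial : ℝ)]



end

end Pool.Agent.Helper96.Tau.P_fact_lower

namespace Pool.Agent.Helper96.Tau

alias fact_lower := P_fact_lower.fact_lower

end Pool.Agent.Helper96.Tau
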