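import Pool.Agent.Helper96.Tau.Defs

set_option autoImplicit false


namespace Pool.Agent.Helper96.Tau.P_fact_upper

open Pool.Agent.Helper96.Tau
open scoped Classical

noncomputable section






theorem fact_upper (n : ℕ) :
    (n.factorial : ℝ) ≤ 3 * ((n : ℝ) + 1) * ((n : ℝ) ^ n * Real.exp (-(n : ℝ))) := by
  have key : ∀ n : ℕ, 1 ≤ n → (n.factorial : ℝ) * Real.exp n ≤ Real.exp 1 * (n : ℝ) ^ (n + 1) := by
    intro n hn
    induction n, hn using Nat.le_induction with
    | base => simp
    | succ n hn ih =>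
      have h1 : (n : ℝ) ^ (n + 1) * Real.exp 1 ≤ ((n : ℝ) + 1) ^ (n + 1) := by
        have hn0 : (0 : ℝ) < (n : ℝ) + 1 := by positivity
        have h2 : (n : ℝ) / ((n : ℝ) + 1) ≤ Real.exp (-(1 / ((n : ℝ) + 1))) := by
          have := Real.add_one_le_exp (-(1 / ((n : ℝ) + 1)))
          have h3 : (n : ℝ) / ((n : ℝ) + 1) = -(1 / ((n : ℝ) + 1)) + 1 := by
            field_simp
            ring
          rw [h3]; exact this
        have h4 : ((n : ℝ) / ((n : ℝ) + 1)) ^ (n + 1) ≤ Real.exp (-1) := by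
          calc ((n : ℝ) / ((n : ℝ) + 1)) ^ (n + 1) ≤ (Real.exp (-(1 / ((n : ℝ) + 1)))) ^ (n + 1) :=
                pow_le_pow_left₀ (by positivity) h2 _
            _ = Real.exp (-1) := by
                rw [← Real.exp_nat_mul]
                congr 1
                push_cast
                field_simp
        rw [div_pow, div_le_iff₀ (by positivity)] at h4
        calc (n : ℝ) ^ (n + 1) * Real.exp 1 ≤ (Real.exp (-1) * ((n : ℝ) + 1) ^ (n + 1)) * Real.exp 1 :=
              mul_le_mul_of_nonneg_right h4 (Real.exp_pos _).le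
          _ = (Real.exp (-1) * Real.exp 1) * ((n : ℝ) + 1) ^ (n + 1) := by ring
          _ = ((n : ℝ) + 1) ^ (n + 1) := by
              rw [← Real.exp_add]; simp
      rw [Nat.factorial_succ]
      push_cast
      rw [Real.exp_add]
      calc ((n : ℝ) + 1) * (n.factorial : ℝ) * (Real.exp n * Real.exp 1)
          = ((n : ℝ) + 1) * Real.exp 1 * ((n.factorial : ℝ) * Real.exp n) := by ring
        _ ≤ ((n : ℝ) + 1) * Real.exp 1 * (Real.exp 1 * (n : ℝ) ^ (n + 1)) :=
            mul_le_mul_of_nonneg_left ih (by positivity)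
        _ = ((n : ℝ) + 1) * Real.exp 1 * ((n : ℝ) ^ (n + 1) * Real.exp 1) := by ring
        _ ≤ ((n : ℝ) + 1) * Real.exp 1 * ((n : ℝ) + 1) ^ (n + 1) :=
            mul_le_mul_of_nonneg_left h1 (by positivity)
        _ = Real.exp 1 * ((n : ℝ) + 1) ^ (n + 1 + 1) := by ring
  rcases Nat.eq_zero_or_pos n with rfl | hn
  · simp
  · have h := key n hn
    have he : Real.exp 1 ≤ 3 := by
      have := Real.exp_one_lt_d9
      linarith
    have h5 : (n.factorial : ℝ) = ((n.factorial : ℝ) * Real.exp n) * Real.exp (-(n : ℝ)) := by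
      rw [mul_assoc, ← Real.exp_add]; simp
    rw [h5]
    calc ((n.factorial : ℝ) * Real.exp n) * Real.exp (-(n : ℝ))
        ≤ (Real.exp 1 * (n : ℝ) ^ (n + 1)) * Real.exp (-(n : ℝ)) :=
          mul_le_mul_of_nonneg_right h (Real.exp_pos _).le
      _ = (Real.exp 1 * (n : ℝ)) * ((n : ℝ) ^ n * Real.exp (-(n : ℝ))) := by ring
      _ ≤ (3 * ((n : ℝ) + 1)) * ((n : ℝ) ^ n * Real.exp (-(n : ℝ))) := by
          apply mul_le_mul_of_nonneg_right _ (by positivity)
          apply mul_le_mul he (by linarith) (by positivity) (by norm_num)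


end

end Pool.Agent.Helper96.Tau.P_fact_upper

namespace Pool.Agent.Helper96.Tau

alias fact_upper := P_fact_upper.fact_upper

end Pool.Agent.Helper96.Tau
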