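import Pool.Agent.Helper96.Tau.Defs

set_option autoImplicit false


namespace Pool.Agent.Helper96.Tau.P_sp_empty

open Pool.Agent.Helper96.Tau
open scoped Classical

noncomputable section






theorem sp_empty {V ι : Type} (ends : ι → V × V) : sp ends ∅ = ⊥ := by
  apply Setoid.ext
  intro x y
  constructor
  · intro h
    have h' : Relation.EqvGen (fun x y => ∃ i ∈ (∅ : Set ι), ends i = (x, y)) x y := h
    show x = y
    clear h
    induction h' with
    | rel x y h =>
      obtain ⟨i, hi, _⟩ := h
      exact absurd hi (Set.notMem_empty i)
    | refl x => rfl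
    | symm x y _ ih => exact ih.symm
    | trans x y z _ _ ih1 ih2 => exact ih1.trans ih2
  · intro h
    have h' : x = y := h
    subst h'
    exact (sp ends ∅).refl x


end

end Pool.Agent.Helper96.Tau.P_sp_empty

namespace Pool.Agent.Helper96.Tau

alias sp_empty := P_sp_empty.sp_empty

end Pool.Agent.Helper96.Tau
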