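import Pool.Agent.Helper96.Tau.Defs

set_option autoImplicit false


namespace Pool.Agent.Helper96.Tau.P_sp_insert

open Pool.Agent.Helper96.Tau
open scoped Classical

noncomputable section






theorem sp_insert {V ι : Type} (ends : ι → V × V) (A : Set ι) (i : ι) :
    sp ends (insert i A) = join (sp ends A) (ends i).1 (ends i).2 := by
  have hgen : ∀ (B : Set ι) (j : ι), j ∈ B → (sp ends B) (ends j).1 (ends j).2 := by
    intro B j hj
    exact Relation.EqvGen.rel _ _ ⟨j, hj, rfl⟩
  apply le_antisymm
  · unfold sp
    apply Setoid.eqvGen_le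
    rintro x y ⟨j, hj, hxy⟩
    rcases hj with rfl | hj
    · right; left
      rw [hxy]
      exact ⟨(sp ends A).refl x, (sp ends A).refl y⟩
    · left
      exact Relation.EqvGen.rel _ _ ⟨j, hj, hxy⟩
  · have hmono : ∀ {x y}, (sp ends A) x y → (sp ends (insert i A)) x y := by
      intro x y h
      exact Setoid.eqvGen_mono (fun a b ⟨j, hj, hab⟩ => ⟨j, Or.inr hj, hab⟩) h
    have huv := hgen (insert i A) i (Set.mem_insert i A)
    intro x y h
    rcases h with h | ⟨h1, h2⟩ | ⟨h1, h2⟩
    · exact hmono h
    · exact (sp ends (insert i A)).trans (hmono h1)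
        ((sp ends (insert i A)).trans huv (hmono h2))
    · exact (sp ends (insert i A)).trans (hmono h1)
        ((sp ends (insert i A)).trans ((sp ends (insert i A)).symm huv) (hmono h2))


end

end Pool.Agent.Helper96.Tau.P_sp_insert

namespace Pool.Agent.Helper96.Tau

alias sp_insert := P_sp_insert.sp_insert

end Pool.Agent.Helper96.Tau
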