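import Pool.Agent.Helper96.Tau.Defs

set_option autoImplicit false


namespace Pool.Agent.Helper96.Tau.P_sp_inv

open Pool.Agent.Helper96.Tau
open scoped Classical

noncomputable section






theorem sp_inv {V ι α : Type} (ends : ι → V × V) (A : Set ι) (f : V → α)
    (hf : ∀ i ∈ A, f (ends i).1 = f (ends i).2) (x y : V) (hxy : sp ends A x y) : f x = f y := by
  have h : Relation.EqvGen (fun x y => ∃ i ∈ A, ends i = (x, y)) x y := hxy
  clear hxy
  induction h with
  | rel a b hab =>
    obtain ⟨i, hi, he⟩ := hab
    have h := hf i hi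
    rw [he] at h
    exact h
  | refl a => rfl
  | symm a b _ ih => exact ih.symm
  | trans a b c _ _ ih1 ih2 => exact ih1.trans ih2


end

end Pool.Agent.Helper96.Tau.P_sp_inv

namespace Pool.Agent.Helper96.Tau

alias sp_inv := P_sp_inv.sp_inv

end Pool.Agent.Helper96.Tau
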