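import Pool.Agent.Helper96.Tau.Defs

set_option autoImplicit false


namespace Pool.Agent.Helper96.Tau.P_sp_mono

open Pool.Agent.Helper96.Tau
open scoped Classical

noncomputable section






theorem sp_mono {V ι : Type} (ends : ι → V × V) (A B : Set ι) (h : A ⊆ B) (x y : V)
    (hxy : sp ends A x y) : sp ends B x y := by
  have h1 : Relation.EqvGen (fun x y => ∃ i ∈ A, ends i = (x, y)) x y := hxy
  have h2 : Relation.EqvGen (fun x y => ∃ i ∈ B, ends i = (x, y)) x y := by
    induction h1 with
    | rel a b hab =>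
      obtain ⟨i, hi, hab⟩ := hab
      exact Relation.EqvGen.rel _ _ ⟨i, h hi, hab⟩
    | refl a => exact Relation.EqvGen.refl _
    | symm a b hab ih => exact Relation.EqvGen.symm _ _ (ih hab)
    | trans a b c h1 h2 ih1 ih2 => exact Relation.EqvGen.trans _ _ _ (ih1 h1) (ih2 h2)
  exact h2


end

end Pool.Agent.Helper96.Tau.P_sp_mono

namespace Pool.Agent.Helper96.Tau

alias sp_mono := P_sp_mono.sp_mono

end Pool.Agent.Helper96.Tau
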