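import Pool.Agent.Helper96.Tau.Defs
import Pool.Agent.Helper96.Tau.P_sp_empty
import Pool.Agent.Helper96.Tau.P_sp_insert
import Pool.Agent.Helper96.Tau.P_sp_mono
import Pool.Agent.Helper96.Tau.P_sp_inv
import Pool.Agent.Helper96.Tau.P_join_exch
import Pool.Agent.Helper96.Tau.P_join_of_rel
import Pool.Agent.Helper96.Tau.P_join_comm

set_option autoImplicit false


namespace Pool.Agent.Helper96.Tau.P_fund_set

open Pool.Agent.Helper96.Tau
open scoped Classical

noncomputable section





























theorem fund_set {V ι : Type} [Fintype ι] (ends : ι → V × V) (g : ℕ) (hg : HasGirth ends g) (A : Finset ι)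
    (hA : Indep ends A) (i : ι) (hi : i ∉ A) (hs : sp ends {a | a ∈ A} (ends i).1 (ends i).2) :
    ∃ X : Finset ι, X ⊆ A ∧ g ≤ X.card ∧
      ∀ A' : Set ι, A' ⊆ {a | a ∈ A} → sp ends A' (ends i).1 (ends i).2 → ∀ a ∈ X, a ∈ A' := by
  classical
  let X : Finset ι := A.filter (fun a => ¬ sp ends {b | b ∈ A ∧ b ≠ a} (ends i).1 (ends i).2)
  refine ⟨X, Finset.filter_subset _ _, ?_, ?_⟩
  · -- a minimal connecting subset
    obtain ⟨X0, hX0, hmin⟩ := Finset.exists_min_image
      (A.powerset.filter (fun B => sp ends {b | b ∈ B} (ends i).1 (ends i).2)) Finset.card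
      ⟨A, Finset.mem_filter.mpr ⟨Finset.mem_powerset_self A, hs⟩⟩
    rw [Finset.mem_filter, Finset.mem_powerset] at hX0
    obtain ⟨hX0A, hX0s⟩ := hX0
    have hsub : X0 ⊆ X := by
      intro a ha
      refine Finset.mem_filter.mpr ⟨hX0A ha, fun h => ?_⟩
      have hne : ¬ sp ends {b | b ∈ X0.erase a} (ends i).1 (ends i).2 := by
        intro hc
        have h1 := hmin (X0.erase a) (Finset.mem_filter.mpr
          ⟨Finset.mem_powerset.mpr ((Finset.erase_subset _ _).trans hX0A), hc⟩)
        have h2 := Finset.card_erase_lt_of_mem ha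
        omega
      have hins : ({b | b ∈ X0} : Set ι) = insert a {b | b ∈ X0.erase a} := by
        ext b
        simp only [Set.mem_ofPred_eq, Set.mem_insert_iff, Finset.mem_erase]
        constructor
        · intro hb
          by_cases hba : b = a
          · exact Or.inl hba
          · exact Or.inr ⟨hba, hb⟩
        · rintro (rfl | hb)
          · exact ha
          · exact hb.2
      rw [hins, sp_insert] at hX0s
      have hex := join_exch _ _ _ _ _ hX0s hne
      have hrel : (join (sp ends {b | b ∈ X0.erase a}) (ends i).1 (ends i).2)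
          (ends a).1 (ends a).2 := by
        rw [← hex]
        exact Or.inr (Or.inl ⟨(sp ends {b | b ∈ X0.erase a}).refl _,
          (sp ends {b | b ∈ X0.erase a}).refl _⟩)
      have hmono : ∀ x y, sp ends {b | b ∈ X0.erase a} x y →
          sp ends {b | b ∈ A ∧ b ≠ a} x y := fun x y hxy =>
        sp_mono ends {b | b ∈ X0.erase a} {b | b ∈ A ∧ b ≠ a}
          (fun b (hb : b ∈ X0.erase a) => ⟨hX0A (Finset.mem_of_mem_erase hb),
          Finset.ne_of_mem_erase hb⟩) x y hxy
      apply hA a (hX0A ha)
      rcases hrel with h1 | ⟨h1, h2⟩ | ⟨h1, h2⟩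
      · exact hmono _ _ h1
      · exact (sp ends {b | b ∈ A ∧ b ≠ a}).trans (hmono _ _ h1)
          ((sp ends {b | b ∈ A ∧ b ≠ a}).trans h (hmono _ _ h2))
      · exact (sp ends {b | b ∈ A ∧ b ≠ a}).trans (hmono _ _ h1)
          ((sp ends {b | b ∈ A ∧ b ≠ a}).trans ((sp ends {b | b ∈ A ∧ b ≠ a}).symm h)
            (hmono _ _ h2))
    obtain ⟨D, hD0, hDg, hDL⟩ := hg i
    have himg : Finset.range g ⊆ X0.image (fun a => min (D (ends a).1) (D (ends a).2)) := by
      intro t ht
      rw [Finset.mem_range] at ht
      by_contra hn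
      have h1 : ∀ a ∈ X0, min (D (ends a).1) (D (ends a).2) ≠ t := by
        intro a ha h
        exact hn (Finset.mem_image.mpr ⟨a, ha, h⟩)
      have h2 := sp_inv ends {b | b ∈ X0} (fun v => D v ≤ t) (fun a ha => by
        have h3 := h1 a ha
        have h4 := hDL a (fun h => hi (h ▸ hX0A ha))
        apply propext
        rcases le_total (D (ends a).1) (D (ends a).2) with h5 | h5
        · rw [min_eq_left h5] at h3
          omega
        · rw [min_eq_right h5] at h3
          omega) _ _ hX0s
      have h3 : D (ends i).1 ≤ t := by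
        have h4 : (D (ends i).1 ≤ t) = (D (ends i).2 ≤ t) := h2
        rw [h4, hD0]
        exact Nat.zero_le _
      omega
    calc g = (Finset.range g).card := (Finset.card_range g).symm
      _ ≤ (X0.image (fun a => min (D (ends a).1) (D (ends a).2))).card := Finset.card_le_card himg
      _ ≤ X0.card := Finset.card_image_le
      _ ≤ X.card := Finset.card_le_card hsub
  · intro A' hA' hsA' a ha
    by_contra hn
    refine (Finset.mem_filter.mp ha).2 (sp_mono ends A' _ ?_ _ _ hsA')
    intro b hb
    refine ⟨hA' hb, ?_⟩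
    rintro rfl
    exact hn hb


end

end Pool.Agent.Helper96.Tau.P_fund_set

namespace Pool.Agent.Helper96.Tau

alias fund_set := P_fund_set.fund_set

end Pool.Agent.Helper96.Tau
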