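import Pool.Agent.Helper96.Tau.Defs

set_option autoImplicit false


namespace Pool.Agent.Helper96.Tau.P_gamma_formula

open Pool.Agent.Helper96.Tau
open scoped Classical

noncomputable section






theorem gamma_formula (p : ℕ) (c : ℕ → ℝ) (m : ℕ) :
    ((fun P : Polynomial ℝ => P + Polynomial.derivative P)^[m]
      (∑ i ∈ Finset.range (p + 1), Polynomial.C (c i) * Polynomial.X ^ i)).eval 0 =
      ∑ i ∈ Finset.range (p + 1), c i * (m.descFactorial i : ℝ) := by
  have hF : ∀ m i : ℕ, ((m + 1).descFactorial (i + 1) : ℝ) =
      (m.descFactorial (i + 1) : ℝ) + ((i : ℝ) + 1) * (m.descFactorial i : ℝ) := by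
    intro m i
    rw [Nat.succ_descFactorial_succ, Nat.descFactorial_succ]
    rcases Nat.lt_or_ge m i with h | h
    · rw [Nat.descFactorial_eq_zero_iff_lt.2 h]
      simp
    · obtain ⟨k, rfl⟩ := Nat.exists_eq_add_of_le h
      have : i + k - i = k := by omega
      rw [this]
      push_cast
      ring
  have key : ∀ (m : ℕ) (P : Polynomial ℝ) (N : ℕ), P.natDegree < N + 1 →
      ((fun P : Polynomial ℝ => P + Polynomial.derivative P)^[m] P).eval 0 =
        ∑ i ∈ Finset.range (N + 1), P.coeff i * (m.descFactorial i : ℝ) := by
    intro m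
    induction m with
    | zero =>
      intro P N hN
      rw [Function.iterate_zero, id, Finset.sum_range_succ']
      simp [Polynomial.coeff_zero_eq_eval_zero]
    | succ m ih =>
      intro P N hN
      rw [Function.iterate_succ_apply]
      have hdeg : (P + Polynomial.derivative P).natDegree < N + 1 := by
        refine lt_of_le_of_lt (Polynomial.natDegree_add_le _ _) (max_lt hN ?_)
        have := Polynomial.natDegree_derivative_le P
        omega
      rw [ih _ N hdeg]
      have hz : P.coeff (N + 1) = 0 := Polynomial.coeff_eq_zero_of_natDegree_lt hN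
      simp only [Polynomial.coeff_add, Polynomial.coeff_derivative, add_mul,
        Finset.sum_add_distrib]
      rw [Finset.sum_range_succ' (fun i => P.coeff i * (m.descFactorial i : ℝ)),
        Finset.sum_range_succ (fun i => P.coeff (i + 1) * ((i : ℝ) + 1) *
          (m.descFactorial i : ℝ)), hz,
        Finset.sum_range_succ' (fun i => P.coeff i * ((m + 1).descFactorial i : ℝ))]
      simp only [hF, mul_add, Finset.sum_add_distrib, Nat.descFactorial_zero]
      have : ∑ x ∈ Finset.range N, P.coeff (x + 1) * ((x : ℝ) + 1) * (m.descFactorial x : ℝ) =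
          ∑ x ∈ Finset.range N, P.coeff (x + 1) * (((x : ℝ) + 1) * (m.descFactorial x : ℝ)) :=
        Finset.sum_congr rfl (fun x _ => by ring)
      first
        | (rw [this]; ring)
        | (simp only [mul_add, add_mul, mul_one, Finset.sum_add_distrib] at this ⊢; linarith)
  have hdeg : (∑ i ∈ Finset.range (p + 1), Polynomial.C (c i) * Polynomial.X ^ i).natDegree <
      p + 1 := by
    refine Nat.lt_succ_of_le (Polynomial.natDegree_sum_le_of_forall_le _ _ (fun i hi => ?_))
    exact (Polynomial.natDegree_C_mul_X_pow_le _ _).trans (Nat.lt_succ_iff.1 (Finset.mem_range.1 hi))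
  rw [key m _ p hdeg]
  refine Finset.sum_congr rfl (fun i hi => ?_)
  congr 1
  rw [Polynomial.finset_sum_coeff]
  simp only [Polynomial.coeff_C_mul, Polynomial.coeff_X_pow, mul_ite, mul_one, mul_zero]
  rw [Finset.sum_ite_eq]
  simp [hi]


end

end Pool.Agent.Helper96.Tau.P_gamma_formula

namespace Pool.Agent.Helper96.Tau

alias gamma_formula := P_gamma_formula.gamma_formula

end Pool.Agent.Helper96.Tau
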