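import Pool.Agent.Helper96.Tau.Defs
import Pool.Agent.Helper96.Tau.P_Pb_nonneg

set_option autoImplicit false


namespace Pool.Agent.Helper96.Tau.P_good_count

open Pool.Agent.Helper96.Tau
open scoped Classical

noncomputable section











theorem good_count_congr {V ι : Type} (ends : ι → V × V) (A A' : Set ι) (l : List ι) :
    ∀ (r : Setoid V), (∀ i ∈ l, (i ∈ A ↔ i ∈ A')) → Good ends l r A → Good ends l r A' := by
  induction l with
  | nil => intro r _ _; trivial
  | cons i l ih =>
    intro r h hG
    obtain ⟨h1, h2⟩ := hG
    refine ⟨h1, ?_⟩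
    have hi := h i (List.mem_cons_self)
    have hl : ∀ j ∈ l, (j ∈ A ↔ j ∈ A') := fun j hj => h j (List.mem_cons_of_mem _ hj)
    by_cases hA : i ∈ A
    · rw [if_pos hA] at h2
      rw [if_pos (hi.1 hA)]
      exact ih _ hl h2
    · rw [if_neg hA] at h2
      rw [if_neg (fun h3 => hA (hi.2 h3))]
      exact ih _ hl h2

theorem good_count {V ι : Type} (ends : ι → V × V) (l : List ι) (hl : l.Nodup) (r : Setoid V)
    (F : Finset (Finset ι)) (hF : ∀ A ∈ F, (∀ i ∈ A, i ∈ l) ∧ Good ends l r (A : Set ι)) :
    (F.card : ℝ) ≤ Pb 1 (l.map ends) r := by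
  induction l generalizing r F with
  | nil =>
    have h1 : F ⊆ {∅} := by
      intro A hA
      rw [Finset.mem_singleton, Finset.eq_empty_iff_forall_notMem]
      intro i hi
      exact absurd ((hF A hA).1 i hi) (by simp)
    have h2 : F.card ≤ 1 := by
      have := Finset.card_le_card h1
      simpa using this
    have h3 : Pb 1 (([] : List ι).map ends) r = 1 := by
      show (1 : ℝ) ^ kk r = 1
      exact one_pow _
    rw [h3]
    exact_mod_cast h2
  | cons i l ih =>
    have hi : i ∉ l := (List.nodup_cons.1 hl).1
    have hl' : l.Nodup := (List.nodup_cons.1 hl).2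
    by_cases hFe : F = ∅
    · rw [hFe, Finset.card_empty, Nat.cast_zero]
      exact Pb_nonneg 1 zero_le_one _ _
    · obtain ⟨A0, hA0⟩ := Finset.nonempty_iff_ne_empty.2 hFe
      have hr : ¬ r (ends i).1 (ends i).2 := (hF A0 hA0).2.1
      have hPb : Pb 1 ((i :: l).map ends) r =
          Pb 1 (l.map ends) r + Pb 1 (l.map ends) (join r (ends i).1 (ends i).2) := by
        show (if r (ends i).1 (ends i).2 then (0 : ℝ) else
          Pb 1 (l.map ends) r + Pb 1 (l.map ends) (join r (ends i).1 (ends i).2)) = _
        rw [if_neg hr]
      have hsplit : F.card = (F.filter (fun A => i ∉ A)).card + (F.filter (fun A => i ∈ A)).card := by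
        have h1 : F = F.filter (fun A => i ∉ A) ∪ F.filter (fun A => i ∈ A) := by
          ext A
          rw [Finset.mem_union, Finset.mem_filter, Finset.mem_filter]
          tauto
        have h2 : Disjoint (F.filter (fun A => i ∉ A)) (F.filter (fun A => i ∈ A)) := by
          rw [Finset.disjoint_left]
          intro A hA hA'
          exact (Finset.mem_filter.1 hA).2 (Finset.mem_filter.1 hA').2
        conv_lhs => rw [h1]
        exact Finset.card_union_of_disjoint h2
      have h0 : ((F.filter (fun A => i ∉ A)).card : ℝ) ≤ Pb 1 (l.map ends) r := by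
        apply ih hl' r
        intro A hA
        rw [Finset.mem_filter] at hA
        obtain ⟨hAF, hiA⟩ := hA
        obtain ⟨h1, h2⟩ := hF A hAF
        refine ⟨?_, ?_⟩
        · intro j hj
          rcases List.mem_cons.1 (h1 j hj) with h | h
          · exact absurd (h ▸ hj) hiA
          · exact h
        · have h3 := h2.2
          rwa [if_neg (fun h => hiA (Finset.mem_coe.1 h))] at h3
      have h1 : ((F.filter (fun A => i ∈ A)).card : ℝ) ≤
          Pb 1 (l.map ends) (join r (ends i).1 (ends i).2) := by
        have hcard : (F.filter (fun A => i ∈ A)).card =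
            ((F.filter (fun A => i ∈ A)).image (fun A => A.erase i)).card := by
          rw [Finset.card_image_of_injOn]
          intro A hA B hB hAB
          have hA' := (Finset.mem_filter.1 (Finset.mem_coe.1 hA)).2
          have hB' := (Finset.mem_filter.1 (Finset.mem_coe.1 hB)).2
          have h3 : A.erase i = B.erase i := hAB
          rw [← Finset.insert_erase hA', ← Finset.insert_erase hB', h3]
        rw [hcard]
        apply ih hl' _
        intro B hB
        rw [Finset.mem_image] at hB
        obtain ⟨A, hA, rfl⟩ := hB
        rw [Finset.mem_filter] at hA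
        obtain ⟨hAF, hiA⟩ := hA
        obtain ⟨h1, h2⟩ := hF A hAF
        refine ⟨?_, ?_⟩
        · intro j hj
          obtain ⟨hji, hjA⟩ := Finset.mem_erase.1 hj
          rcases List.mem_cons.1 (h1 j hjA) with h | h
          · exact absurd h hji
          · exact h
        · have h3 := h2.2
          rw [if_pos (Finset.mem_coe.2 hiA)] at h3
          refine good_count_congr ends _ _ l _ ?_ h3
          intro j hj
          rw [Finset.mem_coe, Finset.mem_coe, Finset.mem_erase]
          constructor
          · intro h
            exact ⟨fun h4 => hi (h4 ▸ hj), h⟩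
          · intro h
            exact h.2
      rw [hPb, hsplit]
      push_cast
      linarith


end

end Pool.Agent.Helper96.Tau.P_good_count

namespace Pool.Agent.Helper96.Tau

alias good_count := P_good_count.good_count

end Pool.Agent.Helper96.Tau
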