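import Pool.Agent.Helper96.Tau.Defs
import Pool.Agent.Helper96.Tau.P_sp_empty
import Pool.Agent.Helper96.Tau.P_sp_insert
import Pool.Agent.Helper96.Tau.P_sp_mono

set_option autoImplicit false


namespace Pool.Agent.Helper96.Tau.P_good_of_blocks

open Pool.Agent.Helper96.Tau
open scoped Classical

noncomputable section

















theorem good_of_split {V ι : Type} (ends : ι → V × V) (A : Set ι) (l : List ι) : ∀ (P : Set ι),
    (∀ (l' : List ι) (i : ι) (l'' : List ι), l = l' ++ i :: l'' →
      ¬ sp ends (A ∩ (P ∪ {j | j ∈ l'})) (ends i).1 (ends i).2) →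
    Good ends l (sp ends (A ∩ P)) A := by
  induction l with
  | nil => intro P _; trivial
  | cons i l ih =>
    intro P h
    have hP : P ∪ {j | j ∈ ([] : List ι)} = P := by simp
    have hi := h [] i l rfl
    rw [hP] at hi
    have hrec : Good ends l (sp ends (A ∩ insert i P)) A := by
      apply ih
      intro l' j l'' hl
      have h2 := h (i :: l') j l'' (by rw [hl]; rfl)
      have h3 : P ∪ {j | j ∈ i :: l'} = insert i P ∪ {j | j ∈ l'} := by
        ext x
        simp only [Set.mem_union, Set.mem_setOf_eq, List.mem_cons, Set.mem_insert_iff]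
        tauto
      rw [h3] at h2
      exact h2
    refine ⟨hi, ?_⟩
    split_ifs with hA
    · rw [← sp_insert]
      have h4 : insert i (A ∩ P) = A ∩ insert i P := by
        ext x
        simp only [Set.mem_inter_iff, Set.mem_insert_iff]
        constructor
        · rintro (h | h)
          · exact ⟨h ▸ hA, Or.inl h⟩
          · exact ⟨h.1, Or.inr h.2⟩
        · rintro ⟨h1, h | h⟩
          · exact Or.inl h
          · exact Or.inr ⟨h1, h⟩
      rw [h4]
      exact hrec
    · have h4 : A ∩ P = A ∩ insert i P := by
        ext x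
        simp only [Set.mem_inter_iff, Set.mem_insert_iff]
        constructor
        · rintro ⟨h1, h2⟩
          exact ⟨h1, Or.inr h2⟩
        · rintro ⟨h1, h | h⟩
          · exact absurd (h ▸ h1) hA
          · exact ⟨h1, h⟩
      rw [h4]
      exact hrec

theorem good_of_blocks {V ι : Type} (ends : ι → V × V) (hloop : ∀ i, (ends i).1 ≠ (ends i).2)
    (l0 l1 l2 : List ι) (hnd : (l0 ++ l1 ++ l2).Nodup) (A : Finset ι) (hA : Indep ends A)
    (h0 : ∀ i ∈ l0, i ∉ A)
    (h1 : ∀ i ∈ l1, i ∉ A → ¬ sp ends {a | a ∈ A ∧ a ∈ l1} (ends i).1 (ends i).2)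
    (h2 : ∀ i ∈ l2, i ∈ A) :
    Good ends (l0 ++ l1 ++ l2) ⊥ (A : Set ι) := by
  have key : Good ends (l0 ++ l1 ++ l2) (sp ends ((A : Set ι) ∩ ∅)) (A : Set ι) := by
    apply good_of_split
    intro l' i l'' hl hsp
    rw [Set.empty_union] at hsp
    rw [hl] at hnd
    have hil' : i ∉ l' := by
      intro hmem
      have := List.disjoint_of_nodup_append hnd
      exact this hmem (List.mem_cons_self)
    have himem : i ∈ l0 ++ l1 ++ l2 := by
      rw [hl]; simp
    by_cases hiA : i ∈ A
    · apply hA i hiA
      refine sp_mono ends _ _ ?_ _ _ hsp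
      rintro b ⟨hb1, hb2⟩
      refine ⟨hb1, ?_⟩
      rintro rfl
      exact hil' hb2
    · have hi2 : i ∉ l2 := fun h => hiA (h2 i h)
      rcases List.append_eq_append_iff.1 hl with ⟨a', ha1, ha2⟩ | ⟨c', hc1, hc2⟩
      · apply hi2
        rw [ha2]; simp
      · have hsub : ∀ b ∈ l', b ∈ A → b ∈ l1 := by
          intro b hb hbA
          have hb' : b ∈ l0 ++ l1 := by rw [hc1]; exact List.mem_append_left _ hb
          rcases List.mem_append.1 hb' with h | h
          · exact absurd hbA (h0 b h)
          · exact h
        by_cases hi1 : i ∈ l1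
        · apply h1 i hi1 hiA
          refine sp_mono ends _ _ ?_ _ _ hsp
          rintro b ⟨hb1, hb2⟩
          exact ⟨hb1, hsub b hb2 hb1⟩
        · have hi0 : i ∈ l0 := by
            simp only [List.mem_append] at himem
            tauto
          rw [List.append_assoc] at hl
          have hemp : (A : Set ι) ∩ {j | j ∈ l'} = ∅ := by
            rcases List.append_eq_append_iff.1 hl with ⟨a', ha1, ha2⟩ | ⟨c'', hd1, hd2⟩
            · exfalso
              apply hil'
              rw [ha1]; exact List.mem_append_left _ hi0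
            · ext b
              simp only [Set.mem_inter_iff, Set.mem_setOf_eq, Set.mem_empty_iff_false, iff_false]
              rintro ⟨hb1, hb2⟩
              refine h0 b ?_ hb1
              rw [hd1]; exact List.mem_append_left _ hb2
          rw [hemp, sp_empty] at hsp
          exact hloop i hsp
  rw [Set.inter_empty, sp_empty] at key
  exact key


end

end Pool.Agent.Helper96.Tau.P_good_of_blocks

namespace Pool.Agent.Helper96.Tau

alias good_of_blocks := P_good_of_blocks.good_of_blocks

end Pool.Agent.Helper96.Tau
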