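import Pool.Agent.Helper96.Tau.Defs
import Pool.Agent.Helper96.Tau.P_good_count
import Pool.Agent.Helper96.Tau.P_good_of_blocks
import Pool.Agent.Helper96.Tau.P_Pb_perm

set_option autoImplicit false


namespace Pool.Agent.Helper96.Tau.P_goodlab_count

open Pool.Agent.Helper96.Tau
open scoped Classical

noncomputable section

















theorem goodlab_count {V ι : Type} [Fintype V] [Fintype ι] (ends : ι → V × V)
    (hloop : ∀ i, (ends i).1 ≠ (ends i).2) (k : ℕ) (x : ι → Fin (k + 2)) :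
    (Nat.card {A : Finset ι // Indep ends A ∧ GoodLab ends k A x} : ℝ) ≤ PbG 1 ends := by
  have hne : (0 : Fin (k + 2)) ≠ Fin.last (k + 1) := by
    intro h
    have := congrArg Fin.val h
    simp at this
  obtain ⟨L, hL⟩ : ∃ L : List ι, L = (Finset.univ : Finset ι).toList := ⟨_, rfl⟩
  have hLn : L.Nodup := by rw [hL]; exact Finset.nodup_toList _
  have hLm : ∀ i, i ∈ L := by intro i; rw [hL, Finset.mem_toList]; exact Finset.mem_univ i
  obtain ⟨l0, hl0⟩ : ∃ l0 : List ι, l0 = L.filter (fun i => decide (x i = 0)) := ⟨_, rfl⟩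
  obtain ⟨l1, hl1⟩ : ∃ l1 : List ι,
    l1 = L.filter (fun i => decide (x i ≠ 0 ∧ x i ≠ Fin.last (k + 1))) := ⟨_, rfl⟩
  obtain ⟨l2, hl2⟩ : ∃ l2 : List ι, l2 = L.filter (fun i => decide (x i = Fin.last (k + 1))) :=
    ⟨_, rfl⟩
  have m0 : ∀ i, i ∈ l0 ↔ x i = 0 := by
    intro i; rw [hl0, List.mem_filter]; simp [hLm i]
  have m1 : ∀ i, i ∈ l1 ↔ (x i ≠ 0 ∧ x i ≠ Fin.last (k + 1)) := by
    intro i; rw [hl1, List.mem_filter]; simp [hLm i]
  have m2 : ∀ i, i ∈ l2 ↔ x i = Fin.last (k + 1) := by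
    intro i; rw [hl2, List.mem_filter]; simp [hLm i]
  have hnd : (l0 ++ l1 ++ l2).Nodup := by
    refine List.Nodup.append (List.Nodup.append ?_ ?_ ?_) ?_ ?_
    · rw [hl0]; exact hLn.filter _
    · rw [hl1]; exact hLn.filter _
    · intro i h h'
      exact ((m1 i).1 h').1 ((m0 i).1 h)
    · rw [hl2]; exact hLn.filter _
    · intro i h h'
      have h2 := (m2 i).1 h'
      rcases List.mem_append.1 h with h | h
      · exact hne (((m0 i).1 h).symm.trans h2)
      · exact ((m1 i).1 h).2 h2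
  have hall : ∀ i, i ∈ l0 ++ l1 ++ l2 := by
    intro i
    rw [List.mem_append, List.mem_append, m0, m1, m2]
    by_cases h0 : x i = 0
    · exact Or.inl (Or.inl h0)
    · by_cases h2 : x i = Fin.last (k + 1)
      · exact Or.inr h2
      · exact Or.inl (Or.inr ⟨h0, h2⟩)
  have hperm : L.Perm (l0 ++ l1 ++ l2) := by
    rw [List.perm_ext_iff_of_nodup hLn hnd]
    intro i
    exact ⟨fun _ => hall i, fun _ => hLm i⟩
  have hPb : PbG 1 ends = Pb 1 ((l0 ++ l1 ++ l2).map ends) ⊥ := by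
    unfold PbG el
    rw [← hL]
    exact Pb_perm 1 _ _ (hperm.map ends) ⊥
  rw [hPb, Nat.card_eq_fintype_card, Fintype.card_subtype]
  refine good_count ends (l0 ++ l1 ++ l2) hnd ⊥ _ ?_
  intro A hA
  rw [Finset.mem_filter] at hA
  obtain ⟨_, hI, hG1, hG2⟩ := hA
  refine ⟨fun i _ => hall i, good_of_blocks ends hloop l0 l1 l2 hnd A hI ?_ ?_ ?_⟩
  · intro i hi hiA
    exact hG1 i hiA ((m0 i).1 hi)
  · intro i hi hiA hsp
    refine (hG2 i hiA).2 ((m1 i).1 hi).1 ?_
    have hmono : ∀ a b : V, (∃ j ∈ ({a | a ∈ A ∧ a ∈ l1} : Set ι), ends j = (a, b)) →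
        (∃ j ∈ ({a | a ∈ A ∧ x a ≠ Fin.last (k + 1)} : Set ι), ends j = (a, b)) := by
      rintro a b ⟨j, ⟨hj1, hj2⟩, hj3⟩
      exact ⟨j, ⟨hj1, ((m1 j).1 hj2).2⟩, hj3⟩
    exact Relation.EqvGen.mono hmono _ _ hsp
  · intro i hi
    by_contra hiA
    exact (hG2 i hiA).1 ((m2 i).1 hi)


end

end Pool.Agent.Helper96.Tau.P_goodlab_count

namespace Pool.Agent.Helper96.Tau

alias goodlab_count := P_goodlab_count.goodlab_count

end Pool.Agent.Helper96.Tau
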