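import Pool.Agent.Helper96.Tau.Defs
import Pool.Agent.Helper96.Tau.P_fund_set
import Pool.Agent.Helper96.Tau.P_sp_mono

set_option autoImplicit false


namespace Pool.Agent.Helper96.Tau.P_lab_count

open Pool.Agent.Helper96.Tau
open scoped Classical

noncomputable section














theorem card_imp_zero (k : ℕ) (P : Prop) :
    Nat.card {l : Fin (k + 1) // P → l = 0} = if P then 1 else k + 1 := by
  by_cases hP : P
  · rw [if_pos hP]
    have : {l : Fin (k + 1) // P → l = 0} ≃ Unit :=
      { toFun := fun _ => ()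
        invFun := fun _ => ⟨0, fun _ => rfl⟩
        left_inv := fun l => Subtype.ext (l.2 hP).symm
        right_inv := fun _ => rfl }
    rw [Nat.card_congr this]
    simp
  · rw [if_neg hP]
    have : {l : Fin (k + 1) // P → l = 0} ≃ Fin (k + 1) :=
      { toFun := fun l => l.1
        invFun := fun l => ⟨l, fun h => absurd h hP⟩
        left_inv := fun l => rfl
        right_inv := fun _ => rfl }
    rw [Nat.card_congr this]
    simp

/-- the spanning condition in terms of the labels on `A` -/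
def SS {V ι : Type} (ends : ι → V × V) (k : ℕ) (A : Finset ι) (y : {i // i ∈ A} → Fin (k + 1))
    (i : ι) : Prop :=
  sp ends {a | ∃ h : a ∈ A, y ⟨a, h⟩ ≠ Fin.last k} (ends i).1 (ends i).2

theorem good_card_ge {V ι : Type} [Fintype ι] (ends : ι → V × V) (k : ℕ) (A : Finset ι) :
    ∑ y : {i // i ∈ A} → Fin (k + 1), ∏ i : {i // i ∉ A}, (if SS ends k A y i.1 then 1 else k + 1) ≤
      Nat.card {x : ι → Fin (k + 2) // GoodLab ends k A x} := by
  have h1 : ∑ y : {i // i ∈ A} → Fin (k + 1), ∏ i : {i // i ∉ A},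
      (if SS ends k A y i.1 then 1 else k + 1) =
      Nat.card (Σ y : {i // i ∈ A} → Fin (k + 1), ∀ i : {i // i ∉ A},
        {l : Fin (k + 1) // SS ends k A y i.1 → l = 0}) := by
    rw [Nat.card_sigma]
    refine Finset.sum_congr rfl fun y _ => ?_
    rw [Nat.card_pi]
    refine Finset.prod_congr rfl fun i _ => ?_
    rw [card_imp_zero]
  rw [h1]
  obtain ⟨X, hXA, hXF⟩ : ∃ X : (Σ y : {i // i ∈ A} → Fin (k + 1), ∀ i : {i // i ∉ A},
        {l : Fin (k + 1) // SS ends k A y i.1 → l = 0}) → ι → Fin (k + 2),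
      (∀ p i (h : i ∈ A), X p i = (p.1 ⟨i, h⟩).succ) ∧
      (∀ p i (h : i ∉ A), X p i = (p.2 ⟨i, h⟩).1.castSucc) :=
    ⟨fun p i => if h : i ∈ A then (p.1 ⟨i, h⟩).succ else (p.2 ⟨i, h⟩).1.castSucc,
      fun p i h => by simp only [dif_pos h], fun p i h => by simp only [dif_neg h]⟩
  have hgood : ∀ p, GoodLab ends k A (X p) := by
    intro p
    refine ⟨fun i hi => ?_, fun i hi => ⟨?_, ?_⟩⟩
    · rw [hXA p i hi]; exact Fin.succ_ne_zero _
    · rw [hXF p i hi]; exact (Fin.castSucc_lt_last _).ne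
    · intro h0 hsp
      apply h0
      rw [hXF p i hi]
      have hset : {a | a ∈ A ∧ X p a ≠ Fin.last (k + 1)} =
          {a | ∃ h : a ∈ A, p.1 ⟨a, h⟩ ≠ Fin.last k} := by
        ext a
        constructor
        · rintro ⟨ha, h2⟩
          refine ⟨ha, fun h3 => h2 ?_⟩
          rw [hXA p a ha, h3, Fin.succ_last]
        · rintro ⟨ha, h2⟩
          refine ⟨ha, fun h3 => h2 ?_⟩
          rw [hXA p a ha, ← Fin.succ_last] at h3
          exact Fin.succ_injective _ h3
      rw [hset] at hsp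
      have := (p.2 ⟨i, hi⟩).2 hsp
      rw [this]
      rfl
  refine Nat.card_le_card_of_injective (fun p => (⟨X p, hgood p⟩ :
    {x : ι → Fin (k + 2) // GoodLab ends k A x})) ?_
  rintro ⟨y, z⟩ ⟨y', z'⟩ h
  have hX : X ⟨y, z⟩ = X ⟨y', z'⟩ := congrArg Subtype.val h
  have hy : y = y' := by
    funext ⟨i, hi⟩
    have := congrFun hX i
    rw [hXA _ _ hi, hXA _ _ hi] at this
    exact Fin.succ_injective _ this
  subst hy
  have hz : z = z' := by
    funext ⟨i, hi⟩
    have := congrFun hX i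
    rw [hXF _ _ hi, hXF _ _ hi] at this
    exact Subtype.ext (Fin.castSucc_injective _ this)
  rw [hz]

theorem sum_S_le {V ι : Type} [Fintype ι] (ends : ι → V × V) (k g : ℕ) (hk : 1 ≤ k)
    (hg : HasGirth ends g) (A : Finset ι) (hA : Indep ends A) (i : ι) (hi : i ∉ A) :
    ∑ y : {i // i ∈ A} → Fin (k + 1), (if SS ends k A y i then (1 : ℝ) else 0) ≤
      ((k : ℝ) + 1) ^ Fintype.card {i // i ∈ A} * ((k : ℝ) / ((k : ℝ) + 1)) ^ g := by
  have hk0 : (0 : ℝ) < (k : ℝ) + 1 := by positivity
  have hρ0 : 0 ≤ (k : ℝ) / ((k : ℝ) + 1) := by positivity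
  have hρ1 : (k : ℝ) / ((k : ℝ) + 1) ≤ 1 := by
    rw [div_le_one hk0]; linarith
  by_cases hs : sp ends {a | a ∈ A} (ends i).1 (ends i).2
  · obtain ⟨X, hXA, hXg, hX⟩ := fund_set ends g hg A hA i hi hs
    calc ∑ y : {i // i ∈ A} → Fin (k + 1), (if SS ends k A y i then (1 : ℝ) else 0)
        ≤ ∑ y : {i // i ∈ A} → Fin (k + 1), ∏ a : {i // i ∈ A},
          (if a.1 ∈ X then (if y a = Fin.last k then (0 : ℝ) else 1) else 1) := by
          refine Finset.sum_le_sum fun y _ => ?_
          by_cases hS : SS ends k A y i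
          · rw [if_pos hS]
            refine le_of_eq (Finset.prod_eq_one fun a _ => ?_).symm
            by_cases ha : a.1 ∈ X
            · rw [if_pos ha, if_neg]
              obtain ⟨h1, h2⟩ := hX _ (fun b hb => hb.1) hS a.1 ha
              exact h2
            · rw [if_neg ha]
          · rw [if_neg hS]
            refine Finset.prod_nonneg fun a _ => ?_
            split_ifs <;> norm_num
      _ = ∏ a : {i // i ∈ A}, ∑ l : Fin (k + 1),
          (if a.1 ∈ X then (if l = Fin.last k then (0 : ℝ) else 1) else 1) := by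
          rw [Finset.prod_univ_sum, Fintype.piFinset_univ]
      _ = ∏ a : {i // i ∈ A}, (((k : ℝ) + 1) *
          (if a.1 ∈ X then ((k : ℝ) / ((k : ℝ) + 1)) else 1)) := by
          refine Finset.prod_congr rfl fun a _ => ?_
          by_cases ha : a.1 ∈ X
          · simp only [if_pos ha]
            rw [Fin.sum_univ_castSucc]
            have h1 : ∀ l : Fin k, (if (Fin.castSucc l) = Fin.last k then (0 : ℝ) else 1) = 1 :=
              fun l => if_neg (Fin.castSucc_lt_last l).ne
            simp only [h1, if_true, Finset.sum_const, Finset.card_univ, Fintype.card_fin,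
              nsmul_eq_mul, mul_one, add_zero]
            field_simp
          · simp only [if_neg ha]
            simp
      _ = ((k : ℝ) + 1) ^ Fintype.card {i // i ∈ A} *
          ((k : ℝ) / ((k : ℝ) + 1)) ^ (Finset.univ.filter fun a : {i // i ∈ A} => a.1 ∈ X).card := by
          rw [Finset.prod_mul_distrib, Finset.prod_const, Finset.card_univ, Finset.prod_ite,
            Finset.prod_const, Finset.prod_const_one, mul_one]
      _ ≤ ((k : ℝ) + 1) ^ Fintype.card {i // i ∈ A} * ((k : ℝ) / ((k : ℝ) + 1)) ^ g := by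
          refine mul_le_mul_of_nonneg_left ?_ (by positivity)
          refine pow_le_pow_of_le_one hρ0 hρ1 ?_
          refine hXg.trans ?_
          have h1 : X ⊆ (Finset.univ.filter fun a : {i // i ∈ A} => a.1 ∈ X).image Subtype.val := by
            intro a ha
            rw [Finset.mem_image]
            exact ⟨⟨a, hXA ha⟩, Finset.mem_filter.2 ⟨Finset.mem_univ _, ha⟩, rfl⟩
          exact (Finset.card_le_card h1).trans Finset.card_image_le
  · refine le_trans (le_of_eq (Finset.sum_eq_zero fun y _ => ?_)) (by positivity)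
    rw [if_neg]
    intro hS
    apply hs
    refine sp_mono ends _ _ ?_ _ _ hS
    rintro a ⟨ha, -⟩
    exact ha

theorem lab_count {V ι : Type} [Fintype ι] (ends : ι → V × V) (k g : ℕ) (hk : 1 ≤ k)
    (hg : HasGirth ends g) (A : Finset ι) (hA : Indep ends A) :
    ((k : ℝ) + 1) ^ Fintype.card ι *
        Real.exp (-(Real.log ((k : ℝ) + 1) * (Fintype.card ι : ℝ) * ((k : ℝ) / ((k : ℝ) + 1)) ^ g)) ≤
      (Nat.card {x : ι → Fin (k + 2) // GoodLab ends k A x} : ℝ) := by
  have hk0 : (0 : ℝ) < (k : ℝ) + 1 := by positivity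
  obtain ⟨c, hc⟩ : ∃ c : ℝ, c = Real.log ((k : ℝ) + 1) := ⟨_, rfl⟩
  have hc0 : 0 ≤ c := by
    rw [hc]; exact Real.log_nonneg (by have : (0 : ℝ) ≤ k := Nat.cast_nonneg k; linarith)
  have hexpc : ((k : ℝ) + 1) * Real.exp (-c) = 1 := by
    rw [hc, Real.exp_neg, Real.exp_log hk0]; field_simp
  obtain ⟨R, hR⟩ : ∃ R : ℝ, R = ((k : ℝ) / ((k : ℝ) + 1)) ^ g := ⟨_, rfl⟩
  have hR0 : 0 ≤ R := by rw [hR]; positivity
  obtain ⟨b, hb⟩ : ∃ b : ({i // i ∈ A} → Fin (k + 1)) → ℝ, ∀ y, b y =
      ∑ i : {i // i ∉ A}, (if SS ends k A y i.1 then (1 : ℝ) else 0) := ⟨_, fun _ => rfl⟩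
  have h1 := good_card_ge ends k A
  have h2 : (∑ y : {i // i ∈ A} → Fin (k + 1),
      ((k : ℝ) + 1) ^ Fintype.card {i // i ∉ A} * Real.exp (-(c * b y))) ≤
      (Nat.card {x : ι → Fin (k + 2) // GoodLab ends k A x} : ℝ) := by
    refine le_trans (le_of_eq ?_) (Nat.cast_le.2 h1)
    rw [Nat.cast_sum]
    refine Finset.sum_congr rfl fun y _ => ?_
    rw [Nat.cast_prod, hb, Finset.mul_sum, ← Finset.sum_neg_distrib, Real.exp_sum,
      ← Finset.card_univ, ← Finset.prod_const, ← Finset.prod_mul_distrib]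
    refine Finset.prod_congr rfl fun i _ => ?_
    by_cases hS : SS ends k A y i.1
    · rw [if_pos hS, if_pos hS, mul_one, hexpc]; simp
    · rw [if_neg hS, if_neg hS]; simp
  refine le_trans ?_ h2
  rw [← Finset.mul_sum]
  have hcardA : Fintype.card {i // i ∈ A} + Fintype.card {i // i ∉ A} = Fintype.card ι := by
    have := Fintype.card_subtype_compl (fun i => i ∈ A)
    have h4 : Fintype.card {i // i ∈ A} ≤ Fintype.card ι := Fintype.card_subtype_le _
    omega
  have hsumb : ∑ y : {i // i ∈ A} → Fin (k + 1), b y ≤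
      (Fintype.card ι : ℝ) * (((k : ℝ) + 1) ^ Fintype.card {i // i ∈ A} * R) := by
    calc ∑ y : {i // i ∈ A} → Fin (k + 1), b y
        = ∑ i : {i // i ∉ A}, ∑ y : {i // i ∈ A} → Fin (k + 1),
            (if SS ends k A y i.1 then (1 : ℝ) else 0) := by
          rw [Finset.sum_comm]
          exact Finset.sum_congr rfl fun y _ => hb y
      _ ≤ ∑ i : {i // i ∉ A}, (((k : ℝ) + 1) ^ Fintype.card {i // i ∈ A} * R) := by
          refine Finset.sum_le_sum fun i _ => ?_
          rw [hR]
          exact sum_S_le ends k g hk hg A hA i.1 i.2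
      _ = (Fintype.card {i // i ∉ A} : ℝ) * (((k : ℝ) + 1) ^ Fintype.card {i // i ∈ A} * R) := by
          rw [Finset.sum_const, Finset.card_univ, nsmul_eq_mul]
      _ ≤ _ := by
          refine mul_le_mul_of_nonneg_right ?_ (by positivity)
          exact_mod_cast Fintype.card_subtype_le _
  obtain ⟨B, hB⟩ : ∃ B : ℝ, B = (Fintype.card ι : ℝ) * R := ⟨_, rfl⟩
  have hcardfun : (∑ _y : {i // i ∈ A} → Fin (k + 1), (1 : ℝ)) =
      ((k : ℝ) + 1) ^ Fintype.card {i // i ∈ A} := by
    rw [Finset.sum_const, Finset.card_univ, Fintype.card_fun, Fintype.card_fin, nsmul_eq_mul,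
      mul_one]
    push_cast
    ring
  have h3 : ((k : ℝ) + 1) ^ Fintype.card {i // i ∈ A} * Real.exp (-(c * B)) ≤
      ∑ y : {i // i ∈ A} → Fin (k + 1), Real.exp (-(c * b y)) := by
    have h5 : ∀ y, Real.exp (-(c * B)) * (1 + c * B - c * b y) ≤ Real.exp (-(c * b y)) := by
      intro y
      have h6 := Real.add_one_le_exp (c * B - c * b y)
      have h7 : Real.exp (-(c * b y)) = Real.exp (-(c * B)) * Real.exp (c * B - c * b y) := by
        rw [← Real.exp_add]; congr 1; ring
      rw [h7]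
      refine mul_le_mul_of_nonneg_left ?_ (Real.exp_pos _).le
      linarith
    refine le_trans ?_ (Finset.sum_le_sum fun y _ => h5 y)
    rw [← Finset.mul_sum, mul_comm]
    refine mul_le_mul_of_nonneg_left ?_ (Real.exp_pos _).le
    have h8 : ∑ y : {i // i ∈ A} → Fin (k + 1), (1 + c * B - c * b y) =
        (1 + c * B) * ((k : ℝ) + 1) ^ Fintype.card {i // i ∈ A} -
          c * ∑ y : {i // i ∈ A} → Fin (k + 1), b y := by
      rw [← hcardfun, Finset.mul_sum, Finset.mul_sum, ← Finset.sum_sub_distrib]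
      refine Finset.sum_congr rfl fun y _ => by ring
    rw [h8]
    have h9 := mul_le_mul_of_nonneg_left hsumb hc0
    have h10 : c * ((Fintype.card ι : ℝ) * (((k : ℝ) + 1) ^ Fintype.card {i // i ∈ A} * R)) =
        c * B * ((k : ℝ) + 1) ^ Fintype.card {i // i ∈ A} := by rw [hB]; ring
    rw [h10] at h9
    linarith
  calc ((k : ℝ) + 1) ^ Fintype.card ι *
        Real.exp (-(Real.log ((k : ℝ) + 1) * (Fintype.card ι : ℝ) * ((k : ℝ) / ((k : ℝ) + 1)) ^ g))
      = ((k : ℝ) + 1) ^ Fintype.card {i // i ∉ A} *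
        (((k : ℝ) + 1) ^ Fintype.card {i // i ∈ A} * Real.exp (-(c * B))) := by
        rw [← hcardA, pow_add, ← hc, ← hR, hB, ← hcardA]
        rw [mul_assoc c]
        ring
    _ ≤ _ := mul_le_mul_of_nonneg_left h3 (by positivity)


end

end Pool.Agent.Helper96.Tau.P_lab_count

namespace Pool.Agent.Helper96.Tau

alias lab_count := P_lab_count.lab_count

end Pool.Agent.Helper96.Tau
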