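import Pool.Agent.Helper96.Tau.Defs

set_option autoImplicit false


namespace Pool.Agent.Helper96.Tau.P_laguerre0

open Pool.Agent.Helper96.Tau
open scoped Classical

noncomputable section






theorem laguerre0_aux (n : ℕ) : ∀ (P : Polynomial ℝ), P.natDegree = n →
    (∀ z : ℂ, Polynomial.aeval z P = 0 → z.im = 0) → ∀ t : ℝ,
    P.eval t * (Polynomial.derivative (Polynomial.derivative P)).eval t ≤
      ((Polynomial.derivative P).eval t) ^ 2 := by
  induction n with
  | zero =>
    intro P hP _ t
    rw [Polynomial.eq_C_of_natDegree_eq_zero hP]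
    simp
  | succ n ih =>
    intro P hP h t
    have hP0 : P ≠ 0 := by
      rintro rfl
      simp at hP
    have hdeg : P.degree ≠ 0 := by
      rw [Polynomial.degree_eq_natDegree hP0, hP]
      exact_mod_cast Nat.succ_ne_zero n
    obtain ⟨z, hz⟩ := IsAlgClosed.exists_aeval_eq_zero ℂ P hdeg
    have hzim := h z hz
    have hza : z = algebraMap ℝ ℂ z.re := by
      apply Complex.ext
      · simp
      · simp [hzim]
    have hroot : P.eval z.re = 0 := by
      rw [hza, Polynomial.aeval_algebraMap_apply] at hz
      have h1 : (Polynomial.aeval z.re P : ℝ) = 0 := by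
        apply Complex.ofReal_injective
        simpa using hz
      rwa [Polynomial.coe_aeval_eq_eval] at h1
    obtain ⟨Q, hQ⟩ := Polynomial.dvd_iff_isRoot.2 hroot
    have hQ0 : Q ≠ 0 := by
      rintro rfl
      rw [mul_zero] at hQ
      exact hP0 hQ
    have hQn : Q.natDegree = n := by
      rw [hQ, Polynomial.natDegree_mul (Polynomial.X_sub_C_ne_zero _) hQ0,
        Polynomial.natDegree_X_sub_C] at hP
      omega
    have hQr : ∀ w : ℂ, Polynomial.aeval w Q = 0 → w.im = 0 := by
      intro w hw
      apply h
      rw [hQ, map_mul, hw, mul_zero]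
    have h1 := ih Q hQn hQr t
    have e0 : P.eval t = (t - z.re) * Q.eval t := by
      rw [hQ]; simp
    have e1 : (Polynomial.derivative P).eval t =
        Q.eval t + (t - z.re) * (Polynomial.derivative Q).eval t := by
      rw [hQ]; simp
    have e2 : (Polynomial.derivative (Polynomial.derivative P)).eval t =
        2 * (Polynomial.derivative Q).eval t +
          (t - z.re) * (Polynomial.derivative (Polynomial.derivative Q)).eval t := by
      rw [hQ]; simp; ring
    rw [e0, e1, e2]
    have h2 := mul_le_mul_of_nonneg_left h1 (sq_nonneg (t - z.re))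
    nlinarith [sq_nonneg (Q.eval t)]

theorem laguerre0 (P : Polynomial ℝ) (h : ∀ z : ℂ, Polynomial.aeval z P = 0 → z.im = 0) :
    P.eval 0 * (Polynomial.derivative (Polynomial.derivative P)).eval 0 ≤
      ((Polynomial.derivative P).eval 0) ^ 2 := by
  exact laguerre0_aux _ P rfl h 0


end

end Pool.Agent.Helper96.Tau.P_laguerre0

namespace Pool.Agent.Helper96.Tau

alias laguerre0 := P_laguerre0.laguerre0

end Pool.Agent.Helper96.Tau
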