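import Pool.Agent.Helper96.Tau.Defs

set_option autoImplicit false


namespace Pool.Agent.Helper96.Tau.P_compat_ps

open Pool.Agent.Helper96.Tau
open scoped Classical

noncomputable section






/-- the pointer structure of a colour assignment -/
def compatQ {Γ : Type} [Group Γ] {d N : ℕ} (s : Fin d → Γ) (π : Γ × Fin d → Equiv.Perm (Fin N))
    (f : Bool × Γ × Fin N → Option (Fin d)) (v : Bool × Γ × Fin N) : Option (Γ × Fin d × Fin N) :=
  (f v).map (fun c => if v.1 = true then
    (v.2.1 * s c, c, (π (v.2.1 * s c, c)).symm v.2.2) else (v.2.1, c, v.2.2))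

theorem compatQ_col {Γ : Type} [Group Γ] {d N : ℕ} (s : Fin d → Γ)
    (π : Γ × Fin d → Equiv.Perm (Fin N)) (f : Bool × Γ × Fin N → Option (Fin d))
    (v : Bool × Γ × Fin N) : (compatQ s π f v).map (fun e => e.2.1) = f v := by
  unfold compatQ
  rw [Option.map_map]
  cases f v with
  | none => rfl
  | some c =>
    simp only [Option.map_some, Function.comp_apply]
    split_ifs <;> rfl

theorem compatQ_ne {Γ : Type} [Group Γ] {d N : ℕ} {s : Fin d → Γ}
    {π : Γ × Fin d → Equiv.Perm (Fin N)} {f : Bool × Γ × Fin N → Option (Fin d)}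
    {v : Bool × Γ × Fin N} {c : Fin d} (h1 : f v ≠ none) (h2 : f v ≠ some c) (x : Γ) (j : Fin N) :
    compatQ s π f v ≠ none ∧ compatQ s π f v ≠ some (x, c, j) := by
  have h := compatQ_col s π f v
  constructor
  · intro h3
    rw [h3] at h
    exact h1 h.symm
  · intro h3
    rw [h3] at h
    exact h2 h.symm

theorem compatQ_ps {Γ : Type} [Group Γ] {d N : ℕ} {s : Fin d → Γ}
    (hs : ∀ c, s c * s c = 1) {π : Γ × Fin d → Equiv.Perm (Fin N)}
    {f : Bool × Γ × Fin N → Option (Fin d)} (h : Compat s π f) : PS (lift s π) (compatQ s π f) := by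
  rintro ⟨b, x, j⟩ i hi
  have hcol := compatQ_col s π f (b, x, j)
  rw [hi] at hcol
  obtain ⟨c, hc⟩ : ∃ c, f (b, x, j) = some c := ⟨_, hcol.symm⟩
  cases b with
  | false =>
    left
    have e : compatQ s π f (false, x, j) = some (x, c, j) := by
      unfold compatQ
      rw [hc]
      rfl
    rw [e, Option.some.injEq] at hi
    subst hi
    obtain ⟨h1, h2⟩ := (h x c j).1 hc
    exact ⟨rfl, compatQ_ne h1 h2 x j⟩
  | true =>
    right
    have e : compatQ s π f (true, x, j) = some (x * s c, c, (π (x * s c, c)).symm j) := by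
      unfold compatQ
      rw [hc]
      rfl
    rw [e, Option.some.injEq] at hi
    subst hi
    have e2 : x * s c * s c = x := by rw [mul_assoc, hs, mul_one]
    have e3 : (π (x * s c, c)) ((π (x * s c, c)).symm j) = j := Equiv.apply_symm_apply _ _
    have h3 := (h (x * s c) c ((π (x * s c, c)).symm j)).2
    rw [e2, e3] at h3
    obtain ⟨h1, h2⟩ := h3 hc
    refine ⟨?_, compatQ_ne h1 h2 _ _⟩
    show (true, x * s c * s c, (π (x * s c, c)) ((π (x * s c, c)).symm j)) = (true, x, j)
    rw [e2, e3]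

theorem compat_ps {Γ : Type} [Group Γ] [Fintype Γ] (d N : ℕ) (s : Fin d → Γ)
    (hs : ∀ c, s c * s c = 1) (π : Γ × Fin d → Equiv.Perm (Fin N)) :
    Nat.card {f : Bool × Γ × Fin N → Option (Fin d) // Compat s π f} ≤
      Nat.card {q : Bool × Γ × Fin N → Option (Γ × Fin d × Fin N) // PS (lift s π) q} := by
  classical
  apply Nat.card_le_card_of_injective
    (fun f => ⟨compatQ s π f.1, compatQ_ps hs f.2⟩)
  intro f g hfg
  have h : compatQ s π f.1 = compatQ s π g.1 := congrArg Subtype.val hfg
  apply Subtype.ext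
  funext v
  rw [← compatQ_col s π f.1 v, ← compatQ_col s π g.1 v, h]


end

end Pool.Agent.Helper96.Tau.P_compat_ps

namespace Pool.Agent.Helper96.Tau

alias compat_ps := P_compat_ps.compat_ps

end Pool.Agent.Helper96.Tau
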