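import Pool.Agent.Helper96.Tau.Defs
import Pool.Agent.Helper96.Tau.P_compat_pi
import Pool.Agent.Helper96.Tau.P_bal_count
import Pool.Agent.Helper96.Tau.P_compat_ps

set_option autoImplicit false


namespace Pool.Agent.Helper96.Tau.P_lift_avg

open Pool.Agent.Helper96.Tau
open scoped Classical

noncomputable section
















theorem la_avg_aux {A P : Type} [Fintype A] [Fintype P] [Nonempty P] (R : P → A → Prop) (Q : A → Prop)
    (K : ℕ) (M : P → ℕ)
    (h1 : ∀ f, Q f → K ≤ Nat.card {π // R π f}) (h2 : ∀ π, Nat.card {f // R π f} ≤ M π) :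
    ∃ π, Nat.card {f // Q f} * K ≤ Fintype.card P * M π := by
  classical
  have e1 : Nat.card {f // Q f} = (Finset.univ.filter Q).card := by
    rw [Nat.card_eq_fintype_card, Fintype.card_subtype]
  have e2 : ∀ f, Nat.card {π // R π f} = (Finset.univ.filter (fun π => R π f)).card := by
    intro f
    rw [Nat.card_eq_fintype_card, Fintype.card_subtype]
  have e3 : ∀ π, Nat.card {f // R π f} = (Finset.univ.filter (fun f => R π f)).card := by
    intro π
    rw [Nat.card_eq_fintype_card, Fintype.card_subtype]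
  have s1 : Nat.card {f // Q f} * K ≤ ∑ f ∈ Finset.univ.filter Q, (Finset.univ.filter (fun π => R π f)).card := by
    rw [e1, ← smul_eq_mul, ← Finset.sum_const]
    apply Finset.sum_le_sum
    intro f hf
    rw [← e2]
    exact h1 f (Finset.mem_filter.mp hf).2
  have s2 : ∑ f ∈ Finset.univ.filter Q, (Finset.univ.filter (fun π => R π f)).card ≤ ∑ π, M π := by
    have h := Finset.sum_card_bipartiteAbove_eq_sum_card_bipartiteBelow
      (s := Finset.univ.filter Q) (t := (Finset.univ : Finset P)) (r := fun f π => R π f)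
    unfold Finset.bipartiteAbove Finset.bipartiteBelow at h
    rw [h]
    apply Finset.sum_le_sum
    intro π _
    refine le_trans ?_ (h2 π)
    rw [e3]
    apply Finset.card_le_card
    intro f hf
    simp only [Finset.mem_filter, Finset.mem_univ, true_and] at hf ⊢
    exact hf.2
  by_contra hcon
  push Not at hcon
  have s3 : ∑ π : P, Fintype.card P * M π < ∑ π : P, Nat.card {f // Q f} * K := by
    apply Finset.sum_lt_sum_of_nonempty Finset.univ_nonempty
    intro π _
    exact hcon π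
  rw [← Finset.mul_sum, Finset.sum_const, Finset.card_univ, smul_eq_mul] at s3
  have s4 := Nat.lt_of_mul_lt_mul_left s3
  omega

theorem lift_avg {Γ : Type} [Group Γ] [Fintype Γ] (d z a : ℕ) (hd : 2 ≤ d) (s : Fin d → Γ)
    (hs : ∀ c, s c * s c = 1) :
    ∃ π : Γ × Fin d → Equiv.Perm (Fin (z + d * a)),
      (Qn d z a) ^ Fintype.card Γ ≤
        (Nat.card {q : Bool × Γ × Fin (z + d * a) → Option (Γ × Fin d × Fin (z + d * a)) //
          PS (lift s π) q} : ℝ) := by
  classical
  obtain ⟨π, hπ⟩ := la_avg_aux (A := Bool × Γ × Fin (z + d * a) → Option (Fin d))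
    (P := Γ × Fin d → Equiv.Perm (Fin (z + d * a))) (fun π f => Compat s π f) (Bal z a)
    (((((d - 1) * a).descFactorial a) ^ 2 * (z + d * a - 2 * a).factorial) ^ (d * Fintype.card Γ))
    (fun π => Nat.card {q : Bool × Γ × Fin (z + d * a) → Option (Γ × Fin d × Fin (z + d * a)) //
          PS (lift s π) q})
    (fun f hf => compat_pi d z a hd s f hf) (fun π => compat_ps d (z + d * a) s hs π)
  refine ⟨π, ?_⟩
  have hB := bal_count Γ d z a
  have hcard : Fintype.card (Γ × Fin d → Equiv.Perm (Fin (z + d * a))) =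
      ((z + d * a).factorial) ^ (d * Fintype.card Γ) := by
    rw [Fintype.card_fun, Fintype.card_perm, Fintype.card_prod, Fintype.card_fin, Fintype.card_fin,
      Nat.mul_comm d (Fintype.card Γ)]
  rw [hcard] at hπ
  generalize Nat.card {q : Bool × Γ × Fin (z + d * a) → Option (Γ × Fin d × Fin (z + d * a)) //
          PS (lift s π) q} = M at hπ ⊢
  generalize Nat.card {f : Bool × Γ × Fin (z + d * a) → Option (Fin d) // Bal z a f} = B at hπ hB
  have hdesc : (((d - 1) * a).factorial : ℝ) / (((d - 2) * a).factorial : ℝ) =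
      (((d - 1) * a).descFactorial a : ℝ) := by
    have hle : a ≤ (d - 1) * a := Nat.le_mul_of_pos_left a (by omega)
    have h := Nat.factorial_mul_descFactorial hle
    have he : (d - 1) * a - a = (d - 2) * a := by
      have : d - 1 = (d - 2) + 1 := by omega
      rw [this, Nat.add_mul, Nat.one_mul, Nat.add_sub_cancel]
    rw [he] at h
    rw [div_eq_iff (by positivity)]
    rw [← h]
    push_cast
    ring
  unfold Qn
  rw [hdesc]
  generalize ((d - 1) * a).descFactorial a = D at hπ ⊢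
  generalize (z + d * a - 2 * a).factorial = F at hπ ⊢
  have hN : 0 < (z + d * a).factorial := Nat.factorial_pos _
  have hz : 0 < z.factorial := Nat.factorial_pos _
  have ha : 0 < a.factorial := Nat.factorial_pos _
  generalize (z + d * a).factorial = N at hπ hB hN ⊢
  generalize z.factorial = Z at hB hz ⊢
  generalize a.factorial = W at hB ha ⊢
  generalize Fintype.card Γ = G at hπ hB ⊢
  have hN' : (0 : ℝ) < N := by exact_mod_cast hN
  have hz' : (0 : ℝ) < Z := by exact_mod_cast hz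
  have ha' : (0 : ℝ) < W := by exact_mod_cast ha
  have hB' : (N : ℝ) ^ (2 * G) ≤ ((Z : ℝ) * (W : ℝ) ^ d) ^ (2 * G) * B := by exact_mod_cast hB
  have hπ' : (B : ℝ) * ((D : ℝ) ^ 2 * F) ^ (d * G) ≤ (N : ℝ) ^ (d * G) * M := by exact_mod_cast hπ
  have e : (((N : ℝ) / ((Z : ℝ) * (W : ℝ) ^ d)) ^ 2 * (((D : ℝ)) ^ 2 * ((F : ℝ) / (N : ℝ))) ^ d) ^ G =
      ((N : ℝ) ^ (2 * G) / ((Z : ℝ) * (W : ℝ) ^ d) ^ (2 * G)) * (((D : ℝ) ^ 2 * F) ^ (d * G) / (N : ℝ) ^ (d * G)) := by
    rw [mul_pow, ← pow_mul, ← pow_mul, div_pow, ← mul_div_assoc, div_pow]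
  rw [e]
  have h3 : (N : ℝ) ^ (2 * G) / ((Z : ℝ) * (W : ℝ) ^ d) ^ (2 * G) ≤ B := by
    rw [div_le_iff₀ (by positivity)]
    linarith [hB', mul_comm (B : ℝ) (((Z : ℝ) * (W : ℝ) ^ d) ^ (2 * G))]
  calc ((N : ℝ) ^ (2 * G) / ((Z : ℝ) * (W : ℝ) ^ d) ^ (2 * G)) * (((D : ℝ) ^ 2 * F) ^ (d * G) / (N : ℝ) ^ (d * G))
      ≤ B * (((D : ℝ) ^ 2 * F) ^ (d * G) / (N : ℝ) ^ (d * G)) :=
        mul_le_mul_of_nonneg_right h3 (by positivity)
    _ = (B * ((D : ℝ) ^ 2 * F) ^ (d * G)) / (N : ℝ) ^ (d * G) := by rw [mul_div_assoc]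
    _ ≤ M := by
        rw [div_le_iff₀ (by positivity), mul_comm (M : ℝ)]
        exact hπ'


end

end Pool.Agent.Helper96.Tau.P_lift_avg

namespace Pool.Agent.Helper96.Tau

alias lift_avg := P_lift_avg.lift_avg

end Pool.Agent.Helper96.Tau
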