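import Pool.Agent.Helper96.Tau.Defs

set_option autoImplicit false


namespace Pool.Agent.Helper96.Tau.P_lift_deg

open Pool.Agent.Helper96.Tau
open scoped Classical

noncomputable section






theorem lift_deg {Γ : Type} [Group Γ] {d N : ℕ} (s : Fin d → Γ) (hs : ∀ c, s c * s c = 1)
    (π : Γ × Fin d → Equiv.Perm (Fin N)) : DegLE (lift s π) d := by
  intro v
  have hinj : Function.Injective (fun e : {e : Γ × Fin d × Fin N //
      (lift s π e).1 = v ∨ (lift s π e).2 = v} => e.1.2.1) := by
    rintro ⟨⟨x, c, j⟩, he⟩ ⟨⟨x', c', j'⟩, he'⟩ h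
    obtain ⟨b, y, i⟩ := v
    simp only at h
    subst h
    simp only [lift, Prod.mk.injEq] at he he'
    rcases he with ⟨hb, h1, h2⟩ | ⟨hb, h1, h2⟩
    · rcases he' with ⟨hb', h1', h2'⟩ | ⟨hb', h1', h2'⟩
      · simp only [Subtype.mk.injEq, Prod.mk.injEq]
        exact ⟨h1.trans h1'.symm, trivial, h2.trans h2'.symm⟩
      · rw [← hb] at hb'
        exact absurd hb' (by decide)
    · rcases he' with ⟨hb', h1', h2'⟩ | ⟨hb', h1', h2'⟩
      · rw [← hb] at hb'
        exact absurd hb' (by decide)
      · have hx : x = x' := mul_right_cancel (h1.trans h1'.symm)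
        subst hx
        have hj : j = j' := (π (x, c)).injective (h2.trans h2'.symm)
        subst hj
        rfl
  have := Nat.card_le_card_of_injective _ hinj
  simpa using this


end

end Pool.Agent.Helper96.Tau.P_lift_deg

namespace Pool.Agent.Helper96.Tau

alias lift_deg := P_lift_deg.lift_deg

end Pool.Agent.Helper96.Tau
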