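import Pool.Agent.Helper96.Tau.Defs

set_option autoImplicit false


namespace Pool.Agent.Helper96.Tau.P_lift_girth

open Pool.Agent.Helper96.Tau
open scoped Classical

noncomputable section






/-- other end of the edge of colour `c` at `w` -/
def stp {Γ : Type} [Group Γ] {d N : ℕ} (s : Fin d → Γ) (π : Γ × Fin d → Equiv.Perm (Fin N))
    (c : Fin d) : Bool × Γ × Fin N → Bool × Γ × Fin N
  | (false, x, j) => (true, x * s c, π (x, c) j)
  | (true, y, k) => (false, y * s c, (π (y * s c, c)).symm k)

/-- the edge of colour `c` at `w` -/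
def edg {Γ : Type} [Group Γ] {d N : ℕ} (s : Fin d → Γ) (π : Γ × Fin d → Equiv.Perm (Fin N))
    (c : Fin d) : Bool × Γ × Fin N → Γ × Fin d × Fin N
  | (false, x, j) => (x, c, j)
  | (true, y, k) => (y * s c, c, (π (y * s c, c)).symm k)

theorem stp_stp {Γ : Type} [Group Γ] {d N : ℕ} (s : Fin d → Γ) (hs : ∀ c, s c * s c = 1)
    (π : Γ × Fin d → Equiv.Perm (Fin N)) (c : Fin d) (w : Bool × Γ × Fin N) :
    stp s π c (stp s π c w) = w := by
  obtain ⟨b, x, j⟩ := w
  have h : x * s c * s c = x := by rw [mul_assoc, hs, mul_one]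
  cases b
  · simp only [stp, h, Equiv.symm_apply_apply]
  · simp only [stp, h, Equiv.apply_symm_apply]

theorem edg_stp {Γ : Type} [Group Γ] {d N : ℕ} (s : Fin d → Γ) (hs : ∀ c, s c * s c = 1)
    (π : Γ × Fin d → Equiv.Perm (Fin N)) (c : Fin d) (w : Bool × Γ × Fin N) :
    edg s π c (stp s π c w) = edg s π c w := by
  obtain ⟨b, x, j⟩ := w
  have h : x * s c * s c = x := by rw [mul_assoc, hs, mul_one]
  cases b
  · simp only [stp, edg, h, Equiv.symm_apply_apply]
  · simp only [stp, edg]

theorem stp_group {Γ : Type} [Group Γ] {d N : ℕ} (s : Fin d → Γ)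
    (π : Γ × Fin d → Equiv.Perm (Fin N)) (c : Fin d) (w : Bool × Γ × Fin N) :
    (stp s π c w).2.1 = w.2.1 * s c := by
  obtain ⟨b, x, j⟩ := w
  cases b <;> rfl

/-- `w` is reached from `v` by a walk avoiding `i` with colours `l` (last edge first). -/
def rch {Γ : Type} [Group Γ] {d N : ℕ} (s : Fin d → Γ) (π : Γ × Fin d → Equiv.Perm (Fin N))
    (i : Γ × Fin d × Fin N) (v : Bool × Γ × Fin N) : List (Fin d) → Bool × Γ × Fin N → Prop
  | [], w => w = v
  | c :: l, w => edg s π c w ≠ i ∧ rch s π i v l (stp s π c w)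

theorem rch_prod {Γ : Type} [Group Γ] {d N : ℕ} (s : Fin d → Γ)
    (π : Γ × Fin d → Equiv.Perm (Fin N)) (i : Γ × Fin d × Fin N) (v : Bool × Γ × Fin N)
    (l : List (Fin d)) (w : Bool × Γ × Fin N) (h : rch s π i v l w) :
    w.2.1 * (l.map s).prod = v.2.1 := by
  induction l generalizing w with
  | nil =>
    have h1 : w = v := h
    simp [h1]
  | cons c l ih =>
    have h1 := ih _ h.2
    rw [stp_group] at h1
    rw [List.map_cons, List.prod_cons, ← mul_assoc, h1]

theorem rch_chain {Γ : Type} [Group Γ] {d N : ℕ} (s : Fin d → Γ) (hs : ∀ c, s c * s c = 1)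
    (π : Γ × Fin d → Equiv.Perm (Fin N)) (i : Γ × Fin d × Fin N) (v : Bool × Γ × Fin N)
    (l : List (Fin d)) (w : Bool × Γ × Fin N) (h : rch s π i v l w)
    (hm : ∀ l', rch s π i v l' w → l.length ≤ l'.length) : l.IsChain (fun a b => a ≠ b) := by
  induction l generalizing w with
  | nil => exact List.IsChain.nil
  | cons c l ih =>
    have h2 := ih _ h.2 (fun l' hl' => by
      have := hm (c :: l') ⟨h.1, hl'⟩
      simpa using this)
    cases l with
    | nil => exact List.isChain_singleton c
    | cons c' l =>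
      refine List.isChain_cons_cons.2 ⟨?_, h2⟩
      rintro rfl
      have h3 : rch s π i v l (stp s π c (stp s π c w)) := h.2.2
      rw [stp_stp s hs] at h3
      have h4 := hm l h3
      simp only [List.length_cons] at h4
      omega

theorem lift_girth {Γ : Type} [Group Γ] {d N : ℕ} (s : Fin d → Γ) (hs : ∀ c, s c * s c = 1) (g : ℕ)
    (hred : ∀ w : List (Fin d), w ≠ [] → w.length ≤ g → w.IsChain (fun a b => a ≠ b) →
      (w.map s).prod ≠ 1)
    (π : Γ × Fin d → Equiv.Perm (Fin N)) : HasGirth (lift s π) g := by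
  rintro ⟨x, c, j⟩
  let i : Γ × Fin d × Fin N := (x, c, j)
  let v : Bool × Γ × Fin N := (true, x * s c, π (x, c) j)
  let St : Bool × Γ × Fin N → Set ℕ := fun w => {n | n = g ∨ ∃ l, l.length = n ∧ rch s π i v l w}
  have hSn : ∀ w, (St w).Nonempty := fun w => ⟨g, Or.inl rfl⟩
  have hle : ∀ w, sInf (St w) ≤ g := fun w => Nat.sInf_le (Or.inl rfl)
  have hstep : ∀ (c' : Fin d) (w : Bool × Γ × Fin N), edg s π c' w ≠ i →
      sInf (St w) ≤ sInf (St (stp s π c' w)) + 1 := by
    intro c' w hw
    rcases Nat.sInf_mem (hSn (stp s π c' w)) with h | ⟨l, hl, hr⟩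
    · rw [h]
      exact (hle w).trans (Nat.le_succ g)
    · refine Nat.sInf_le (Or.inr ⟨c' :: l, ?_, hw, hr⟩)
      rw [List.length_cons, hl]
  refine ⟨fun w => sInf (St w), ?_, ?_, ?_⟩
  · exact Nat.le_zero.1 (Nat.sInf_le (Or.inr ⟨[], rfl, rfl⟩))
  · change g ≤ sInf (St (false, x, j))
    by_contra hcon
    push Not at hcon
    rcases Nat.sInf_mem (hSn (false, x, j)) with h | ⟨l, hl, hr⟩
    · omega
    · have hch : l.IsChain (fun a b => a ≠ b) := by
        refine rch_chain s hs π i v l _ hr fun l' hl' => ?_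
        rw [hl]
        exact Nat.sInf_le (Or.inr ⟨l', rfl, hl'⟩)
      have hpr := rch_prod s π i v l _ hr
      have h1 : x * (l.map s).prod = x * s c := hpr
      have h2 : (l.map s).prod = s c := mul_left_cancel h1
      refine hred (c :: l) (List.cons_ne_nil _ _) (by rw [List.length_cons, hl]; omega) ?_ ?_
      · cases l with
        | nil => exact List.isChain_singleton c
        | cons c' l =>
          refine List.isChain_cons_cons.2 ⟨?_, hch⟩
          rintro rfl
          exact hr.1 rfl
      · rw [List.map_cons, List.prod_cons, h2, hs]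
  · rintro ⟨y, c', k⟩ hne
    change sInf (St (false, y, k)) ≤ sInf (St (true, y * s c', π (y, c') k)) + 1 ∧
      sInf (St (true, y * s c', π (y, c') k)) ≤ sInf (St (false, y, k)) + 1
    have e1 : stp s π c' (false, y, k) = (true, y * s c', π (y, c') k) := rfl
    have e2 : stp s π c' (true, y * s c', π (y, c') k) = (false, y, k) := by
      rw [← e1, stp_stp s hs]
    have e3 : edg s π c' (false, y, k) = (y, c', k) := rfl
    have e4 : edg s π c' (true, y * s c', π (y, c') k) = (y, c', k) := by
      rw [← e1, edg_stp s hs, e3]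
    constructor
    · have := hstep c' (false, y, k) (by rw [e3]; exact hne)
      rwa [e1] at this
    · have := hstep c' (true, y * s c', π (y, c') k) (by rw [e4]; exact hne)
      rwa [e2] at this


end

end Pool.Agent.Helper96.Tau.P_lift_girth

namespace Pool.Agent.Helper96.Tau

alias lift_girth := P_lift_girth.lift_girth

end Pool.Agent.Helper96.Tau
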