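import Pool.Agent.Helper96.Tau.Defs

set_option autoImplicit false


namespace Pool.Agent.Helper96.Tau.P_num_base

open Pool.Agent.Helper96.Tau
open scoped Classical

noncomputable section






theorem num_base : (3 ^ 48) ^ 2 * ((42 ^ 42) ^ 2 * 49 ^ 49) ^ 16 * (15 ^ 784) ^ 13 *
      (14 ^ 98 * 15 ^ 784) ^ 14 <
    (49 ^ 49) ^ 2 * ((45 ^ 45) ^ 2 * 43 ^ 43) ^ 16 * (15 ^ 98 * 16 ^ 784) ^ 13 * (14 ^ 784) ^ 14 := by
  decide +kernel


end

end Pool.Agent.Helper96.Tau.P_num_base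

namespace Pool.Agent.Helper96.Tau

alias num_base := P_num_base.num_base

end Pool.Agent.Helper96.Tau
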