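import Pool.Agent.Helper96.Tau.Defs

set_option autoImplicit false


namespace Pool.Agent.Helper96.Tau.P_num_loss

open Pool.Agent.Helper96.Tau
open scoped Classical

noncomputable section






theorem num_loss_lim1 (S T : ℕ) (C : ℝ) :
    Filter.Tendsto (fun k : ℕ => C * (((k : ℝ) + 1) / ((k : ℝ) + 2)) ^ T /
      (1 + 16 * (1 / ((k : ℝ) + 1))) ^ S) Filter.atTop (nhds C) := by
  have h0 := tendsto_one_div_add_atTop_nhds_zero_nat (𝕜 := ℝ)
  have h1 : Filter.Tendsto (fun k : ℕ => ((k : ℝ) + 1) / ((k : ℝ) + 2)) Filter.atTop (nhds 1) := by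
    have h2 := (h0.comp (Filter.tendsto_add_atTop_nat 1)).const_sub 1
    rw [sub_zero] at h2
    refine h2.congr fun k => ?_
    show 1 - 1 / (((k + 1 : ℕ) : ℝ) + 1) = _
    have h3 : (k : ℝ) + 2 ≠ 0 := by positivity
    push_cast
    have h4 : (k : ℝ) + 1 + 1 = k + 2 := by ring
    rw [h4]
    field_simp
    ring
  have h2 := ((h1.pow T).const_mul C).div (((h0.const_mul 16).const_add 1).pow S) (by norm_num)
  have e : C * 1 ^ T / (1 + 16 * 0) ^ S = C := by norm_num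
  rw [e] at h2
  exact h2

theorem num_loss_lim2 (S T k : ℕ) (C B y : ℝ) (hy : 0 < y) :
    Filter.Tendsto (fun g : ℕ => C * Real.exp (-(Real.log ((k : ℝ) + 1) * (T : ℝ) *
        ((k : ℝ) / ((k : ℝ) + 1)) ^ g)) *
        (B * (1 + (1 - 16 * (15 / 16 : ℝ) ^ (g - 1)) / 15) ^ T) ^ 13 /
        (1 / y) ^ ((S : ℝ) * (1 / ((g : ℝ) + 1)))) Filter.atTop
      (nhds (C * (B * (1 + 1 / 15) ^ T) ^ 13)) := by
  have h0 := tendsto_one_div_add_atTop_nhds_zero_nat (𝕜 := ℝ)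
  have hk : (k : ℝ) / ((k : ℝ) + 1) < 1 := by
    rw [div_lt_one (by positivity)]
    linarith
  have h1 : Filter.Tendsto (fun g : ℕ => ((k : ℝ) / ((k : ℝ) + 1)) ^ g) Filter.atTop (nhds 0) :=
    tendsto_pow_atTop_nhds_zero_of_lt_one (by positivity) hk
  have h2 : Filter.Tendsto (fun g : ℕ => (15 / 16 : ℝ) ^ (g - 1)) Filter.atTop (nhds 0) :=
    (tendsto_pow_atTop_nhds_zero_of_lt_one (by norm_num) (by norm_num)).comp
      (Filter.tendsto_sub_atTop_nat 1)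
  have h3 : Filter.Tendsto (fun g : ℕ => Real.exp (-(Real.log ((k : ℝ) + 1) * (T : ℝ) *
        ((k : ℝ) / ((k : ℝ) + 1)) ^ g))) Filter.atTop (nhds 1) := by
    have h4 := (Real.continuous_exp.tendsto _).comp
      ((h1.const_mul (Real.log ((k : ℝ) + 1) * (T : ℝ))).neg)
    rw [mul_zero, neg_zero, Real.exp_zero] at h4
    exact h4
  have h5 : Filter.Tendsto (fun g : ℕ => (1 / y) ^ ((S : ℝ) * (1 / ((g : ℝ) + 1))))
      Filter.atTop (nhds 1) := by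
    have h6 := ((Real.continuous_const_rpow (a := 1 / y) (by positivity)).tendsto _).comp
      (h0.const_mul (S : ℝ))
    rw [mul_zero, Real.rpow_zero] at h6
    exact h6
  have h7 : Filter.Tendsto (fun g : ℕ =>
      (B * (1 + (1 - 16 * (15 / 16 : ℝ) ^ (g - 1)) / 15) ^ T) ^ 13) Filter.atTop
      (nhds ((B * (1 + (1 - 16 * 0) / 15) ^ T) ^ 13)) :=
    ((((((h2.const_mul 16).const_sub 1).div_const 15).const_add 1).pow T).const_mul B).pow 13
  have h8 := ((h3.const_mul C).mul h7).div h5 one_ne_zero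
  have e : C * 1 * (B * (1 + (1 - 16 * 0) / 15) ^ T) ^ 13 / 1 = C * (B * (1 + 1 / 15) ^ T) ^ 13 := by
    norm_num
  rw [e] at h8
  exact h8

theorem num_loss_alg (c n S T : ℕ) (Q Y Z a b E B D X : ℝ) (hY : 0 < Y) (hZ : 0 < Z)
    (hb : 0 < b) (hX : 0 < X) :
    (Q ^ c / (Y ^ n * Z ^ (S * c)) * (a ^ (T * c) * E ^ c / b ^ (T * c))) *
      (B ^ c * D ^ (T * c)) ^ 13 =
    (Q / Z ^ S * (a / b) ^ T * E * (B * D ^ T) ^ 13 / X) ^ c * (X ^ c / Y ^ n) := by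
  have h1 : (B ^ c * D ^ (T * c)) ^ 13 = ((B * D ^ T) ^ 13) ^ c := by
    rw [pow_mul, ← mul_pow, ← pow_mul, ← pow_mul, mul_comm c 13]
  rw [h1, pow_mul Z, pow_mul a, pow_mul b, div_pow a b T]
  have hz : Z ^ S ≠ 0 := (pow_pos hZ _).ne'
  have hbT : b ^ T ≠ 0 := (pow_pos hb _).ne'
  generalize (B * D ^ T) ^ 13 = M
  generalize Z ^ S = zs at *
  generalize b ^ T = tb at *
  generalize a ^ T = ta at *
  simp only [div_pow, mul_pow]
  have hXc : X ^ c ≠ 0 := (pow_pos hX _).ne'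
  have hYn : Y ^ n ≠ 0 := (pow_pos hY _).ne'
  have hzc : zs ^ c ≠ 0 := pow_ne_zero _ hz
  have hbc : tb ^ c ≠ 0 := pow_ne_zero _ hbT
  field_simp

theorem num_loss (t : ℕ) (ht : 0 < t) (A B Q : ℝ) (hA : 0 < A) (hB : 0 < B) (hQ : 0 < Q)
    (h : A < Q * (B * (1 + 1 / 15) ^ (784 * t)) ^ 13) :
    ∃ (k g : ℕ) (y : ℝ), 1 ≤ k ∧ 1 ≤ g ∧ 0 < y ∧ y ≤ 1 ∧ (16 : ℝ) * (15 / 16) ^ (g - 1) ≤ 1 ∧
      ∀ c : ℕ, 0 < c →
        A ^ c < (Q ^ c / ((1 / y) ^ ((98 * t * c) / (g + 1)) * (1 + 16 * y) ^ (98 * t * c)) *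
            (((k : ℝ) + 1) ^ (784 * t * c) *
              Real.exp (-(Real.log ((k : ℝ) + 1) * ((784 * t * c : ℕ) : ℝ) *
                ((k : ℝ) / ((k : ℝ) + 1)) ^ g)) / ((k : ℝ) + 2) ^ (784 * t * c))) *
          (B ^ c * (1 + (1 - 16 * (15 / 16) ^ (g - 1)) / 15) ^ (784 * t * c)) ^ 13 := by
  have h1 := num_loss_lim1 (98 * t) (784 * t) (Q * (B * (1 + 1 / 15) ^ (784 * t)) ^ 13)
  obtain ⟨k, hk1, hkA⟩ := ((Filter.eventually_ge_atTop 1).and (h1.eventually (lt_mem_nhds h))).exists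
  have hk0 : (0 : ℝ) < (k : ℝ) + 1 := by positivity
  set y : ℝ := 1 / ((k : ℝ) + 1) with hy
  have hy0 : 0 < y := by positivity
  have hy1 : y ≤ 1 := by
    rw [hy, div_le_one hk0]
    have : (0 : ℝ) ≤ k := Nat.cast_nonneg k
    linarith
  have h2 := num_loss_lim2 (98 * t) (784 * t) k
    (Q / (1 + 16 * y) ^ (98 * t) * (((k : ℝ) + 1) / ((k : ℝ) + 2)) ^ (784 * t)) B y hy0
  have hkA' : A < Q / (1 + 16 * y) ^ (98 * t) * (((k : ℝ) + 1) / ((k : ℝ) + 2)) ^ (784 * t) *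
      (B * (1 + 1 / 15) ^ (784 * t)) ^ 13 := by
    refine lt_of_lt_of_eq hkA ?_
    ring
  have h3 : Filter.Tendsto (fun g : ℕ => (16 : ℝ) * (15 / 16 : ℝ) ^ (g - 1)) Filter.atTop
      (nhds (16 * 0)) :=
    ((tendsto_pow_atTop_nhds_zero_of_lt_one (by norm_num) (by norm_num)).comp
      (Filter.tendsto_sub_atTop_nat 1)).const_mul 16
  rw [mul_zero] at h3
  obtain ⟨g, hg1, hgA, hg3⟩ := ((Filter.eventually_ge_atTop 1).and ((h2.eventually
    (lt_mem_nhds hkA')).and (h3.eventually (ge_mem_nhds one_pos)))).exists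
  refine ⟨k, g, y, hk1, hg1, hy0, hy1, hg3, fun c hc => ?_⟩
  have hexp : Real.exp (-(Real.log ((k : ℝ) + 1) * ((784 * t * c : ℕ) : ℝ) *
      ((k : ℝ) / ((k : ℝ) + 1)) ^ g)) = Real.exp (-(Real.log ((k : ℝ) + 1) * ((784 * t : ℕ) : ℝ) *
      ((k : ℝ) / ((k : ℝ) + 1)) ^ g)) ^ c := by
    rw [← Real.exp_nat_mul]
    congr 1
    push_cast
    ring
  rw [hexp]
  set E := Real.exp (-(Real.log ((k : ℝ) + 1) * ((784 * t : ℕ) : ℝ) *
      ((k : ℝ) / ((k : ℝ) + 1)) ^ g)) with hE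
  set X : ℝ := (1 / y) ^ (((98 * t : ℕ) : ℝ) * (1 / ((g : ℝ) + 1))) with hX
  have hY1 : 1 ≤ 1 / y := by
    rw [le_div_iff₀ hy0, one_mul]
    exact hy1
  have hX0 : 0 < X := Real.rpow_pos_of_pos (by positivity) _
  rw [num_loss_alg c ((98 * t * c) / (g + 1)) (98 * t) (784 * t) Q (1 / y) (1 + 16 * y)
    ((k : ℝ) + 1) ((k : ℝ) + 2) E B (1 + (1 - 16 * (15 / 16) ^ (g - 1)) / 15) X
    (by positivity) (by positivity) (by positivity) hX0]
  have hYX : (1 / y) ^ ((98 * t * c) / (g + 1)) ≤ X ^ c := by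
    rw [hX, ← Real.rpow_natCast (1 / y) ((98 * t * c) / (g + 1)), ← Real.rpow_mul_natCast (by positivity)]
    apply Real.rpow_le_rpow_of_exponent_le hY1
    refine (Nat.cast_div_le).trans (le_of_eq ?_)
    push_cast
    ring
  have hYn : 0 < (1 / y) ^ ((98 * t * c) / (g + 1)) := by positivity
  have h4 : 1 ≤ X ^ c / (1 / y) ^ ((98 * t * c) / (g + 1)) := by
    rw [le_div_iff₀ hYn, one_mul]
    exact hYX
  have h5 : A ^ c < (Q / (1 + 16 * y) ^ (98 * t) * (((k : ℝ) + 1) / ((k : ℝ) + 2)) ^ (784 * t) * E *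
      (B * (1 + (1 - 16 * (15 / 16) ^ (g - 1)) / 15) ^ (784 * t)) ^ 13 / X) ^ c :=
    pow_lt_pow_left₀ hgA hA.le hc.ne'
  exact lt_of_lt_of_le h5 (le_mul_of_one_le_right ((pow_pos hA c).le.trans h5.le) h4)


end

end Pool.Agent.Helper96.Tau.P_num_loss

namespace Pool.Agent.Helper96.Tau

alias num_loss := P_num_loss.num_loss

end Pool.Agent.Helper96.Tau
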