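import Pool.Agent.Helper96.Tau.Defs
import Pool.Agent.Helper96.Tau.P_fact_lower
import Pool.Agent.Helper96.Tau.P_fact_upper
import Pool.Agent.Helper96.Tau.P_num_base

set_option autoImplicit false


namespace Pool.Agent.Helper96.Tau.P_num_main

open Pool.Agent.Helper96.Tau
open scoped Classical

noncomputable section

















theorem aux_pow_exp (c t : ℕ) :
    ((c * t : ℕ) : ℝ) ^ (c * t) * Real.exp (-((c * t : ℕ) : ℝ)) =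
      ((c : ℝ) ^ c) ^ t * ((t : ℝ) ^ t * Real.exp (-(t : ℝ))) ^ c := by
  have h1 : Real.exp (-((c * t : ℕ) : ℝ)) = Real.exp (-(t : ℝ)) ^ c := by
    rw [← Real.exp_nat_mul]
    congr 1
    push_cast
    ring
  rw [h1]
  push_cast
  rw [mul_pow, mul_pow, ← pow_mul, ← pow_mul, mul_comm t c]
  ring

theorem aux_abs (f1 f3 f49 f45 f42 f43 W D c3 c49 c45 c42 c43 : ℝ)
    (p1 : 0 < f1) (p3 : 0 < f3) (p49 : 0 < f49) (p45 : 0 < f45) (p42 : 0 < f42) (_p43 : 0 < f43)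
    (pW : 0 < W) (pD : 0 < D) (q3 : 0 < c3) (q49 : 0 < c49) (q45 : 0 < c45) (q42 : 0 < c42)
    (q43 : 0 < c43)
    (h49l : c49 * W ^ 49 ≤ f49) (h1 : f1 ≤ D * W) (h3 : f3 ≤ D * (c3 * W ^ 3))
    (h45 : c45 * W ^ 45 ≤ f45) (h42 : f42 ≤ D * (c42 * W ^ 42)) (h43 : c43 * W ^ 43 ≤ f43)
    (h49u : f49 ≤ D * (c49 * W ^ 49)) :
    (c49 / c3 ^ 16) ^ 2 * ((c45 / c42) ^ 2 * (c43 / c49)) ^ 16 ≤
      ((f49 / (f1 * f3 ^ 16)) ^ 2 * ((f45 / f42) ^ 2 * (f43 / f49)) ^ 16) * D ^ 82 := by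
  have s1 : c49 / c3 ^ 16 ≤ f49 / (f1 * f3 ^ 16) * D ^ 17 := by
    have e1 : f1 * f3 ^ 16 ≤ (D * W) * (D * (c3 * W ^ 3)) ^ 16 := by gcongr
    rw [div_mul_eq_mul_div, div_le_div_iff₀ (by positivity) (by positivity)]
    calc c49 * (f1 * f3 ^ 16) ≤ c49 * ((D * W) * (D * (c3 * W ^ 3)) ^ 16) := by gcongr
      _ = (c49 * W ^ 49) * D ^ 17 * c3 ^ 16 := by ring
      _ ≤ f49 * D ^ 17 * c3 ^ 16 := by gcongr
  have s2 : c45 / c42 * W ^ 3 ≤ f45 / f42 * D := by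
    rw [div_mul_eq_mul_div, div_mul_eq_mul_div, div_le_div_iff₀ q42 p42]
    calc c45 * W ^ 3 * f42 ≤ c45 * W ^ 3 * (D * (c42 * W ^ 42)) := by gcongr
      _ = (c45 * W ^ 45) * D * c42 := by ring
      _ ≤ f45 * D * c42 := by gcongr
  have s3 : c43 / c49 ≤ f43 / f49 * D * W ^ 6 := by
    rw [div_mul_eq_mul_div, div_mul_eq_mul_div, div_le_div_iff₀ q49 p49]
    calc c43 * f49 ≤ c43 * (D * (c49 * W ^ 49)) := by gcongr
      _ = (c43 * W ^ 43) * D * W ^ 6 * c49 := by ring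
      _ ≤ f43 * D * W ^ 6 * c49 := by gcongr
  have s4 : (c45 / c42) ^ 2 * (c43 / c49) ≤ (f45 / f42) ^ 2 * (f43 / f49) * D ^ 3 := by
    have e1 : (c45 / c42 * W ^ 3) ^ 2 ≤ (f45 / f42 * D) ^ 2 := by gcongr
    have e2 : (c45 / c42 * W ^ 3) ^ 2 * (c43 / c49) ≤
        (f45 / f42 * D) ^ 2 * (f43 / f49 * D * W ^ 6) := by gcongr
    have e3 : ((c45 / c42) ^ 2 * (c43 / c49)) * W ^ 6 ≤
        ((f45 / f42) ^ 2 * (f43 / f49) * D ^ 3) * W ^ 6 := by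
      calc ((c45 / c42) ^ 2 * (c43 / c49)) * W ^ 6
          = (c45 / c42 * W ^ 3) ^ 2 * (c43 / c49) := by ring
        _ ≤ (f45 / f42 * D) ^ 2 * (f43 / f49 * D * W ^ 6) := e2
        _ = ((f45 / f42) ^ 2 * (f43 / f49) * D ^ 3) * W ^ 6 := by ring
    exact le_of_mul_le_mul_right e3 (by positivity)
  calc (c49 / c3 ^ 16) ^ 2 * ((c45 / c42) ^ 2 * (c43 / c49)) ^ 16
      ≤ (f49 / (f1 * f3 ^ 16) * D ^ 17) ^ 2 *
        ((f45 / f42) ^ 2 * (f43 / f49) * D ^ 3) ^ 16 := by gcongr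
    _ = _ := by ring

/-- the exponential growth rate of `Qn` -/
theorem aux_qn (t : ℕ) :
    ((((49 : ℕ) : ℝ) ^ 49 / ((((3 : ℕ) : ℝ) ^ 3) ^ 16)) ^ 2 *
      (((((45 : ℕ) : ℝ) ^ 45 / ((42 : ℕ) : ℝ) ^ 42)) ^ 2 *
        (((43 : ℕ) : ℝ) ^ 43 / ((49 : ℕ) : ℝ) ^ 49)) ^ 16) ^ t ≤
      Qn 16 t (3 * t) * (3 * (((49 * t : ℕ) : ℝ) + 1)) ^ 82 := by
  have hup : ∀ c : ℕ, c ≤ 49 → (((c * t).factorial : ℕ) : ℝ) ≤
      (3 * (((49 * t : ℕ) : ℝ) + 1)) *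
        (((c : ℝ) ^ c) ^ t * ((t : ℝ) ^ t * Real.exp (-(t : ℝ))) ^ c) := by
    intro c hc
    have h1 := fact_upper (c * t)
    rw [aux_pow_exp] at h1
    refine h1.trans ?_
    have h2 : ((c * t : ℕ) : ℝ) ≤ ((49 * t : ℕ) : ℝ) := by
      exact_mod_cast Nat.mul_le_mul_right t hc
    gcongr
  have hlo : ∀ c : ℕ, ((c : ℝ) ^ c) ^ t * ((t : ℝ) ^ t * Real.exp (-(t : ℝ))) ^ c ≤
      (((c * t).factorial : ℕ) : ℝ) := by
    intro c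
    have h1 := fact_lower (c * t)
    rw [aux_pow_exp] at h1
    exact h1
  have hW : 0 < (t : ℝ) ^ t * Real.exp (-(t : ℝ)) := by
    rcases Nat.eq_zero_or_pos t with h | h
    · subst h; simp
    · have : (0 : ℝ) < t := by exact_mod_cast h
      positivity
  have hf : ∀ n : ℕ, (0 : ℝ) < ((n.factorial : ℕ) : ℝ) := fun n => by
    exact_mod_cast n.factorial_pos
  have hc : ∀ c : ℕ, 0 < c → (0 : ℝ) < ((c : ℝ) ^ c) ^ t := fun c hc => by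
    have : (0 : ℝ) < c := by exact_mod_cast hc
    positivity
  have h1' : ((t.factorial : ℕ) : ℝ) ≤
      (3 * (((49 * t : ℕ) : ℝ) + 1)) * ((t : ℝ) ^ t * Real.exp (-(t : ℝ))) := by
    have := hup 1 (by norm_num)
    rw [one_mul] at this
    simpa using this
  have key := aux_abs (t.factorial : ℝ) ((3 * t).factorial : ℝ) ((49 * t).factorial : ℝ)
    ((45 * t).factorial : ℝ) ((42 * t).factorial : ℝ) ((43 * t).factorial : ℝ)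
    ((t : ℝ) ^ t * Real.exp (-(t : ℝ))) (3 * (((49 * t : ℕ) : ℝ) + 1))
    ((((3 : ℕ) : ℝ) ^ 3) ^ t) ((((49 : ℕ) : ℝ) ^ 49) ^ t) ((((45 : ℕ) : ℝ) ^ 45) ^ t)
    ((((42 : ℕ) : ℝ) ^ 42) ^ t) ((((43 : ℕ) : ℝ) ^ 43) ^ t)
    (hf _) (hf _) (hf _) (hf _) (hf _) (hf _) hW (by positivity)
    (hc 3 (by norm_num)) (hc 49 (by norm_num)) (hc 45 (by norm_num)) (hc 42 (by norm_num))
    (hc 43 (by norm_num))
    (hlo 49) h1' (hup 3 (by norm_num)) (hlo 45) (hup 42 (by norm_num)) (hlo 43)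
    (hup 49 (by norm_num))
  have e1 : Qn 16 t (3 * t) =
      (((49 * t).factorial : ℝ) / ((t.factorial : ℝ) * ((3 * t).factorial : ℝ) ^ 16)) ^ 2 *
      ((((45 * t).factorial : ℝ) / ((42 * t).factorial : ℝ)) ^ 2 *
        (((43 * t).factorial : ℝ) / ((49 * t).factorial : ℝ))) ^ 16 := by
    unfold Qn
    have a1 : t + 16 * (3 * t) = 49 * t := by ring
    have a2 : (16 - 1) * (3 * t) = 45 * t := by omega
    have a3 : (16 - 2) * (3 * t) = 42 * t := by omega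
    have a4 : 49 * t - 2 * (3 * t) = 43 * t := by omega
    rw [a1, a2, a3, a4]
  rw [e1]
  refine le_trans (le_of_eq ?_) key
  generalize ((49 : ℕ) : ℝ) ^ 49 = A49
  generalize ((45 : ℕ) : ℝ) ^ 45 = A45
  generalize ((42 : ℕ) : ℝ) ^ 42 = A42
  generalize ((43 : ℕ) : ℝ) ^ 43 = A43
  generalize ((3 : ℕ) : ℝ) ^ 3 = A3
  have sw : ∀ (x : ℝ) (n : ℕ), (x ^ n) ^ t = (x ^ t) ^ n := fun x n => by
    rw [← pow_mul, ← pow_mul, mul_comm]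
  rw [mul_pow, sw _ 2, sw _ 16, mul_pow, sw _ 2, div_pow, div_pow, div_pow, sw _ 16,
    div_pow A43 A49 t, div_pow (A49 ^ t) ((A3 ^ t) ^ 16) 2]

theorem aux_exp (R : ℝ) (hR : 1 < R) : ∃ t : ℕ, 0 < t ∧
    (3 * (((49 * t : ℕ) : ℝ) + 1)) ^ 82 < R ^ t := by
  have h1 := tendsto_pow_const_div_const_pow_of_one_lt 82 hR
  have h2 : ∀ᶠ n : ℕ in Filter.atTop, (n : ℝ) ^ 82 / R ^ n < 1 / 150 ^ 82 :=
    h1.eventually_lt_const (by positivity)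
  obtain ⟨t, ht, ht0⟩ := (h2.and (Filter.eventually_gt_atTop 0)).exists
  refine ⟨t, ht0, ?_⟩
  have hR0 : (0 : ℝ) < R := by linarith
  have h3 : (t : ℝ) ^ 82 * 150 ^ 82 < R ^ t := by
    rw [div_lt_div_iff₀ (by positivity) (by positivity), one_mul] at ht
    exact ht
  have h4 : (1 : ℝ) ≤ t := by exact_mod_cast ht0
  calc (3 * (((49 * t : ℕ) : ℝ) + 1)) ^ 82 ≤ ((t : ℝ) * 150) ^ 82 := by
        have : 3 * (((49 * t : ℕ) : ℝ) + 1) ≤ (t : ℝ) * 150 := by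
          push_cast; linarith
        exact pow_le_pow_left₀ (by positivity) this 82
    _ = (t : ℝ) ^ 82 * 150 ^ 82 := mul_pow _ _ _
    _ < R ^ t := h3

theorem aux_abs2 (C B14 B15 Q P : ℝ) (t : ℕ) (hB14 : 0 < B14) (hB15 : 0 < B15) (hP : 0 < P)
    (h1 : C ^ t ≤ Q * P) (h2 : P < (C * B15 / B14) ^ t) : B14 ^ t < Q * B15 ^ t := by
  rw [div_pow, lt_div_iff₀ (by positivity), mul_pow] at h2
  have h3 : P * B14 ^ t < (Q * P) * B15 ^ t := lt_of_lt_of_le h2 (by gcongr)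
  have h4 : P * B14 ^ t < P * (Q * B15 ^ t) := by
    calc P * B14 ^ t < (Q * P) * B15 ^ t := h3
      _ = P * (Q * B15 ^ t) := by ring
  exact lt_of_mul_lt_mul_left h4 hP.le

theorem aux_base (A3 A49 A45 A42 A43 a b c d e : ℝ) (h3 : 0 < A3) (h49 : 0 < A49)
    (h42 : 0 < A42) (ha : 0 < a) (hb : 0 < b) (hc : 0 < c) (he : 0 < e)
    (h : (A3 ^ 16) ^ 2 * ((A42) ^ 2 * A49) ^ 16 * (a) ^ 13 * (b * a) ^ 14 <
      (A49) ^ 2 * ((A45) ^ 2 * A43) ^ 16 * (c * d) ^ 13 * (e) ^ 14) :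
    1 < ((A49 / A3 ^ 16) ^ 2 * ((A45 / A42) ^ 2 * (A43 / A49)) ^ 16) *
      (c * (d / a)) ^ 13 / (b * (a / e)) ^ 14 := by
  have e1 : ((A49 / A3 ^ 16) ^ 2 * ((A45 / A42) ^ 2 * (A43 / A49)) ^ 16) *
      (c * (d / a)) ^ 13 / (b * (a / e)) ^ 14 =
      ((A49) ^ 2 * ((A45) ^ 2 * A43) ^ 16 * (c * d) ^ 13 * (e) ^ 14) /
      ((A3 ^ 16) ^ 2 * ((A42) ^ 2 * A49) ^ 16 * (a) ^ 13 * (b * a) ^ 14) := by
    field_simp
  rw [e1, lt_div_iff₀ (by positivity), one_mul]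
  exact h

theorem num_main : ∃ t : ℕ, 0 < t ∧
    (((14 : ℝ) ^ (98 * t) * (1 + 1 / 14) ^ (784 * t)) ^ 14 <
      Qn 16 t (3 * t) * ((15 : ℝ) ^ (98 * t) * (1 + 1 / 15) ^ (784 * t)) ^ 13) := by
  have hb : ((((3 ^ 48) ^ 2 * ((42 ^ 42) ^ 2 * 49 ^ 49) ^ 16 * (15 ^ 784) ^ 13 *
      (14 ^ 98 * 15 ^ 784) ^ 14 : ℕ)) : ℝ) <
    (((49 ^ 49) ^ 2 * ((45 ^ 45) ^ 2 * 43 ^ 43) ^ 16 * (15 ^ 98 * 16 ^ 784) ^ 13 *
      (14 ^ 784) ^ 14 : ℕ) : ℝ) := Nat.cast_lt.mpr num_base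
  simp only [Nat.cast_mul, Nat.cast_pow] at hb
  have hR := aux_base (((3 : ℕ) : ℝ) ^ 3) (((49 : ℕ) : ℝ) ^ 49) (((45 : ℕ) : ℝ) ^ 45)
    (((42 : ℕ) : ℝ) ^ 42) (((43 : ℕ) : ℝ) ^ 43) (((15 : ℕ) : ℝ) ^ 784) (((14 : ℕ) : ℝ) ^ 98)
    (((15 : ℕ) : ℝ) ^ 98) (((16 : ℕ) : ℝ) ^ 784) (((14 : ℕ) : ℝ) ^ 784)
    (pow_pos (by norm_num) _) (pow_pos (by norm_num) _) (pow_pos (by norm_num) _)
    (pow_pos (by norm_num) _) (pow_pos (by norm_num) _) (pow_pos (by norm_num) _)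
    (pow_pos (by norm_num) _) (by rw [← pow_mul ((3 : ℕ) : ℝ) 3 16]; exact hb)
  obtain ⟨t, ht0, ht⟩ := aux_exp _ hR
  refine ⟨t, ht0, ?_⟩
  have h1 := aux_qn t
  have h2 := aux_abs2 _ _ _ _ _ t (by positivity) (by positivity) (by positivity) h1 ht
  have e14 : (1 + 1 / 14 : ℝ) = ((15 : ℕ) : ℝ) / ((14 : ℕ) : ℝ) := by norm_num
  have e15 : (1 + 1 / 15 : ℝ) = ((16 : ℕ) : ℝ) / ((15 : ℕ) : ℝ) := by norm_num
  have e14' : (14 : ℝ) = ((14 : ℕ) : ℝ) := by norm_num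
  have e15' : (15 : ℝ) = ((15 : ℕ) : ℝ) := by norm_num
  rw [e14, e15, e14', e15']
  rw [← div_pow, ← div_pow] at h2
  generalize ((14 : ℕ) : ℝ) = x14 at h2 ⊢
  generalize ((15 : ℕ) : ℝ) = x15 at h2 ⊢
  generalize ((16 : ℕ) : ℝ) = x16 at h2 ⊢
  have g14 : (x14 ^ (98 * t) * (x15 / x14) ^ (784 * t)) ^ 14 =
      ((x14 ^ 98 * (x15 / x14) ^ 784) ^ 14) ^ t := by
    rw [pow_mul, pow_mul, ← mul_pow, ← pow_mul, ← pow_mul, mul_comm t 14]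
  have g15 : (x15 ^ (98 * t) * (x16 / x15) ^ (784 * t)) ^ 13 =
      ((x15 ^ 98 * (x16 / x15) ^ 784) ^ 13) ^ t := by
    rw [pow_mul, pow_mul, ← mul_pow, ← pow_mul, ← pow_mul, mul_comm t 13]
  rw [g14, g15]
  exact h2


end

end Pool.Agent.Helper96.Tau.P_num_main

namespace Pool.Agent.Helper96.Tau

alias num_main := P_num_main.num_main

end Pool.Agent.Helper96.Tau
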