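import Pool.Agent.Helper96.Tau.Defs

set_option autoImplicit false


namespace Pool.Agent.Helper96.Tau.P_ps_hitting

open Pool.Agent.Helper96.Tau
open scoped Classical

noncomputable section






theorem ps_hitting_fact {V ι : Type} (ends : ι → V × V)
    (hloop : ∀ i, (ends i).1 ≠ (ends i).2) (q : V → Option ι) (hq : PS ends q) (v : V) (i : ι)
    (h : q v = some i) :
    (((ends i).1 = v ∧ (ends i).2 = nx ends q v) ∨ ((ends i).2 = v ∧ (ends i).1 = nx ends q v)) ∧
      q (nx ends q v) ≠ none ∧ q (nx ends q v) ≠ some i := by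
  rcases hq v i h with ⟨h1, h2, h3⟩ | ⟨h1, h2, h3⟩
  · have hn : nx ends q v = (ends i).2 := by
      unfold nx
      rw [h]
      simp only
      rw [if_pos h1]
    rw [hn]
    exact ⟨Or.inl ⟨h1, rfl⟩, h2, h3⟩
  · have hn : nx ends q v = (ends i).1 := by
      unfold nx
      rw [h]
      simp only
      rw [if_neg]
      intro h4
      exact hloop i (h4.trans h1.symm)
    rw [hn]
    exact ⟨Or.inr ⟨h1, rfl⟩, h2, h3⟩

theorem ps_hitting_iter {V ι : Type} (ends : ι → V × V)
    (hloop : ∀ i, (ends i).1 ≠ (ends i).2) (q : V → Option ι) (hq : PS ends q) (v : V)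
    (h : q v ≠ none) (j : ℕ) : q ((nx ends q)^[j] v) ≠ none := by
  induction j with
  | zero => exact h
  | succ k ih =>
    rw [Function.iterate_succ_apply']
    obtain ⟨i, hi⟩ := Option.ne_none_iff_exists'.1 ih
    exact (ps_hitting_fact ends hloop q hq _ i hi).2.1

theorem ps_hitting_period {V ι : Type} (ends : ι → V × V) (g : ℕ) (hg : HasGirth ends g)
    (hloop : ∀ i, (ends i).1 ≠ (ends i).2) (q : V → Option ι) (hq : PS ends q) (v : V)
    (h : q v ≠ none) (hp : v ∈ Function.periodicPts (nx ends q)) :
    g + 1 ≤ Function.minimalPeriod (nx ends q) v := by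
  set l := Function.minimalPeriod (nx ends q) v with hl
  have hl0 : 0 < l := Function.minimalPeriod_pos_of_mem_periodicPts hp
  obtain ⟨i, hi⟩ := Option.ne_none_iff_exists'.1 h
  obtain ⟨D, hD0, hDg, hDL⟩ := hg i
  obtain ⟨hA, hB, hC⟩ := ps_hitting_fact ends hloop q hq v i hi
  have hlast : (nx ends q)^[l] v = v := Function.iterate_minimalPeriod
  have hk : ∀ k, k + 1 ≤ l → D ((nx ends q)^[k + 1] v) ≤ D (nx ends q v) + k ∧
      D (nx ends q v) ≤ D ((nx ends q)^[k + 1] v) + k := by
    intro k
    induction k with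
    | zero => intro _; simp
    | succ k ih =>
      intro hkl
      obtain ⟨ih1, ih2⟩ := ih (by omega)
      set w := (nx ends q)^[k + 1] v with hw
      have hwn : (nx ends q)^[k + 1 + 1] v = nx ends q w := by
        rw [Function.iterate_succ_apply']
      rw [hwn]
      obtain ⟨j, hj⟩ := Option.ne_none_iff_exists'.1 (ps_hitting_iter ends hloop q hq v h (k + 1))
      rw [← hw] at hj
      have hji : j ≠ i := by
        intro hji
        subst hji
        obtain ⟨hA', -, -⟩ := ps_hitting_fact ends hloop q hq w j hj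
        have hwv : w ≠ v := by
          intro hwv
          have hper : Function.IsPeriodicPt (nx ends q) (k + 1) v := hwv
          have := hper.minimalPeriod_le (by omega)
          omega
        have hwf : w ≠ nx ends q v := by
          intro hwf
          exact hC (hwf ▸ hj)
        rcases hA with ⟨a1, a2⟩ | ⟨a1, a2⟩ <;> rcases hA' with ⟨b1, b2⟩ | ⟨b1, b2⟩
        · exact hwv (b1.symm.trans a1)
        · exact hwf (b1.symm.trans a2)
        · exact hwf (b1.symm.trans a2)
        · exact hwv (b1.symm.trans a1)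
      obtain ⟨hA', -, -⟩ := ps_hitting_fact ends hloop q hq w j hj
      obtain ⟨L1, L2⟩ := hDL j hji
      rcases hA' with ⟨b1, b2⟩ | ⟨b1, b2⟩
      · rw [b1, b2] at L1 L2
        omega
      · rw [b1, b2] at L1 L2
        omega
  obtain ⟨k1, k2⟩ := hk (l - 1) (by omega)
  have hll : l - 1 + 1 = l := by omega
  rw [hll, hlast] at k1 k2
  rcases hA with ⟨a1, a2⟩ | ⟨a1, a2⟩
  · rw [a1] at hDg
    rw [a2] at hD0
    omega
  · rw [a1] at hD0
    rw [a2] at hDg
    omega

theorem ps_hitting {V ι : Type} [Fintype V] (ends : ι → V × V) (g : ℕ) (hg : HasGirth ends g)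
    (hloop : ∀ i, (ends i).1 ≠ (ends i).2) (q : V → Option ι) (hq : PS ends q) :
    ∃ T : Finset V, T.card * (g + 1) ≤ Fintype.card V ∧ (∀ v ∈ T, q v ≠ none) ∧
      ∀ v, q v ≠ none → ∃ j : ℕ, (nx ends q)^[j] v ∈ T := by
  set f := nx ends q with hf
  obtain ⟨e, he⟩ : ∃ e : V → ℕ, Function.Injective e :=
    ⟨fun v => (Fintype.equivFin V v : ℕ), fun a b h => (Fintype.equivFin V).injective (Fin.ext h)⟩
  set T : Finset V := Finset.univ.filter (fun v => q v ≠ none ∧ v ∈ Function.periodicPts f ∧
    ∀ j, e v ≤ e (f^[j] v)) with hT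
  have hTm : ∀ v, v ∈ T ↔ (q v ≠ none ∧ v ∈ Function.periodicPts f ∧ ∀ j, e v ≤ e (f^[j] v)) := by
    intro v; simp [hT]
  refine ⟨T, ?_, fun v hv => ((hTm v).1 hv).1, ?_⟩
  · have hper : ∀ v ∈ T, g + 1 ≤ Function.minimalPeriod f v := by
      intro v hv
      obtain ⟨h1, h2, h3⟩ := (hTm v).1 hv
      exact ps_hitting_period ends g hg hloop q hq v h1 h2
    have hcard : ∀ v ∈ T, ((Finset.range (g + 1)).image (fun k => f^[k] v)).card = g + 1 := by
      intro v hv
      rw [Finset.card_image_of_injOn, Finset.card_range]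
      intro a ha b hb hab
      simp only [Finset.coe_range, Set.mem_Iio] at ha hb
      have := hper v hv
      exact Function.iterate_injOn_Iio_minimalPeriod (by simp only [Set.mem_Iio]; omega)
        (by simp only [Set.mem_Iio]; omega) hab
    have hdisj : ∀ v ∈ T, ∀ w ∈ T, v ≠ w →
        Disjoint ((Finset.range (g + 1)).image (fun k => f^[k] v))
          ((Finset.range (g + 1)).image (fun k => f^[k] w)) := by
      have hle : ∀ v ∈ T, ∀ w ∈ T, ∀ a b, a < g + 1 → f^[a] v = f^[b] w → e w ≤ e v := by
        intro v hv w hw a b ha hab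
        have h1 := hper v hv
        have h2 : f^[Function.minimalPeriod f v - a] (f^[a] v) = v := by
          rw [← Function.iterate_add_apply]
          have : Function.minimalPeriod f v - a + a = Function.minimalPeriod f v := by omega
          rw [this, Function.iterate_minimalPeriod]
        rw [hab, ← Function.iterate_add_apply] at h2
        have h3 := ((hTm w).1 hw).2.2 (Function.minimalPeriod f v - a + b)
        rwa [h2] at h3
      intro v hv w hw hvw
      rw [Finset.disjoint_left]
      intro x hx hx'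
      rw [Finset.mem_image] at hx hx'
      obtain ⟨a, ha, hxa⟩ := hx
      obtain ⟨b, hb, hxb⟩ := hx'
      rw [Finset.mem_range] at ha hb
      have h1 := hle v hv w hw a b ha (hxa.trans hxb.symm)
      have h2 := hle w hw v hv b a hb (hxb.trans hxa.symm)
      exact hvw (he (le_antisymm h2 h1))
    have h1 : (T.biUnion (fun v => (Finset.range (g + 1)).image (fun k => f^[k] v))).card =
        T.card * (g + 1) := by
      rw [Finset.card_biUnion (fun v hv w hw hvw => hdisj v hv w hw hvw),
        Finset.sum_congr rfl hcard, Finset.sum_const, smul_eq_mul]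
    rw [← h1]
    exact Finset.card_le_univ _
  · intro v hv
    obtain ⟨a, b, hab, hne⟩ : ∃ a b : ℕ, a < b ∧ f^[a] v = f^[b] v := by
      obtain ⟨a, b, hab, hne⟩ := Finite.exists_ne_map_eq_of_infinite (fun k : ℕ => f^[k] v)
      rcases lt_or_gt_of_ne hab with h | h
      · exact ⟨a, b, h, hne⟩
      · exact ⟨b, a, h, hne.symm⟩
    have hper : f^[a] v ∈ Function.periodicPts f := by
      refine ⟨b - a, by omega, ?_⟩
      unfold Function.IsPeriodicPt Function.IsFixedPt
      rw [← Function.iterate_add_apply]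
      have : b - a + a = b := by omega
      rw [this, hne]
    obtain ⟨j0, hj0⟩ := Nat.sInf_mem (Set.range_nonempty (fun j => e (f^[j] (f^[a] v))))
    have hmin : ∀ j, e (f^[j0] (f^[a] v)) ≤ e (f^[j] (f^[a] v)) := by
      intro j
      simp only at hj0
      rw [hj0]
      exact Nat.sInf_le ⟨j, rfl⟩
    refine ⟨j0 + a, ?_⟩
    rw [hTm]
    refine ⟨ps_hitting_iter ends hloop q hq v hv _, ?_, ?_⟩
    · rw [Function.iterate_add_apply]
      obtain ⟨n, hn, hn'⟩ := hper
      exact ⟨n, hn, hn'.apply_iterate j0⟩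
    · intro j
      rw [← Function.iterate_add_apply]
      have h1 := hmin (j + j0)
      rw [← Function.iterate_add_apply, ← Function.iterate_add_apply] at h1
      rwa [← add_assoc]



end

end Pool.Agent.Helper96.Tau.P_ps_hitting

namespace Pool.Agent.Helper96.Tau

alias ps_hitting := P_ps_hitting.ps_hitting

end Pool.Agent.Helper96.Tau
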