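import Pool.Agent.Helper96.Tau.Defs
import Pool.Agent.Helper96.Tau.P_sp_empty
import Pool.Agent.Helper96.Tau.P_sp_insert
import Pool.Agent.Helper96.Tau.P_sp_mono
import Pool.Agent.Helper96.Tau.P_sp_inv
import Pool.Agent.Helper96.Tau.P_kk_join
import Pool.Agent.Helper96.Tau.P_kk_bot
import Pool.Agent.Helper96.Tau.P_join_of_rel

set_option autoImplicit false


namespace Pool.Agent.Helper96.Tau.P_ps_indep

open Pool.Agent.Helper96.Tau
open scoped Classical

noncomputable section





























theorem psi_inj {V ι : Type} (ends : ι → V × V) (q : V → Option ι) (hq : PS ends q) (v w : V)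
    (i : ι) (hv : q v = some i) (hw : q w = some i) : v = w := by
  rcases hq v i hv with ⟨h1, _, h2⟩ | ⟨h1, _, h2⟩
  · rcases hq w i hw with ⟨h3, _, _⟩ | ⟨h3, _, _⟩
    · rw [← h1, ← h3]
    · rw [h3] at h2
      exact absurd hw h2
  · rcases hq w i hw with ⟨h3, _, _⟩ | ⟨h3, _, _⟩
    · rw [h3] at h2
      exact absurd hw h2
    · rw [← h1, ← h3]

theorem psi_count {V ι : Type} [Fintype V] (ends : ι → V × V) (B : Finset ι) :
    Fintype.card V ≤ kk (sp ends (B : Set ι)) + B.card := by
  induction B using Finset.induction_on with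
  | empty =>
    rw [Finset.coe_empty, sp_empty, kk_bot, Finset.card_empty]
    exact le_rfl
  | insert i B hi ih =>
    rw [Finset.coe_insert, sp_insert, Finset.card_insert_of_notMem hi]
    by_cases h : sp ends (B : Set ι) (ends i).1 (ends i).2
    · rw [join_of_rel _ _ _ h]
      omega
    · have := kk_join _ _ _ h
      omega

theorem psi_step {V ι : Type} (ends : ι → V × V) (q : V → Option ι) (hq : PS ends q)
    (A : Set ι) (v : V) (i : ι) (hv : q v = some i) (hi : i ∈ A) :
    sp ends A v (nx ends q v) := by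
  have h0 : sp ends A (ends i).1 (ends i).2 := Relation.EqvGen.rel _ _ ⟨i, hi, rfl⟩
  have h1 : nx ends q v = if (ends i).1 = v then (ends i).2 else (ends i).1 := by
    unfold nx
    rw [hv]
  rw [h1]
  by_cases h2 : (ends i).1 = v
  · rw [if_pos h2]
    rw [h2] at h0
    exact h0
  · rw [if_neg h2]
    have h3 : (ends i).2 = v := by
      rcases hq v i hv with ⟨h, _⟩ | ⟨h, _⟩
      · exact absurd h h2
      · exact h
    rw [h3] at h0
    exact (sp ends A).symm h0

theorem psi_reach {V ι : Type} [Fintype V] [Fintype ι] (ends : ι → V × V) (q : V → Option ι)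
    (hq : PS ends q) (T : Finset V) (A : Set ι) (hA : ∀ v i, v ∉ T → q v = some i → i ∈ A) :
    ∀ (j : ℕ) (v : V), (nx ends q)^[j] v ∈ T → ∃ z, (z ∈ T ∨ q z = none) ∧ sp ends A v z := by
  intro j
  induction j with
  | zero =>
    intro v hv
    exact ⟨v, Or.inl hv, (sp ends A).refl v⟩
  | succ j ih =>
    intro v hv
    by_cases hZ : v ∈ T ∨ q v = none
    · exact ⟨v, hZ, (sp ends A).refl v⟩
    · push Not at hZ
      obtain ⟨i, hi⟩ := Option.ne_none_iff_exists'.1 hZ.2
      rw [Function.iterate_succ_apply] at hv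
      obtain ⟨z, hz, hz'⟩ := ih _ hv
      exact ⟨z, hz, (sp ends A).trans (psi_step ends q hq A v i hi (hA v i hZ.1 hi)) hz'⟩




theorem ps_indep {V ι : Type} [Fintype V] [Fintype ι] (ends : ι → V × V)
    (hloop : ∀ i, (ends i).1 ≠ (ends i).2) (q : V → Option ι) (hq : PS ends q) (T : Finset V)
    (hT : ∀ v, q v ≠ none → ∃ j : ℕ, (nx ends q)^[j] v ∈ T) :
    Indep ends (Finset.univ.filter (fun i => ∃ v, v ∉ T ∧ q v = some i)) := by
  intro a ha hrel
  obtain ⟨A, hAdef⟩ : ∃ A : Finset ι, A = Finset.univ.filter (fun i => ∃ v, v ∉ T ∧ q v = some i) :=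
    ⟨_, rfl⟩
  rw [← hAdef] at ha hrel
  have hAmem : ∀ i, i ∈ A ↔ ∃ v, v ∉ T ∧ q v = some i := by
    intro i
    rw [hAdef, Finset.mem_filter]
    simp
  obtain ⟨Z, hZdef⟩ : ∃ Z : Finset V, Z = Finset.univ.filter (fun v => v ∈ T ∨ q v = none) :=
    ⟨_, rfl⟩
  have hZmem : ∀ v, v ∈ Z ↔ v ∈ T ∨ q v = none := by
    intro v
    rw [hZdef, Finset.mem_filter]
    simp
  have hcardA : A.card = (Zᶜ).card := by
    have h1 : A.image some = (Zᶜ).image q := by
      ext o
      rw [Finset.mem_image, Finset.mem_image]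
      constructor
      · rintro ⟨i, hi, rfl⟩
        obtain ⟨v, hv, hv'⟩ := (hAmem i).1 hi
        refine ⟨v, ?_, hv'⟩
        rw [Finset.mem_compl, hZmem, hv']
        simpa using hv
      · rintro ⟨v, hv, rfl⟩
        rw [Finset.mem_compl, hZmem] at hv
        push Not at hv
        obtain ⟨i, hi⟩ := Option.ne_none_iff_exists'.1 hv.2
        exact ⟨i, (hAmem i).2 ⟨v, hv.1, hi⟩, hi.symm⟩
    rw [← Finset.card_image_of_injective A (Option.some_injective ι), h1]
    apply Finset.card_image_of_injOn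
    intro v hv w hw hvw
    rw [Finset.mem_coe, Finset.mem_compl, hZmem] at hv
    push Not at hv
    obtain ⟨i, hi⟩ := Option.ne_none_iff_exists'.1 hv.2
    have hvw' : q v = q w := hvw
    exact psi_inj ends q hq v w i hi (by rw [← hvw', hi])
  have hcardV : Z.card + (Zᶜ).card = Fintype.card V := by
    rw [Finset.card_add_card_compl]
  have hreach : ∀ v, ∃ z, z ∈ Z ∧ sp ends (A : Set ι) v z := by
    intro v
    by_cases hv : q v = none
    · exact ⟨v, (hZmem v).2 (Or.inr hv), (sp ends (A : Set ι)).refl v⟩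
    · obtain ⟨j, hj⟩ := hT v hv
      obtain ⟨z, hz, hz'⟩ := psi_reach ends q hq T (A : Set ι)
        (fun v i h1 h2 => Finset.mem_coe.2 ((hAmem i).2 ⟨v, h1, h2⟩)) j v hj
      exact ⟨z, (hZmem z).2 hz, hz'⟩
  have hkk : kk (sp ends (A : Set ι)) ≤ Z.card := by
    have h1 : Function.Surjective (fun z : {x // x ∈ Z} =>
        (Quotient.mk (sp ends (A : Set ι)) z.1)) := by
      intro y
      obtain ⟨v, rfl⟩ := Quotient.exists_rep y
      obtain ⟨z, hz, hz'⟩ := hreach v
      exact ⟨⟨z, hz⟩, Quotient.sound ((sp ends (A : Set ι)).symm hz')⟩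
    have h2 := Nat.card_le_card_of_surjective _ h1
    have h3 : Nat.card {x // x ∈ Z} = Z.card := by
      rw [Nat.card_eq_fintype_card, Fintype.card_coe]
    rw [h3] at h2
    exact h2
  have hset : {b | b ∈ A ∧ b ≠ a} = ((A.erase a : Finset ι) : Set ι) := by
    ext b
    simp only [Set.mem_ofPred_eq, Finset.coe_erase, Set.mem_sdiff, Finset.mem_coe,
      Set.mem_singleton_iff]
  rw [hset] at hrel
  have hins : sp ends (A : Set ι) = sp ends ((A.erase a : Finset ι) : Set ι) := by
    conv_lhs => rw [← Finset.insert_erase ha]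
    rw [Finset.coe_insert, sp_insert, join_of_rel _ _ _ hrel]
  have hc := psi_count ends (A.erase a)
  rw [← hins] at hc
  have he : (A.erase a).card + 1 = A.card := Finset.card_erase_add_one ha
  omega


end

end Pool.Agent.Helper96.Tau.P_ps_indep

namespace Pool.Agent.Helper96.Tau

alias ps_indep := P_ps_indep.ps_indep

end Pool.Agent.Helper96.Tau
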