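import Pool.Agent.Helper96.Tau.Defs

set_option autoImplicit false


namespace Pool.Agent.Helper96.Tau.P_ps_inj

open Pool.Agent.Helper96.Tau
open scoped Classical

noncomputable section







theorem ps_inj_step {V ι : Type} (ends : ι → V × V)
    (hloop : ∀ i, (ends i).1 ≠ (ends i).2) (q q' : V → Option ι) (hq : PS ends q) (hq' : PS ends q')
    (T : Finset V)
    (hA : ∀ i, (∃ v, v ∉ T ∧ q v = some i) → (∃ v, v ∉ T ∧ q' v = some i)) (v : V)
    (hv : v ∉ T ∧ ∃ i, q v = some i ∧ q' v ≠ some i) :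
    nx ends q v ∉ T ∧ ∃ i, q (nx ends q v) = some i ∧ q' (nx ends q v) ≠ some i := by
  obtain ⟨hvT, i, hi, hi'⟩ := hv
  obtain ⟨w, hwT, hw⟩ := hA i ⟨v, hvT, hi⟩
  have hwv : w ≠ v := by
    rintro rfl
    exact hi' hw
  have hnx : nx ends q v = w ∧ q w ≠ none ∧ q w ≠ some i := by
    have hn : nx ends q v = if (ends i).1 = v then (ends i).2 else (ends i).1 := by
      unfold nx
      rw [hi]
    rcases hq v i hi with ⟨h1, h2, h3⟩ | ⟨h1, h2, h3⟩
    · rw [if_pos h1] at hn
      have h2w : (ends i).2 = w := by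
        rcases hq' w i hw with ⟨h4, _⟩ | ⟨h4, _⟩
        · exact absurd (h4.symm.trans h1) hwv
        · exact h4
      rw [h2w] at hn h2 h3
      exact ⟨hn, h2, h3⟩
    · have hne : (ends i).1 ≠ v := fun h => hloop i (h.trans h1.symm)
      rw [if_neg hne] at hn
      have h2w : (ends i).1 = w := by
        rcases hq' w i hw with ⟨h4, _⟩ | ⟨h4, _⟩
        · exact h4
        · exact absurd (h4.symm.trans h1) hwv
      rw [h2w] at hn h2 h3
      exact ⟨hn, h2, h3⟩
  obtain ⟨h1, h2, h3⟩ := hnx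
  rw [h1]
  refine ⟨hwT, ?_⟩
  obtain ⟨i1, hi1⟩ := Option.ne_none_iff_exists'.1 h2
  refine ⟨i1, hi1, ?_⟩
  rw [hw]
  intro h
  apply h3
  rw [hi1, ← h]

theorem ps_inj_claim {V ι : Type} (ends : ι → V × V)
    (hloop : ∀ i, (ends i).1 ≠ (ends i).2) (q q' : V → Option ι) (hq : PS ends q) (hq' : PS ends q')
    (T : Finset V)
    (hT : ∀ v, q v ≠ none → ∃ j : ℕ, (nx ends q)^[j] v ∈ T)
    (hA : ∀ i, (∃ v, v ∉ T ∧ q v = some i) → (∃ v, v ∉ T ∧ q' v = some i)) (v : V) (hv : v ∉ T)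
    (i : ι) (hi : q v = some i) : q' v = some i := by
  by_contra hcon
  have key : ∀ j : ℕ, (nx ends q)^[j] v ∉ T ∧
      ∃ i, q ((nx ends q)^[j] v) = some i ∧ q' ((nx ends q)^[j] v) ≠ some i := by
    intro j
    induction j with
    | zero => exact ⟨hv, i, hi, hcon⟩
    | succ j ih =>
      rw [Function.iterate_succ_apply']
      exact ps_inj_step ends hloop q q' hq hq' T hA _ ih
  obtain ⟨j, hj⟩ := hT v (by rw [hi]; exact Option.some_ne_none i)
  exact (key j).1 hj

theorem ps_inj {V ι : Type} [Fintype V] [Fintype ι] (ends : ι → V × V)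
    (hloop : ∀ i, (ends i).1 ≠ (ends i).2) (q q' : V → Option ι) (hq : PS ends q) (hq' : PS ends q')
    (T : Finset V)
    (hT : ∀ v, q v ≠ none → ∃ j : ℕ, (nx ends q)^[j] v ∈ T)
    (hT' : ∀ v, q' v ≠ none → ∃ j : ℕ, (nx ends q')^[j] v ∈ T)
    (hqT : ∀ v ∈ T, q v = q' v)
    (hA : ∀ i, (∃ v, v ∉ T ∧ q v = some i) ↔ (∃ v, v ∉ T ∧ q' v = some i)) : q = q' := by
  funext v
  by_cases hv : v ∈ T
  · exact hqT v hv
  · have c1 := ps_inj_claim ends hloop q q' hq hq' T hT (fun i => (hA i).1) v hv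
    have c2 := ps_inj_claim ends hloop q' q hq' hq T hT' (fun i => (hA i).2) v hv
    cases h : q v with
    | some i => exact (c1 i h).symm
    | none =>
      cases h' : q' v with
      | none => rfl
      | some i =>
        have := c2 i h'
        rw [h] at this
        exact absurd this (Option.some_ne_none i).symm


end

end Pool.Agent.Helper96.Tau.P_ps_inj

namespace Pool.Agent.Helper96.Tau

alias ps_inj := P_ps_inj.ps_inj

end Pool.Agent.Helper96.Tau
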