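import Pool.Agent.Helper96.Tau.Defs
import Pool.Agent.Helper96.Tau.P_ps_hitting
import Pool.Agent.Helper96.Tau.P_ps_indep
import Pool.Agent.Helper96.Tau.P_ps_inj
import Pool.Agent.Helper96.Tau.P_data_count

set_option autoImplicit false


namespace Pool.Agent.Helper96.Tau.P_ps_le

open Pool.Agent.Helper96.Tau
open scoped Classical

noncomputable section




















theorem ps_le {V ι : Type} [Fintype V] [Fintype ι] (ends : ι → V × V) (d g : ℕ)
    (hg : HasGirth ends g) (hloop : ∀ i, (ends i).1 ≠ (ends i).2)
    (hdeg : DegLE ends d) (y : ℝ) (hy0 : 0 < y) (hy1 : y ≤ 1) :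
    (Nat.card {q : V → Option ι // PS ends q} : ℝ) ≤
      (Nat.card {A : Finset ι // Indep ends A} : ℝ) *
        ((1 / y) ^ (Fintype.card V / (g + 1)) * (1 + d * y) ^ Fintype.card V) := by
  have hch : ∀ q : {q : V → Option ι // PS ends q}, ∃ T : Finset V,
      T.card * (g + 1) ≤ Fintype.card V ∧ (∀ v ∈ T, q.1 v ≠ none) ∧
      ∀ v, q.1 v ≠ none → ∃ j : ℕ, (nx ends q.1)^[j] v ∈ T := fun q =>
    ps_hitting ends g hg hloop q.1 q.2
  choose T hT1 hT2 hT3 using hch
  let F : {q : V → Option ι // PS ends q} →
      {A : Finset ι // Indep ends A} ×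
      {φ : V → Option ι // (∀ v i, φ v = some i → ((ends i).1 = v ∨ (ends i).2 = v)) ∧
        (Finset.univ.filter (fun v => φ v ≠ none)).card ≤ Fintype.card V / (g + 1)} := fun q =>
    (⟨Finset.univ.filter (fun i => ∃ v, v ∉ T q ∧ q.1 v = some i),
      ps_indep ends hloop q.1 q.2 (T q) (hT3 q)⟩,
     ⟨fun v => if v ∈ T q then q.1 v else none, by
      constructor
      · intro v i hvi
        replace hvi : (if v ∈ T q then q.1 v else none) = some i := hvi
        by_cases hv : v ∈ T q
        · rw [if_pos hv] at hvi
          rcases q.2 v i hvi with h | h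
          · exact Or.inl h.1
          · exact Or.inr h.1
        · rw [if_neg hv] at hvi
          exact absurd hvi (by simp)
      · have h1 : (Finset.univ.filter (fun v => (if v ∈ T q then q.1 v else none) ≠ none)) ⊆ T q := by
          intro v hv
          by_contra hv'
          have := (Finset.mem_filter.1 hv).2
          rw [if_neg hv'] at this
          exact this rfl
        refine (Finset.card_le_card h1).trans ?_
        rw [Nat.le_div_iff_mul_le (Nat.succ_pos g)]
        exact hT1 q⟩)
  have hF : Function.Injective F := by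
    intro q q' hqq
    have hA := congrArg (fun p => p.1.1) hqq
    have hφ := congrArg (fun p => p.2.1) hqq
    simp only [F] at hA hφ
    have hφv : ∀ v, (if v ∈ T q then q.1 v else none) = (if v ∈ T q' then q'.1 v else none) :=
      fun v => congrFun hφ v
    have hTT : T q = T q' := by
      ext v
      have h := hφv v
      constructor
      · intro hv
        by_contra hv'
        rw [if_pos hv, if_neg hv'] at h
        exact hT2 q v hv h
      · intro hv
        by_contra hv'
        rw [if_neg hv', if_pos hv] at h
        exact hT2 q' v hv h.symm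
    apply Subtype.ext
    refine ps_inj ends hloop q.1 q'.1 q.2 q'.2 (T q) (hT3 q) (by rw [hTT]; exact hT3 q') ?_ ?_
    · intro v hv
      have h := hφv v
      rwa [if_pos hv, if_pos (by rw [← hTT]; exact hv)] at h
    · intro i
      have h := Finset.ext_iff.1 hA i
      simp only [Finset.mem_filter, Finset.mem_univ, true_and] at h
      rw [h, hTT]
  have h1 := Nat.card_le_card_of_injective F hF
  rw [Nat.card_prod] at h1
  have h2 := data_count ends d (Fintype.card V / (g + 1)) hdeg y hy0 hy1
  have h3 : (Nat.card {q : V → Option ι // PS ends q} : ℝ) ≤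
      (Nat.card {A : Finset ι // Indep ends A} : ℝ) *
      (Nat.card {φ : V → Option ι // (∀ v i, φ v = some i → ((ends i).1 = v ∨ (ends i).2 = v)) ∧
        (Finset.univ.filter (fun v => φ v ≠ none)).card ≤ Fintype.card V / (g + 1)} : ℝ) := by
    exact_mod_cast h1
  exact h3.trans (mul_le_mul_of_nonneg_left h2 (Nat.cast_nonneg _))


end

end Pool.Agent.Helper96.Tau.P_ps_le

namespace Pool.Agent.Helper96.Tau

alias ps_le := P_ps_le.ps_le

end Pool.Agent.Helper96.Tau
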