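import Pool.Agent.Helper96.Tau.Defs

set_option autoImplicit false


namespace Pool.Agent.Helper96.Tau.P_rr_add_deriv

open Pool.Agent.Helper96.Tau
open scoped Classical

noncomputable section






theorem rr_aux (z : ℂ) (hz : z.im ≠ 0) (s : Multiset ℂ) (hs : ∀ ρ ∈ s, ρ.im = 0) :
    ((s.map fun ρ => 1 / (z - ρ)).sum).im * z.im ≤ 0 ∧
      (s ≠ 0 → ((s.map fun ρ => 1 / (z - ρ)).sum).im * z.im < 0) := by
  induction s using Multiset.induction_on with
  | empty => simp
  | cons ρ s ih =>
    obtain ⟨i1, -⟩ := ih (fun x hx => hs x (Multiset.mem_cons_of_mem hx))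
    have hρ := hs ρ (Multiset.mem_cons_self ρ s)
    have hne : z - ρ ≠ 0 := by
      intro h
      have := congrArg Complex.im h
      rw [Complex.sub_im, hρ, sub_zero, Complex.zero_im] at this
      exact hz this
    have h1 : (1 / (z - ρ)).im * z.im < 0 := by
      rw [one_div, Complex.inv_im, Complex.sub_im, hρ, sub_zero]
      have h2 : 0 < Complex.normSq (z - ρ) := Complex.normSq_pos.2 hne
      have h3 : -z.im / Complex.normSq (z - ρ) * z.im = -(z.im ^ 2 / Complex.normSq (z - ρ)) := by
        ring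
      rw [h3, neg_lt_zero]
      positivity
    rw [Multiset.map_cons, Multiset.sum_cons, Complex.add_im, add_mul]
    exact ⟨by linarith, fun _ => by linarith⟩

theorem rr_add_deriv (P : Polynomial ℝ) (h : ∀ z : ℂ, Polynomial.aeval z P = 0 → z.im = 0) :
    ∀ z : ℂ, Polynomial.aeval z (P + Polynomial.derivative P) = 0 → z.im = 0 := by
  intro z hz
  by_contra him
  obtain ⟨Q, hQ⟩ : ∃ Q : Polynomial ℂ, Q = P.map (algebraMap ℝ ℂ) := ⟨_, rfl⟩
  have hev : ∀ w : ℂ, Polynomial.aeval w P = Q.eval w := by
    intro w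
    rw [hQ, Polynomial.eval_map_algebraMap]
  have hev' : Polynomial.aeval z (Polynomial.derivative P) = (Polynomial.derivative Q).eval z := by
    rw [hQ, Polynomial.derivative_map, Polynomial.eval_map_algebraMap]
  have hQz : Q.eval z ≠ 0 := by
    rw [← hev]
    exact fun h0 => him (h z h0)
  rw [map_add, hev, hev'] at hz
  have h1 := (IsAlgClosed.splits Q).eval_derivative_div_eval_of_ne_zero hQz
  have h2 : (Polynomial.derivative Q).eval z / Q.eval z = -1 := by
    rw [div_eq_iff hQz]
    linear_combination hz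
  rw [h2] at h1
  have hQ0 : Q ≠ 0 := by
    rintro rfl
    simp at hQz
  obtain ⟨i1, i2⟩ := rr_aux z him Q.roots (by
    intro ρ hρ
    rw [Polynomial.mem_roots hQ0] at hρ
    apply h
    rw [hev]
    exact hρ)
  rw [← h1] at i2
  by_cases hr : Q.roots = 0
  · rw [hr] at h1
    simp at h1
  · have := i2 hr
    simp at this


end

end Pool.Agent.Helper96.Tau.P_rr_add_deriv

namespace Pool.Agent.Helper96.Tau

alias rr_add_deriv := P_rr_add_deriv.rr_add_deriv

end Pool.Agent.Helper96.Tau
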