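import Pool.Agent.Helper96.Tau.Defs
import Pool.Agent.Helper96.Tau.P_rr_add_deriv
import Pool.Agent.Helper96.Tau.P_laguerre0
import Pool.Agent.Helper96.Tau.P_gamma_formula

set_option autoImplicit false


namespace Pool.Agent.Helper96.Tau.P_turan

open Pool.Agent.Helper96.Tau
open scoped Classical

noncomputable section

















theorem turan (p : ℕ) (c : ℕ → ℤ)
    (h : ∀ z : ℂ, Polynomial.aeval z
      (∑ i ∈ Finset.range (p + 1), Polynomial.C (c i) * Polynomial.X ^ i) = 0 → z.im = 0) (m : ℕ) :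
    (∑ i ∈ Finset.range (p + 1), (c i : ℝ) * (m.descFactorial i : ℝ)) *
      (∑ i ∈ Finset.range (p + 1), (c i : ℝ) * ((m + 2).descFactorial i : ℝ)) ≤
    (∑ i ∈ Finset.range (p + 1), (c i : ℝ) * ((m + 1).descFactorial i : ℝ)) ^ 2 := by
  obtain ⟨P, hP⟩ : ∃ P : Polynomial ℝ, P =
    ∑ i ∈ Finset.range (p + 1), Polynomial.C (c i : ℝ) * Polynomial.X ^ i := ⟨_, rfl⟩
  have hreal : ∀ z : ℂ, Polynomial.aeval z P = 0 → z.im = 0 := by
    intro z hz
    apply h z
    rw [hP] at hz
    rw [map_sum] at hz ⊢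
    rw [← hz]
    refine Finset.sum_congr rfl fun i _ => ?_
    simp
  have hit : ∀ k : ℕ, ∀ z : ℂ, Polynomial.aeval z
      ((fun P : Polynomial ℝ => P + Polynomial.derivative P)^[k] P) = 0 → z.im = 0 := by
    intro k
    induction k with
    | zero => exact hreal
    | succ k ih =>
      intro z hz
      rw [Function.iterate_succ_apply'] at hz
      exact rr_add_deriv _ ih z hz
  have g0 := gamma_formula p (fun i => (c i : ℝ)) m
  have g1 := gamma_formula p (fun i => (c i : ℝ)) (m + 1)
  have g2 := gamma_formula p (fun i => (c i : ℝ)) (m + 2)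
  beta_reduce at g0 g1 g2
  rw [← hP] at g0 g1 g2
  rw [Function.iterate_succ_apply'] at g1 g2
  rw [Function.iterate_succ_apply'] at g2
  rw [← g0, ← g1, ← g2]
  have hl := laguerre0 _ (hit m)
  generalize (fun P : Polynomial ℝ => P + Polynomial.derivative P)^[m] P = Q at *
  simp only [Polynomial.derivative_add, Polynomial.eval_add]
  nlinarith


end

end Pool.Agent.Helper96.Tau.P_turan

namespace Pool.Agent.Helper96.Tau

alias turan := P_turan.turan

end Pool.Agent.Helper96.Tau
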