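import Pool.Agent.Helper96.Tau.P_join_of_rel
import Pool.Agent.Helper96.Tau.P_kk_join
import Pool.Agent.Helper96.Tau.P_join_comm
import Pool.Agent.Helper96.Tau.P_join_exch
import Pool.Agent.Helper96.Tau.P_kk_bot
import Pool.Agent.Helper96.Tau.P_sp_empty
import Pool.Agent.Helper96.Tau.P_sp_insert
import Pool.Agent.Helper96.Tau.P_sp_mono
import Pool.Agent.Helper96.Tau.P_sp_inv
import Pool.Agent.Helper96.Tau.P_Pb_nonneg
import Pool.Agent.Helper96.Tau.P_Pb_perm
import Pool.Agent.Helper96.Tau.P_Pb_le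
import Pool.Agent.Helper96.Tau.P_Pb_corr
import Pool.Agent.Helper96.Tau.P_Pb_pos
import Pool.Agent.Helper96.Tau.P_Pb_isolated
import Pool.Agent.Helper96.Tau.P_explore
import Pool.Agent.Helper96.Tau.P_Pb_lower
import Pool.Agent.Helper96.Tau.P_good_count
import Pool.Agent.Helper96.Tau.P_good_of_blocks
import Pool.Agent.Helper96.Tau.P_goodlab_count
import Pool.Agent.Helper96.Tau.P_fund_set
import Pool.Agent.Helper96.Tau.P_lab_count
import Pool.Agent.Helper96.Tau.P_forests_le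
import Pool.Agent.Helper96.Tau.P_ps_hitting
import Pool.Agent.Helper96.Tau.P_ps_indep
import Pool.Agent.Helper96.Tau.P_ps_inj
import Pool.Agent.Helper96.Tau.P_data_count
import Pool.Agent.Helper96.Tau.P_ps_le
import Pool.Agent.Helper96.Tau.P_lift_girth
import Pool.Agent.Helper96.Tau.P_lift_deg
import Pool.Agent.Helper96.Tau.P_perm_count
import Pool.Agent.Helper96.Tau.P_fiber_count
import Pool.Agent.Helper96.Tau.P_compat_pi
import Pool.Agent.Helper96.Tau.P_bal_count
import Pool.Agent.Helper96.Tau.P_compat_ps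
import Pool.Agent.Helper96.Tau.P_lift_avg
import Pool.Agent.Helper96.Tau.P_biggs
import Pool.Agent.Helper96.Tau.P_chrom_poly
import Pool.Agent.Helper96.Tau.P_asc_basis
import Pool.Agent.Helper96.Tau.P_asc_neg
import Pool.Agent.Helper96.Tau.P_exists_coeffs
import Pool.Agent.Helper96.Tau.P_rr_add_deriv
import Pool.Agent.Helper96.Tau.P_laguerre0
import Pool.Agent.Helper96.Tau.P_gamma_formula
import Pool.Agent.Helper96.Tau.P_turan
import Pool.Agent.Helper96.Tau.P_chain_ineq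
import Pool.Agent.Helper96.Tau.P_coloring_card
import Pool.Agent.Helper96.Tau.P_fact_lower
import Pool.Agent.Helper96.Tau.P_fact_upper
import Pool.Agent.Helper96.Tau.P_num_base
import Pool.Agent.Helper96.Tau.P_num_main
import Pool.Agent.Helper96.Tau.P_num_loss

set_option autoImplicit false

namespace Pool.Agent.Helper96.Tau

open scoped Classical

noncomputable section

theorem main_false
    (h : ∀ (V : Type) [Fintype V] (G : SimpleGraph V) (c : ℕ → ℤ),
      (∀ n : ℕ, (Nat.card (G.Coloring (Fin n)) : ℤ) =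
        ∑ i ∈ Finset.range (Fintype.card V + 1),
          (-1 : ℤ) ^ (Fintype.card V - i) * c i * (ascPochhammer ℤ i).eval (n : ℤ)) →
      ∀ z : ℂ,
        Polynomial.aeval z
          (∑ i ∈ Finset.range (Fintype.card V + 1), Polynomial.C (c i) * Polynomial.X ^ i) = 0 →
        z.im = 0) : False := by
  obtain ⟨t, ht, hnum⟩ := num_main
  have hQ : 0 < Qn 16 t (3 * t) := by
    unfold Qn
    positivity
  obtain ⟨k, g, y, hk, hg, hy0, hy1, hε, hloss⟩ := num_loss t ht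
    (((14 : ℝ) ^ (98 * t) * (1 + 1 / 14) ^ (784 * t)) ^ 14) ((15 : ℝ) ^ (98 * t)) (Qn 16 t (3 * t))
    (by positivity) (by positivity) hQ hnum
  obtain ⟨Γ, _, _, s, hs, hred⟩ := biggs 16 g
  obtain ⟨π, hπ⟩ := lift_avg 16 t (3 * t) (by norm_num) s hs
  have hG : HasGirth (lift s π) g := lift_girth s hs g hred π
  have hdeg : DegLE (lift s π) 16 := lift_deg s hs π
  have hloop : ∀ i, ((lift s π) i).1 ≠ ((lift s π) i).2 := by
    intro i hi
    have := congrArg Prod.fst hi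
    simp [lift] at this
  have hcardΓ : 0 < Fintype.card Γ := Fintype.card_pos
  have hV : Fintype.card (Bool × Γ × Fin (t + 16 * (3 * t))) = 98 * t * Fintype.card Γ := by
    simp only [Fintype.card_prod, Fintype.card_bool, Fintype.card_fin]; ring
  have hι : Fintype.card (Γ × Fin 16 × Fin (t + 16 * (3 * t))) = 784 * t * Fintype.card Γ := by
    simp only [Fintype.card_prod, Fintype.card_fin]; ring
  have hLne : ∀ e ∈ el (lift s π), e.1 ≠ e.2 := by
    intro e he
    unfold el at he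
    obtain ⟨i, _, rfl⟩ := List.mem_map.1 he
    exact hloop i
  obtain ⟨c, hc1, hc2⟩ := exists_coeffs (el (lift s π))
  have hreal := h _ (SimpleGraph.fromRel (fun x y => (x, y) ∈ el (lift s π))) c (by
    intro n
    rw [coloring_card (el (lift s π)) hLne n]
    exact hc1 n)
  have htur := turan _ c hreal
  have hlc : ∀ m : ℕ, (fun m : ℕ => Pb (m : ℝ) (el (lift s π)) ⊥) m *
      (fun m : ℕ => Pb (m : ℝ) (el (lift s π)) ⊥) (m + 2) ≤
      ((fun m : ℕ => Pb (m : ℝ) (el (lift s π)) ⊥) (m + 1)) ^ 2 := by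
    intro m
    have := htur m
    rw [hc2, hc2, hc2] at this
    exact this
  have hpos : ∀ m : ℕ, 1 ≤ m → 0 < (fun m : ℕ => Pb (m : ℝ) (el (lift s π)) ⊥) m := by
    intro m hm
    exact Pb_pos _ (by exact_mod_cast hm) _ hLne
  have hchain := chain_ineq _ hpos hlc 14 (by norm_num)
  simp only [Nat.cast_one] at hchain
  norm_num at hchain
  -- bounds
  have hup : Pb (14 : ℝ) (el (lift s π)) ⊥ ≤
      (14 : ℝ) ^ (98 * t * Fintype.card Γ) * (1 + 1 / 14) ^ (784 * t * Fintype.card Γ) := by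
    have h1 := Pb_le (14 : ℝ) (by norm_num) (el (lift s π)) (⊥ : Setoid (Bool × Γ × Fin (t + 16 * (3 * t))))
    rw [kk_bot, hV] at h1
    have h2 : (el (lift s π)).length = 784 * t * Fintype.card Γ := by
      unfold el
      rw [List.length_map, Finset.length_toList, Finset.card_univ, hι]
    rw [h2] at h1
    exact h1
  have hlow15 : (15 : ℝ) ^ (98 * t * Fintype.card Γ) *
      (1 + (1 - 16 * (15 / 16 : ℝ) ^ (g - 1)) / 15) ^ (784 * t * Fintype.card Γ) ≤
      Pb (15 : ℝ) (el (lift s π)) ⊥ := by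
    have h1 := Pb_lower (lift s π) 16 g 15 (15 / 16) (by norm_num) (by norm_num) (by norm_num)
      (by norm_num) hG hg hdeg (by simpa using hε)
    rw [hV, hι] at h1
    simpa [PbG] using h1
  have h1a := forests_le (lift s π) hloop k g hk hG
  have h1b := ps_le (lift s π) 16 g hG hloop hdeg y hy0 hy1
  rw [hι] at h1a
  rw [hV] at h1b
  have hl := hloss (Fintype.card Γ) hcardΓ
  set cΓ := Fintype.card Γ with hcΓ
  set F : ℝ := (Nat.card {A : Finset (Γ × Fin 16 × Fin (t + 16 * (3 * t))) // Indep (lift s π) A} : ℝ) with hF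
  set P1 : ℝ := PbG 1 (lift s π) with hP1
  set E : ℝ := (((k : ℝ) + 1) ^ (784 * t * cΓ) *
        Real.exp (-(Real.log ((k : ℝ) + 1) * ((784 * t * cΓ : ℕ) : ℝ) * ((k : ℝ) / ((k : ℝ) + 1)) ^ g))) with hE
  have hEpos : 0 < E := by positivity
  have hK2 : (0 : ℝ) < ((k : ℝ) + 2) ^ (784 * t * cΓ) := by positivity
  have hD : (0 : ℝ) < (1 / y) ^ ((98 * t * cΓ) / (g + 1)) * (1 + 16 * y) ^ (98 * t * cΓ) := by positivity
  have hFge : Qn 16 t (3 * t) ^ cΓ / ((1 / y) ^ ((98 * t * cΓ) / (g + 1)) * (1 + 16 * y) ^ (98 * t * cΓ)) ≤ F := by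
    rw [div_le_iff₀ hD]
    refine hπ.trans ?_
    simpa using h1b
  have hP1ge : Qn 16 t (3 * t) ^ cΓ / ((1 / y) ^ ((98 * t * cΓ) / (g + 1)) * (1 + 16 * y) ^ (98 * t * cΓ)) *
      (E / ((k : ℝ) + 2) ^ (784 * t * cΓ)) ≤ P1 := by
    have h3 : F * (E / ((k : ℝ) + 2) ^ (784 * t * cΓ)) ≤ P1 := by
      rw [← mul_div_assoc, div_le_iff₀ hK2, mul_comm P1]
      exact h1a
    refine le_trans (mul_le_mul_of_nonneg_right hFge (by positivity)) h3
  have hP1' : P1 = Pb (1 : ℝ) (el (lift s π)) ⊥ := rfl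
  have hP14nn : 0 ≤ Pb (14 : ℝ) (el (lift s π)) ⊥ := Pb_nonneg _ (by norm_num) _ _
  have hbase : (0 : ℝ) ≤ (15 : ℝ) ^ (98 * t * cΓ) *
      (1 + (1 - 16 * (15 / 16 : ℝ) ^ (g - 1)) / 15) ^ (784 * t * cΓ) := by
    have : (0 : ℝ) ≤ 1 + (1 - 16 * (15 / 16 : ℝ) ^ (g - 1)) / 15 := by linarith
    positivity
  have hfin : (((14 : ℝ) ^ (98 * t) * (1 + 1 / 14) ^ (784 * t)) ^ 14) ^ cΓ < 
      (((14 : ℝ) ^ (98 * t) * (1 + 1 / 14) ^ (784 * t)) ^ 14) ^ cΓ := by
    refine lt_of_lt_of_le hl ?_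
    have e1 : (((14 : ℝ) ^ (98 * t) * (1 + 1 / 14) ^ (784 * t)) ^ 14) ^ cΓ =
        ((14 : ℝ) ^ (98 * t * cΓ) * (1 + 1 / 14) ^ (784 * t * cΓ)) ^ 14 := by
      rw [← pow_mul, mul_comm 14 cΓ, pow_mul, mul_pow, ← pow_mul, ← pow_mul]
    have e2 : ((15 : ℝ) ^ (98 * t)) ^ cΓ = (15 : ℝ) ^ (98 * t * cΓ) := by rw [← pow_mul]
    rw [e1, e2]
    calc _ ≤ P1 * (Pb (15 : ℝ) (el (lift s π)) ⊥) ^ 13 := by
            apply mul_le_mul hP1ge (pow_le_pow_left₀ hbase hlow15 13) (by positivity)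
            exact le_trans (by positivity) hP1ge
      _ ≤ (Pb (14 : ℝ) (el (lift s π)) ⊥) ^ 14 := by rw [hP1']; exact hchain
      _ ≤ _ := pow_le_pow_left₀ hP14nn hup 14
  exact lt_irrefl _ hfin

end

end Pool.Agent.Helper96.Tau
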