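import Pool.Agent.Helper96.Tau.Defs
import Pool.Agent.Helper96.Tau.P_kk_join
import Pool.Agent.Helper96.Tau.P_Pb_nonneg

set_option autoImplicit false


namespace Pool.Agent.Helper96.Tau.P_Pb_le

open Pool.Agent.Helper96.Tau
open scoped Classical

noncomputable section














theorem Pb_le {V : Type} [Finite V] (m : ℝ) (hm : 0 < m) (L : List (V × V)) (r : Setoid V) :
    Pb m L r ≤ m ^ kk r * (1 + 1 / m) ^ L.length := by
  induction L generalizing r with
  | nil => simp [Pb]
  | cons e L ih =>
    have hc : 0 ≤ m ^ kk r * (1 + 1 / m) ^ (e :: L).length := by positivity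
    unfold Pb
    split_ifs with h
    · exact hc
    · have h1 := ih r
      have h2 := ih (join r e.1 e.2)
      have h3 := kk_join r e.1 e.2 h
      have h4 : m ^ kk r = m ^ kk (join r e.1 e.2) * m := by rw [← h3, pow_succ]
      rw [List.length_cons, pow_succ]
      have h5 : m ^ kk (join r e.1 e.2) = m ^ kk r * (1 / m) := by
        rw [h4]; field_simp
      rw [h5] at h2
      calc Pb m L r + Pb m L (join r e.1 e.2)
          ≤ m ^ kk r * (1 + 1 / m) ^ L.length + m ^ kk r * (1 / m) * (1 + 1 / m) ^ L.length :=
            add_le_add h1 h2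
        _ = m ^ kk r * ((1 + 1 / m) ^ L.length * (1 + 1 / m)) := by ring


end

end Pool.Agent.Helper96.Tau.P_Pb_le

namespace Pool.Agent.Helper96.Tau

alias Pb_le := P_Pb_le.Pb_le

end Pool.Agent.Helper96.Tau
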