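import Pool.Agent.Helper96.Tau.Defs

set_option autoImplicit false


namespace Pool.Agent.Helper96.Tau.P_chain_ineq

open Pool.Agent.Helper96.Tau
open scoped Classical

noncomputable section






theorem chain_ineq_aux (γ : ℕ → ℝ) (hpos : ∀ m, 1 ≤ m → 0 < γ m)
    (h : ∀ m, γ m * γ (m + 2) ≤ γ (m + 1) ^ 2) (m : ℕ) :
    γ 1 * γ (m + 2) ^ m ≤ γ (m + 1) ^ (m + 1) := by
  induction m with
  | zero =>
    rw [pow_zero, mul_one, zero_add, pow_one]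
  | succ m ih =>
    have ha := hpos (m + 1) (by omega)
    have hb := hpos (m + 2) (by omega)
    have hc := hpos (m + 3) (by omega)
    have hac : γ (m + 1) * γ (m + 3) ≤ γ (m + 2) ^ 2 := h (m + 1)
    show γ 1 * γ (m + 3) ^ (m + 1) ≤ γ (m + 2) ^ (m + 2)
    have hbm : 0 < γ (m + 2) ^ m := pow_pos hb m
    have hcm : 0 < γ (m + 3) ^ (m + 1) := pow_pos hc _
    apply le_of_mul_le_mul_left _ hbm
    calc γ (m + 2) ^ m * (γ 1 * γ (m + 3) ^ (m + 1)) = (γ 1 * γ (m + 2) ^ m) * γ (m + 3) ^ (m + 1) := by ring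
      _ ≤ γ (m + 1) ^ (m + 1) * γ (m + 3) ^ (m + 1) := mul_le_mul_of_nonneg_right ih hcm.le
      _ = (γ (m + 1) * γ (m + 3)) ^ (m + 1) := (mul_pow _ _ _).symm
      _ ≤ (γ (m + 2) ^ 2) ^ (m + 1) := pow_le_pow_left₀ (mul_pos ha hc).le hac _
      _ = γ (m + 2) ^ m * γ (m + 2) ^ (m + 2) := by
        rw [← pow_mul, ← pow_add]
        congr 1
        ring

theorem chain_ineq (γ : ℕ → ℝ) (hpos : ∀ m, 1 ≤ m → 0 < γ m)
    (h : ∀ m, γ m * γ (m + 2) ≤ γ (m + 1) ^ 2) (M : ℕ) (hM : 1 ≤ M) :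
    γ 1 * γ (M + 1) ^ (M - 1) ≤ γ M ^ M := by
  obtain ⟨m, rfl⟩ : ∃ m, M = m + 1 := ⟨M - 1, by omega⟩
  exact chain_ineq_aux γ hpos h m


end

end Pool.Agent.Helper96.Tau.P_chain_ineq

namespace Pool.Agent.Helper96.Tau

alias chain_ineq := P_chain_ineq.chain_ineq

end Pool.Agent.Helper96.Tau
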