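import Pool.Agent.Helper96.Tau.Defs
import Pool.Agent.Helper96.Tau.P_goodlab_count
import Pool.Agent.Helper96.Tau.P_lab_count

set_option autoImplicit false


namespace Pool.Agent.Helper96.Tau.P_forests_le

open Pool.Agent.Helper96.Tau
open scoped Classical

noncomputable section














theorem h170_cardsum {α : Type} [Fintype α] (P : α → Prop) :
    (Nat.card {x : α // P x} : ℝ) = ∑ x : α, if P x then (1 : ℝ) else 0 := by
  rw [Nat.card_eq_fintype_card, Fintype.card_subtype, Finset.card_filter]
  push_cast
  rfl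

theorem forests_le {V ι : Type} [Fintype V] [Fintype ι] (ends : ι → V × V)
    (hloop : ∀ i, (ends i).1 ≠ (ends i).2) (k g : ℕ) (hk : 1 ≤ k) (hg : HasGirth ends g) :
    (Nat.card {A : Finset ι // Indep ends A} : ℝ) * (((k : ℝ) + 1) ^ Fintype.card ι *
        Real.exp (-(Real.log ((k : ℝ) + 1) * (Fintype.card ι : ℝ) * ((k : ℝ) / ((k : ℝ) + 1)) ^ g))) ≤
      ((k : ℝ) + 2) ^ Fintype.card ι * PbG 1 ends := by
  have hl := lab_count ends k g hk hg
  obtain ⟨c, hc⟩ : ∃ c : ℝ, c = ((k : ℝ) + 1) ^ Fintype.card ι *
        Real.exp (-(Real.log ((k : ℝ) + 1) * (Fintype.card ι : ℝ) * ((k : ℝ) / ((k : ℝ) + 1)) ^ g)) :=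
    ⟨_, rfl⟩
  rw [← hc] at hl ⊢
  calc (Nat.card {A : Finset ι // Indep ends A} : ℝ) * c
      = ∑ A : Finset ι, (if Indep ends A then (1 : ℝ) else 0) * c := by
        rw [h170_cardsum, Finset.sum_mul]
    _ ≤ ∑ A : Finset ι, ∑ x : ι → Fin (k + 2),
          if Indep ends A ∧ GoodLab ends k A x then (1 : ℝ) else 0 := by
        apply Finset.sum_le_sum
        intro A _
        by_cases hA : Indep ends A
        · rw [if_pos hA, one_mul]
          refine (hl A hA).trans (le_of_eq ?_)
          rw [h170_cardsum]
          apply Finset.sum_congr rfl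
          intro x _
          by_cases hx : GoodLab ends k A x
          · rw [if_pos hx, if_pos ⟨hA, hx⟩]
          · rw [if_neg hx, if_neg (fun h => hx h.2)]
        · rw [if_neg hA, zero_mul]
          apply Finset.sum_nonneg
          intro x _
          split_ifs <;> norm_num
    _ = ∑ x : ι → Fin (k + 2), ∑ A : Finset ι,
          if Indep ends A ∧ GoodLab ends k A x then (1 : ℝ) else 0 := Finset.sum_comm
    _ ≤ ∑ x : ι → Fin (k + 2), PbG 1 ends := by
        apply Finset.sum_le_sum
        intro x _
        refine le_trans (le_of_eq ?_) (goodlab_count ends hloop k x)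
        rw [h170_cardsum (fun A : Finset ι => Indep ends A ∧ GoodLab ends k A x)]
        apply Finset.sum_congr rfl
        intro A _
        by_cases h : Indep ends A ∧ GoodLab ends k A x
        · rw [if_pos h, if_pos h]
        · rw [if_neg h, if_neg h]
    _ = ((k : ℝ) + 2) ^ Fintype.card ι * PbG 1 ends := by
        rw [Finset.sum_const, Finset.card_univ, Fintype.card_fun, Fintype.card_fin, nsmul_eq_mul]
        push_cast
        ring


end

end Pool.Agent.Helper96.Tau.P_forests_le

namespace Pool.Agent.Helper96.Tau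

alias forests_le := P_forests_le.forests_le

end Pool.Agent.Helper96.Tau
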